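import Mathlib
import Pool.Agent.PNH.Defs
import Pool.Agent.PNH.ParL

set_option autoImplicit false

/-!
# The generic tuple of forms over an arbitrary field: definitions
-/

namespace Pool.Agent.PNB

open Pool.Agent.PNH

/-- The monomials of degree `d` in the forms number `0, …, N`. -/
abbrev Ix (N d : ℕ) : Type := Fin (N + 1) × {α : Fin (N + 1) →₀ ℕ // α.degree = d}

/-- The coefficients of the forms. -/
def co {A : Type} [CommRing A] {N : ℕ} (d : ℕ) (F : Tup N A) (p : Ix N d) : A :=
  (F p.1).coeff p.2.1

/-- `F` is the generic tuple of forms of degree `d` over `k`, and its field of definition is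
`κ = k(coefficients)`. -/
structure IsGen (k : Type) {κ : Type} [Field k] [Field κ] [Algebra k κ] {N : ℕ} (d : ℕ)
    (F : Tup N κ) : Prop where
  hom : ∀ i, (F i).IsHomogeneous d
  ind : AlgebraicIndependent k (co d F)
  top : IntermediateField.adjoin k (Set.range (co d F)) = ⊤

/-- The restriction of a polynomial to the hyperplane `x_0 = 0`. -/
noncomputable def res {A : Type} [CommRing A] {N : ℕ} :
    MvPolynomial (Fin (N + 1 + 1)) A →+* MvPolynomial (Fin (N + 1)) A :=
  MvPolynomial.eval₂Hom MvPolynomial.C (Fin.cons 0 MvPolynomial.X : Fin (N + 1 + 1) → _)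

/-- The tuple `G` with `c X_0 ^ d` added to the form number `0`. -/
noncomputable def addc {A : Type} [CommRing A] {N : ℕ} (d : ℕ) (c : A) (G : Tup N A) : Tup N A :=
  fun i => G i + if i = 0 then MvPolynomial.C c * MvPolynomial.X 0 ^ d else 0

/-- The restriction of the forms number `1, …, N + 1` to `x_0 = 0`. -/
noncomputable def low {A : Type} [CommRing A] {N : ℕ} (G : Tup (N + 1) A) : Tup N A :=
  fun i => res (G i.succ)

variable {A B : Type} [CommRing A] [CommRing B] {N d : ℕ}

theorem res_C (a : A) : res (MvPolynomial.C a : MvPolynomial (Fin (N + 1 + 1)) A) =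
    MvPolynomial.C a := by
  simp [res]

theorem res_zero : res (MvPolynomial.X 0 : MvPolynomial (Fin (N + 1 + 1)) A) = 0 := by
  simp [res]

theorem res_succ (i : Fin (N + 1)) : res (MvPolynomial.X i.succ : MvPolynomial (Fin (N + 1 + 1)) A) =
    MvPolynomial.X i := by
  simp [res]

theorem eval_res (P : MvPolynomial (Fin (N + 1 + 1)) A) (y : Fin (N + 1) → A) :
    MvPolynomial.eval y (res P) = MvPolynomial.eval (Fin.cons 0 y : Fin (N + 1 + 1) → A) P := by
  have h : (MvPolynomial.eval y).comp (res (A := A) (N := N)) =
      MvPolynomial.eval (Fin.cons 0 y : Fin (N + 1 + 1) → A) := by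
    refine MvPolynomial.ringHom_ext (fun a => ?_) (fun i => ?_)
    · simp [res_C]
    · refine Fin.cases ?_ (fun i => ?_) i
      · simp [res_zero]
      · simp [res_succ]
  exact RingHom.congr_fun h P

theorem map_res (f : A →+* B) (P : MvPolynomial (Fin (N + 1 + 1)) A) :
    MvPolynomial.map f (res P) = res (MvPolynomial.map f P) := by
  have h : (MvPolynomial.map f).comp (res (A := A) (N := N)) =
      (res (A := B) (N := N)).comp (MvPolynomial.map f) := by
    refine MvPolynomial.ringHom_ext (fun a => ?_) (fun i => ?_)
    · simp [res_C]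
    · refine Fin.cases ?_ (fun i => ?_) i
      · simp [res_zero]
      · simp [res_succ]
  exact RingHom.congr_fun h P

theorem mp_low (f : A →+* B) (G : Tup (N + 1) A) : mp f (low G) = low (mp f G) := by
  funext i
  exact map_res f (G i.succ)

theorem hom_res (P : MvPolynomial (Fin (N + 1 + 1)) A) (h : P.IsHomogeneous d) :
    (res P).IsHomogeneous d := by
  unfold res
  rw [MvPolynomial.coe_eval₂Hom]
  have := h.eval₂ (n := 1) MvPolynomial.C (Fin.cons 0 MvPolynomial.X : Fin (N + 1 + 1) → _)
    (fun a => MvPolynomial.isHomogeneous_C _ a) (fun i => by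
      refine Fin.cases ?_ (fun i => ?_) i
      · simpa using MvPolynomial.isHomogeneous_zero _ _ _
      · simpa using MvPolynomial.isHomogeneous_X _ _)
  simpa using this

theorem coeff_res (P : MvPolynomial (Fin (N + 1 + 1)) A) (α : Fin (N + 1) →₀ ℕ) :
    (res P).coeff α = P.coeff (Finsupp.cons 0 α) := by
  classical
  induction P using MvPolynomial.induction_on' with
  | monomial β a =>
    unfold res
    rw [MvPolynomial.coe_eval₂Hom, MvPolynomial.eval₂_monomial, MvPolynomial.coeff_monomial,
      Finsupp.prod_fintype _ _ (fun _ => pow_zero _), Fin.prod_univ_succ]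
    simp only [Fin.cons_zero, Fin.cons_succ]
    by_cases h0 : β 0 = 0
    · rw [h0, pow_zero, one_mul]
      have h1 : MvPolynomial.C a * ∏ i : Fin (N + 1), MvPolynomial.X i ^ β i.succ =
          MvPolynomial.monomial (Finsupp.tail β) a := by
        rw [MvPolynomial.monomial_eq, Finsupp.prod_fintype _ _ (fun _ => pow_zero _)]
        rfl
      rw [h1, MvPolynomial.coeff_monomial]
      have h2 : Finsupp.tail β = α ↔ β = Finsupp.cons 0 α := by
        constructor
        · rintro rfl
          have := Finsupp.cons_tail β
          rw [h0] at this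
          exact this.symm
        · rintro rfl
          exact Finsupp.tail_cons 0 α
      simp only [h2]
    · rw [zero_pow h0, zero_mul, mul_zero, MvPolynomial.coeff_zero, if_neg]
      rintro rfl
      exact h0 (Finsupp.cons_zero 0 α)
  | add P Q hP hQ => rw [map_add, MvPolynomial.coeff_add, MvPolynomial.coeff_add, hP, hQ]

theorem mp_addc (f : A →+* B) (c : A) (G : Tup N A) :
    mp f (addc d c G) = addc d (f c) (mp f G) := by
  funext i
  unfold mp addc
  rw [map_add]
  split_ifs
  · simp
  · simp

end Pool.Agent.PNB
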