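import Mathlib
import Pool.Agent.LIM.ExVal

set_option autoImplicit false

/-!
# Weight valuations on the algebraic extensions of `k(a_i)`
-/

namespace Pool.Agent.PNB

open Polynomial

namespace Wt

variable {k κ ι : Type} [Field k] [Field κ] [Algebra k κ]

/-- The substitution `X_i ↦ a_i T ^ w_i`. -/
noncomputable def subst (a : ι → κ) (w : ι → ℕ) : MvPolynomial ι k →+* κ[X] :=
  MvPolynomial.eval₂Hom (C.comp (algebraMap k κ)) fun i => C (a i) * X ^ w i

theorem eval_subst (a : ι → κ) (w : ι → ℕ) :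
    (evalRingHom 1).comp (subst (k := k) a w) = (MvPolynomial.aeval a).toRingHom := by
  refine MvPolynomial.ringHom_ext (fun c => ?_) (fun i => ?_)
  · simp [subst]
  · simp [subst]

theorem subst_injective {a : ι → κ} (h : AlgebraicIndependent k a) (w : ι → ℕ) :
    Function.Injective (subst (k := k) a w) := by
  have h1 : Function.Injective ((evalRingHom 1).comp (subst (k := k) a w)) := by
    rw [eval_subst]
    exact h
  rw [RingHom.coe_comp] at h1
  exact h1.of_comp

/-- The homomorphism of `k(a_i)` with `a_i ↦ a_i T ^ w_i`. -/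
theorem exists_hom {a : ι → κ} (h : AlgebraicIndependent k a)
    (ht : IntermediateField.adjoin k (Set.range a) = ⊤) (w : ι → ℕ) :
    ∃ ψ : κ →+* RatFunc κ, (∀ i, ψ (a i) = RatFunc.C (a i) * RatFunc.X ^ w i) ∧
      ∀ c : k, ψ (algebraMap k κ c) = RatFunc.C (algebraMap k κ c) := by
  have hinj : Function.Injective ((algebraMap κ[X] (RatFunc κ)).comp (subst (k := k) a w)) := by
    rw [RingHom.coe_comp]
    exact (IsFractionRing.injective _ _).comp (subst_injective h w)
  set ψ₁ : FractionRing (MvPolynomial ι k) →+* RatFunc κ := IsFractionRing.lift hinj with hψ₁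
  have e1 : ∀ c : MvPolynomial ι k,
      ψ₁ (algebraMap _ _ c) = algebraMap κ[X] (RatFunc κ) (subst (k := k) a w c) :=
    fun c => IsFractionRing.lift_algebraMap hinj c
  let e : FractionRing (MvPolynomial ι k) ≃ₐ[k] κ :=
    h.aevalEquivField.trans ((IntermediateField.equivOfEq ht).trans IntermediateField.topEquiv)
  have he : ∀ c : MvPolynomial ι k, e (algebraMap _ _ c) = MvPolynomial.aeval a c := by
    intro c
    have h2 := h.aevalEquivField_algebraMap_apply_coe c
    show ((h.aevalEquivField (algebraMap _ _ c) :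
      IntermediateField.adjoin k (Set.range a)) : κ) = _
    exact h2
  refine ⟨ψ₁.comp e.symm.toRingEquiv.toRingHom, fun i => ?_, fun c => ?_⟩
  · have h3 : e.symm (a i) = algebraMap (MvPolynomial ι k) _ (MvPolynomial.X i) := by
      rw [AlgEquiv.symm_apply_eq, he, MvPolynomial.aeval_X]
    show ψ₁ (e.symm (a i)) = _
    rw [h3, e1]
    simp [subst]
  · have h3 : e.symm (algebraMap k κ c) = algebraMap (MvPolynomial ι k) _ (MvPolynomial.C c) := by
      rw [AlgEquiv.symm_apply_eq, he, MvPolynomial.aeval_C]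
    show ψ₁ (e.symm (algebraMap k κ c)) = _
    rw [h3, e1]
    simp [subst]

end Wt

/-- The weight valuation on an algebraic extension of `k(a_i)`. -/
theorem exists_wt {k κ M ι : Type} [Field k] [Field κ] [Field M] [Algebra k κ] [Algebra κ M]
    [Algebra.IsAlgebraic κ M] (a : ι → κ) (h : AlgebraicIndependent k a)
    (ht : IntermediateField.adjoin k (Set.range a) = ⊤) (w : ι → ℕ) :
    ∃ (Γ : Type) (_ : LinearOrderedCommGroupWithZero Γ) (v : Valuation M Γ) (g : Γ), 1 < g ∧
      (∀ i, v (algebraMap κ M (a i)) = g ^ w i) ∧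
      (∀ x : κ, x ≠ 0 → ∃ m : ℤ, v (algebraMap κ M x) = g ^ m) ∧
      ∀ x : k, x ≠ 0 → v (algebraMap κ M (algebraMap k κ x)) = 1 := by
  obtain ⟨Γ, hΓ, u, hg, hu⟩ :=
    LIM.Ex.Val.exists_infty κ (AlgebraicClosure (RatFunc κ))
  obtain ⟨ψ₀, h1, h2⟩ := Wt.exists_hom h ht w
  obtain ⟨ψ, hψ⟩ := LIM.Ex.Val.lift_hom (L := M)
    ((algebraMap (RatFunc κ) (AlgebraicClosure (RatFunc κ))).comp ψ₀)
  have hC : ∀ c : κ, c ≠ 0 → u (algebraMap (RatFunc κ) _ (RatFunc.C c)) = 1 := by
    intro c hc
    rw [hu _ (by simpa using hc), RatFunc.intDegree_C, zpow_zero]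
  refine ⟨Γ, hΓ, u.comap ψ, u (algebraMap (RatFunc κ) _ RatFunc.X), hg, fun i => ?_,
    fun c hc => ?_, fun x hx => ?_⟩
  · rw [Valuation.comap_apply, hψ, RingHom.comp_apply, h1, map_mul, map_mul, map_pow, map_pow,
      hC _ (h.ne_zero i), one_mul]
  · refine ⟨(ψ₀ c).intDegree, ?_⟩
    rw [Valuation.comap_apply, hψ, RingHom.comp_apply]
    exact hu _ (by rwa [ne_eq, map_eq_zero])
  · rw [Valuation.comap_apply, hψ, RingHom.comp_apply, h2]
    exact hC _ (by rwa [ne_eq, map_eq_zero])

end Pool.Agent.PNB
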