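import Mathlib
import Pool.Agent.PNB.Defs
import Pool.Agent.PNB.Wt
import Pool.Agent.PNH.Alg
import Pool.Agent.PNH.Cer

set_option autoImplicit false

/-!
# The generic tuple of forms is a morphism
-/

namespace Pool.Agent.PNB

open Pool.Agent.PNH

/-- The generic tuple has no common zero in an algebraic extension of its field of definition. -/
theorem GCertA.zero_alg {k κ M : Type} [Field k] [Field κ] [Field M] [Algebra k κ] [Algebra κ M]
    [Algebra.IsAlgebraic κ M] {N d : ℕ} (F : Tup N κ) (h : IsGen k d F)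
    (x : Fin (N + 1) → M) (hx : app (mp (algebraMap κ M) F) x = 0) : x = 0 := by
  classical
  by_contra hx0
  obtain ⟨Γ, hΓ, v, g, hg, hw, -, -⟩ := exists_wt (M := M) (co d F) h.ind h.top
    (fun p => if (p.2 : Fin (N + 1) →₀ ℕ) = Finsupp.single (p.1 - 1) d then 1 else 0)
  obtain ⟨j, hj⟩ := Finite.exists_max fun i => v (x i)
  have hxj : v (x j) ≠ 0 := by
    intro h0
    refine hx0 (funext fun i => ?_)
    have h1 := hj i
    rw [h0, le_zero_iff, map_eq_zero] at h1
    exact h1
  set P : MvPolynomial (Fin (N + 1)) M := MvPolynomial.map (algebraMap κ M) (F (j + 1)) with hPd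
  have hP : P.IsHomogeneous d := (h.hom (j + 1)).map _
  have hc : v (P.coeff (Finsupp.single j d)) = g := by
    have h1 := hw (j + 1, ⟨Finsupp.single j d, by simp⟩)
    simp only [add_sub_cancel_right, if_true, pow_one] at h1
    rw [hPd, MvPolynomial.coeff_map]
    exact h1
  have hs : ∀ m : Fin (N + 1) →₀ ℕ, m ≠ Finsupp.single j d → v (P.coeff m) ≤ 1 := by
    intro m hm
    by_cases hmd : m.degree = d
    · have h1 := hw (j + 1, ⟨m, hmd⟩)
      simp only [add_sub_cancel_right, if_neg hm, pow_zero] at h1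
      rw [hPd, MvPolynomial.coeff_map]
      exact h1.le
    · rw [hP.coeff_eq_zero hmd, map_zero]
      exact zero_le_one
  have hev : MvPolynomial.eval x P = 0 := congrFun hx (j + 1)
  rw [MvPolynomial.eval_eq'] at hev
  have hm0 : Finsupp.single j d ∈ P.support := by
    rw [MvPolynomial.mem_support_iff]
    intro h0
    rw [h0, map_zero] at hc
    rw [← hc] at hg
    exact absurd hg (not_lt.2 zero_le_one)
  rw [← Finset.add_sum_erase _ _ hm0] at hev
  have h1 : v (P.coeff (Finsupp.single j d) * ∏ i, x i ^ (Finsupp.single j d : Fin (N + 1) →₀ ℕ) i) =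
      g * v (x j) ^ d := by
    rw [map_mul, hc, Finset.prod_eq_single j, Finsupp.single_eq_same, map_pow]
    · intro i _ hi
      rw [Finsupp.single_eq_of_ne hi, pow_zero]
    · intro hi
      exact absurd (Finset.mem_univ j) hi
  have h2 : v (∑ m ∈ P.support.erase (Finsupp.single j d), P.coeff m * ∏ i, x i ^ m i) ≤
      v (x j) ^ d := by
    refine v.map_sum_le fun m hm => ?_
    obtain ⟨hm1, hm2⟩ := Finset.mem_erase.1 hm
    have hmd : m.degree = d := by
      by_contra h0
      exact MvPolynomial.mem_support_iff.1 hm2 (hP.coeff_eq_zero h0)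
    rw [map_mul, map_prod]
    have h3 : ∏ i, v (x i ^ m i) ≤ ∏ i, v (x j) ^ m i := by
      refine Finset.prod_le_prod' fun i _ => ?_
      rw [map_pow]
      exact pow_le_pow_left' (hj i) _
    rw [Finset.prod_pow_eq_pow_sum, ← Finsupp.degree_eq_sum, hmd] at h3
    calc v (P.coeff m) * ∏ i, v (x i ^ m i) ≤ 1 * v (x j) ^ d := mul_le_mul' (hs m hm1) h3
      _ = v (x j) ^ d := one_mul _
  have h3 : v (x j) ^ d < g * v (x j) ^ d := by
    have h4 : 0 < v (x j) ^ d := zero_lt_iff.2 (pow_ne_zero _ hxj)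
    calc v (x j) ^ d = 1 * v (x j) ^ d := (one_mul _).symm
      _ < g * v (x j) ^ d := mul_lt_mul_of_pos_right hg h4
  rw [eq_neg_of_add_eq_zero_left hev, Valuation.map_neg] at h1
  exact absurd (h1.symm.trans_le h2) (not_le.2 h3)

theorem gen_cert {k κ : Type} [Field k] [Field κ] [Algebra k κ] {N d : ℕ} (hd : 1 ≤ d)
    (F : Tup N κ) (h : IsGen k d F) : ∃ (c : κ) (e : ℕ), c ≠ 0 ∧ Cert F c e := by
  have : Algebra.IsAlgebraic κ (FractionRing κ) :=
    IsLocalization.isAlgebraic (FractionRing κ) (nonZeroDivisors κ)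
  have : Algebra.IsAlgebraic κ (AlgebraicClosure (FractionRing κ)) :=
    Algebra.IsAlgebraic.trans κ (FractionRing κ) (AlgebraicClosure (FractionRing κ))
  exact exists_cert F fun x hx => GCertA.zero_alg F h x hx

theorem gen_zero {k κ M : Type} [Field k] [Field κ] [Field M] [Algebra k κ] [Algebra κ M]
    {N d : ℕ} (hd : 1 ≤ d) (F : Tup N κ) (h : IsGen k d F)
    (x : Fin (N + 1) → M) (hx : app (mp (algebraMap κ M) F) x = 0) : x = 0 := by
  obtain ⟨c, e, hc, hC⟩ := gen_cert hd F h
  exact (hC.mp (algebraMap κ M)).eq_zero ((map_ne_zero _).2 hc) x hx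

theorem gen_alg {k κ M : Type} [Field k] [Field κ] [Field M] [Algebra k κ] [Algebra κ M]
    {N d : ℕ} (hd : 2 ≤ d) (F : Tup N κ) (h : IsGen k d F) (x : Fin (N + 1) → M)
    (hx : ∃ i, x i = 1) (a b : ℕ) (hab : a < b)
    (hp : Par ((app (mp (algebraMap κ M) F))^[a] x) ((app (mp (algebraMap κ M) F))^[b] x)) :
    ∀ i, IsAlgebraic κ (x i) := by
  obtain ⟨c, e, hc, hC⟩ := gen_cert (by omega) F h
  exact alg hd F h.hom c e hc hC x hx a b hab hp

end Pool.Agent.PNB
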