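import Mathlib
import Pool.Agent.PNB.Defs
import Pool.Agent.PNB.GCert

set_option autoImplicit false

/-!
# A generic form does not vanish at a preperiodic point of an independent generic tuple
-/

namespace Pool.Agent.PNB

open Pool.Agent.PNH

theorem beta {κ₂ κ' Λ k₂ : Type} [Field κ₂] [Field κ'] [Field Λ] [Field k₂] [Algebra k₂ κ₂]
    [Algebra κ₂ κ'] [Algebra κ' Λ] {N d : ℕ} (hd : 2 ≤ d) (φ : Tup N κ₂) (hφ : IsGen k₂ d φ)
    (P : MvPolynomial (Fin (N + 1)) κ') (hP : P.IsHomogeneous d)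
    (hb : AlgebraicIndependent κ₂
      (fun α : {α : Fin (N + 1) →₀ ℕ // α.degree = d} => P.coeff α.1))
    (y : Fin (N + 1) → Λ) (hy : y ≠ 0) (m n : ℕ) (hmn : m < n)
    (hp : Par ((app (mp (algebraMap κ' Λ) (mp (algebraMap κ₂ κ') φ)))^[m] y)
      ((app (mp (algebraMap κ' Λ) (mp (algebraMap κ₂ κ') φ)))^[n] y)) :
    MvPolynomial.eval y (MvPolynomial.map (algebraMap κ' Λ) P) ≠ 0 := by
  classical
  intro h0
  obtain ⟨j, hyj⟩ : ∃ j, y j ≠ 0 := by
    by_contra h
    exact hy (funext fun i => by_contra fun h1 => h ⟨i, h1⟩)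
  let := ((algebraMap κ' Λ).comp (algebraMap κ₂ κ')).toAlgebra
  have htower : IsScalarTower κ₂ κ' Λ := IsScalarTower.of_algebraMap_eq fun _ => rfl
  -- normalise
  set z : Fin (N + 1) → Λ := (y j)⁻¹ • y with hz
  have hzj : z j = 1 := by
    rw [hz, Pi.smul_apply, smul_eq_mul, inv_mul_cancel₀ hyj]
  have hmp : mp (algebraMap κ' Λ) (mp (algebraMap κ₂ κ') φ) = mp (algebraMap κ₂ Λ) φ := mp_mp _ _ _
  rw [hmp] at hp
  have hhom : ∀ i, (mp (algebraMap κ₂ Λ) φ i).IsHomogeneous d := hom_mp d _ φ hφ.hom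
  have hpz : Par ((app (mp (algebraMap κ₂ Λ) φ))^[m] z) ((app (mp (algebraMap κ₂ Λ) φ))^[n] z) := by
    rw [hz, iter_smul d _ hhom, iter_smul d _ hhom]
    exact Par.smul_right _ (Par.smul_left _ hp)
  have halg := gen_alg hd φ hφ z ⟨j, hzj⟩ m n hmn hpz
  -- the value at the normalised point
  have hPz : MvPolynomial.eval z (MvPolynomial.map (algebraMap κ' Λ) P) = 0 := by
    have h1 := app_smul d (fun _ : Fin (N + 1) => MvPolynomial.map (algebraMap κ' Λ) P)
      (fun _ => hP.map _) (y j)⁻¹ y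
    have h2 := congrFun h1 j
    change MvPolynomial.eval z (MvPolynomial.map (algebraMap κ' Λ) P) =
      (y j)⁻¹ ^ d * MvPolynomial.eval y (MvPolynomial.map (algebraMap κ' Λ) P) at h2
    rw [h2, h0, mul_zero]
  -- the coefficients are independent over `κ₂(z)`
  set E := IntermediateField.adjoin κ₂ (Set.range z) with hE
  have hEalg : Algebra.IsAlgebraic κ₂ E :=
    IntermediateField.isAlgebraic_adjoin (by
      rintro _ ⟨i, rfl⟩
      exact (halg i).isIntegral)
  have hb1 : AlgebraicIndependent κ₂ (fun α : {α : Fin (N + 1) →₀ ℕ // α.degree = d} =>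
      algebraMap κ' Λ (P.coeff α.1)) :=
    hb.map' (f := IsScalarTower.toAlgHom κ₂ κ' Λ) (algebraMap κ' Λ).injective
  have hb2 : AlgebraicIndependent E (fun α : {α : Fin (N + 1) →₀ ℕ // α.degree = d} =>
      algebraMap κ' Λ (P.coeff α.1)) := hb1.extendScalars E
  have hzE : ∀ i, z i ∈ E := fun i => IntermediateField.subset_adjoin _ _ ⟨i, rfl⟩
  have hdeg : ∀ α ∈ P.support, α.degree = d := by
    intro α hα
    by_contra h
    exact MvPolynomial.mem_support_iff.1 hα (hP.coeff_eq_zero h)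
  -- the linear relation
  let zE : Fin (N + 1) → E := fun i => ⟨z i, hzE i⟩
  set Q : MvPolynomial {α : Fin (N + 1) →₀ ℕ // α.degree = d} E :=
    ∑ α : P.support, MvPolynomial.C (∏ i, zE i ^ α.1 i) *
      MvPolynomial.X (⟨α.1, hdeg α.1 α.2⟩ : {α : Fin (N + 1) →₀ ℕ // α.degree = d}) with hQ
  have hQ0 : MvPolynomial.aeval (fun α : {α : Fin (N + 1) →₀ ℕ // α.degree = d} =>
      algebraMap κ' Λ (P.coeff α.1)) Q = 0 := by
    rw [hQ, map_sum, ← hPz, MvPolynomial.eval_map, MvPolynomial.eval₂_eq',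
      ← Finset.sum_coe_sort P.support]
    refine Finset.sum_congr rfl fun α _ => ?_
    rw [map_mul, MvPolynomial.aeval_X, MvPolynomial.aeval_C, mul_comm, map_prod]
    congr 1
  have hQ1 : Q = 0 := by
    refine hb2 ?_
    change MvPolynomial.aeval _ Q = MvPolynomial.aeval _ 0
    rw [hQ0, map_zero]
  -- the coefficient of `X_j ^ d`
  have hα₀ : (Finsupp.single j d).degree = d := by simp
  set α₀ : {α : Fin (N + 1) →₀ ℕ // α.degree = d} := ⟨Finsupp.single j d, hα₀⟩ with hα
  have hmem : Finsupp.single j d ∈ P.support := by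
    rw [MvPolynomial.mem_support_iff]
    exact hb.ne_zero α₀
  have hc : Q.coeff (Finsupp.single α₀ 1) = 1 := by
    rw [hQ, MvPolynomial.coeff_sum, Finset.sum_eq_single (⟨Finsupp.single j d, hmem⟩ : P.support)]
    · rw [MvPolynomial.coeff_C_mul, MvPolynomial.coeff_X, if_pos rfl, mul_one]
      rw [Finset.prod_eq_single j]
      · have h1 : zE j = 1 := Subtype.ext hzj
        rw [h1, one_pow]
      · intro i _ hi
        have h1 : Finsupp.single j d i = 0 := Finsupp.single_eq_of_ne (by tauto)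
        simp [h1]
      · intro h
        exact absurd (Finset.mem_univ _) h
    · intro α _ hne
      rw [MvPolynomial.coeff_C_mul, MvPolynomial.coeff_X, if_neg, mul_zero]
      intro h
      have h1 := Finsupp.single_left_injective one_ne_zero h
      exact hne (Subtype.ext (congrArg (fun a => a.1) h1))
    · intro h
      exact absurd (Finset.mem_univ _) h
  rw [hQ1, MvPolynomial.coeff_zero] at hc
  exact zero_ne_one hc

end Pool.Agent.PNB
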