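import Mathlib
import Pool.Agent.PNB.Defs
import Pool.Agent.PNH.Dyn

set_option autoImplicit false

/-!
# The contraction near the point where the coordinate `0` dominates
-/

namespace Pool.Agent.PNB

open Pool.Agent.PNH
open Pool.Agent.PNH.Dyn

namespace Con

variable {L Γ : Type} [Field L] [LinearOrderedCommGroupWithZero Γ] {N d : ℕ}

/-- The hypotheses on the coefficients. -/
structure Hyp (v : Valuation L Γ) (g : Γ) (d : ℕ) (F : Tup N L) : Prop where
  hg : 1 < g
  hd : 1 ≤ d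
  hF : ∀ i, (F i).IsHomogeneous d
  hc : v ((F 0).coeff (Finsupp.single 0 d)) = g
  hs : ∀ (i : Fin (N + 1)) (α : Fin (N + 1) →₀ ℕ), (i = 0 → α ≠ Finsupp.single 0 d) →
    v ((F i).coeff α) ≤ 1

variable {v : Valuation L Γ} {g : Γ} {F : Tup N L}

theorem Hyp.degree (H : Hyp v g d F) (i : Fin (N + 1)) (α : Fin (N + 1) →₀ ℕ)
    (h : α ∈ (F i).support) : α.degree = d := by
  by_contra h1
  exact MvPolynomial.mem_support_iff.1 h ((H.hF i).coeff_eq_zero h1)

theorem Hyp.g_pos (H : Hyp v g d F) : (0 : Γ) < g := zero_lt_one.trans H.hg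

theorem Hyp.eval_le (H : Hyp v g d F) (i : Fin (N + 1)) (hi : i ≠ 0) (y : Fin (N + 1) → L)
    (M : Γ) (h : ∀ k, v (y k) ≤ M) : v (app F y i) ≤ M ^ d := by
  unfold app
  rw [MvPolynomial.eval_eq']
  refine v.map_sum_le fun α hα => ?_
  rw [map_mul]
  have h1 := mono_le v y M h α
  rw [H.degree i α hα] at h1
  refine (mul_le_mul' (H.hs i α fun h0 => absurd h0 hi) h1).trans (le_of_eq (one_mul _))

/-- The term `c x_0^d` dominates. -/
theorem Hyp.eval_zero (H : Hyp v g d F) (y : Fin (N + 1) → L) (M : Γ) (h : ∀ k, v (y k) ≤ M)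
    (hM : M ^ d < g * v (y 0) ^ d) : v (app F y 0) = g * v (y 0) ^ d := by
  unfold app
  rw [MvPolynomial.eval_eq']
  have hmem : Finsupp.single 0 d ∈ (F 0).support := by
    rw [MvPolynomial.mem_support_iff, ← v.ne_zero_iff]
    have h2 := H.hc
    unfold MvPolynomial.coeff at h2 ⊢
    rw [h2]
    exact H.g_pos.ne'
  have hval : v ((F 0).coeff (Finsupp.single 0 d) *
      ∏ k, y k ^ (Finsupp.single (0 : Fin (N + 1)) d) k) = g * v (y 0) ^ d := by
    rw [map_mul, H.hc, prod_single, map_pow]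
  rw [← hval]
  refine v.map_sum_eq_of_lt hmem fun α hα => ?_
  rw [Finset.mem_sdiff, Finset.mem_singleton] at hα
  rw [hval, map_mul]
  have h2 := mono_le v y _ h α
  rw [H.degree 0 α hα.1] at h2
  refine (mul_le_mul' (H.hs 0 α fun _ => hα.2) h2).trans_lt ?_
  rw [one_mul]
  exact hM

/-- The coordinate `0` is maximal: then the image is in the region. -/
theorem Hyp.dom (H : Hyp v g d F) (y : Fin (N + 1) → L) (hy : y 0 ≠ 0)
    (h : ∀ k, v (y k) ≤ v (y 0)) :
    v (app F y 0) = g * v (y 0) ^ d ∧ InV v g (app F y) := by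
  have hy0 : (0 : Γ) < v (y 0) ^ d := zero_lt_iff.mpr (pow_ne_zero _ ((v.ne_zero_iff).mpr hy))
  have h1 : v (app F y 0) = g * v (y 0) ^ d :=
    H.eval_zero y _ h (lt_mul_of_one_lt_left hy0 H.hg)
  refine ⟨h1, ?_, fun i hi => ?_⟩
  · rw [← v.ne_zero_iff, h1]
    exact (mul_pos H.g_pos hy0).ne'
  · rw [h1]
    exact mul_le_mul_right (H.eval_le i hi y _ h) g

/-- The difference of two values. -/
theorem Hyp.sub_le (H : Hyp v g d F) (P ε : Γ) (X Y : Fin (N + 1) → L)
    (hX : ∀ k, v (X k) ≤ P) (hY : ∀ k, v (Y k) ≤ P) (h : ∀ k, v (X k - Y k) ≤ ε * P)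
    (h0 : X 0 = Y 0) (i : Fin (N + 1)) : v (app F X i - app F Y i) ≤ ε * P ^ d := by
  unfold app
  rw [MvPolynomial.eval_eq', MvPolynomial.eval_eq', ← Finset.sum_sub_distrib]
  refine v.map_sum_le fun α hα => ?_
  rw [← mul_sub, map_mul]
  by_cases h1 : i = 0 → α ≠ Finsupp.single 0 d
  · have h2 := prod_sub_le v P ε X Y hX hY h α Finset.univ
    rw [← Finsupp.degree_eq_sum, H.degree i α hα] at h2
    exact (mul_le_mul' (H.hs i α h1) h2).trans (le_of_eq (one_mul _))
  · push Not at h1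
    rw [h1.2, prod_single, prod_single, h0, sub_self, map_zero, mul_zero]
    exact zero_le

/-- The map contracts the region. -/
theorem Hyp.contr (H : Hyp v g d F) (ε : Γ) (x y : Fin (N + 1) → L) (hx : InV v g x)
    (hy : InV v g y) (h : ∀ i, v (x i * y 0 - x 0 * y i) ≤ ε * (v (x 0) * v (y 0))) (i) :
    v (app F x i * app F y 0 - app F x 0 * app F y i) * g ≤
      ε * (v (app F x 0) * v (app F y 0)) := by
  have hx1 := (H.dom x hx.1 (hx.le H.hg)).1
  have hy1 := (H.dom y hy.1 (hy.le H.hg)).1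
  by_cases hi : i = 0
  · rw [hi, mul_comm (app F x 0), sub_self, map_zero, zero_mul]
    exact zero_le
  obtain ⟨P, hP⟩ : ∃ P, v (x 0) * v (y 0) = P := ⟨_, rfl⟩
  have hP0 : (0 : Γ) < P := by
    rw [← hP]
    exact mul_pos (zero_lt_iff.mpr ((v.ne_zero_iff).mpr hx.1))
      (zero_lt_iff.mpr ((v.ne_zero_iff).mpr hy.1))
  have hX : app F (y 0 • x) = y 0 ^ d • app F x := app_smul d F H.hF _ _
  have hY : app F (x 0 • y) = x 0 ^ d • app F y := app_smul d F H.hF _ _
  have bX : ∀ k, v ((y 0 • x) k) ≤ P := by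
    intro k
    rw [Pi.smul_apply, smul_eq_mul, map_mul, ← hP, mul_comm]
    exact mul_le_mul_left (hx.le H.hg k) _
  have bY : ∀ k, v ((x 0 • y) k) ≤ P := by
    intro k
    rw [Pi.smul_apply, smul_eq_mul, map_mul, ← hP]
    exact mul_le_mul_right (hy.le H.hg k) _
  have bXY : ∀ k, v ((y 0 • x) k - (x 0 • y) k) ≤ ε * P := by
    intro k
    rw [Pi.smul_apply, Pi.smul_apply, smul_eq_mul, smul_eq_mul, mul_comm (y 0), ← hP]
    exact h k
  have e0 : (y 0 • x) 0 = (x 0 • y) 0 := by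
    simp only [Pi.smul_apply, smul_eq_mul]
    ring
  have h1 := H.sub_le P ε _ _ bX bY bXY e0 i
  have h2 := H.sub_le P ε _ _ bX bY bXY e0 0
  have h3 := H.eval_le i hi (x 0 • y) P bY
  have h4 : v (app F (x 0 • y) 0) = g * P ^ d := by
    rw [hY, Pi.smul_apply, smul_eq_mul, map_mul, map_pow, hy1, ← hP, mul_pow]
    rw [mul_left_comm]
  have e1 : (x 0 * y 0) ^ d * (app F x i * app F y 0 - app F x 0 * app F y i) =
      (app F (y 0 • x) i - app F (x 0 • y) i) * app F (x 0 • y) 0 -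
        app F (x 0 • y) i * (app F (y 0 • x) 0 - app F (x 0 • y) 0) := by
    rw [hX, hY]
    simp only [Pi.smul_apply, smul_eq_mul]
    ring
  have h5 : v ((x 0 * y 0) ^ d * (app F x i * app F y 0 - app F x 0 * app F y i)) ≤
      g * (ε * P ^ d * P ^ d) := by
    rw [e1]
    refine (v.map_sub _ _).trans (max_le ?_ ?_)
    · rw [map_mul, h4]
      refine (mul_le_mul_left h1 _).trans (le_of_eq ?_)
      simp only [mul_assoc, mul_comm, mul_left_comm]
    · rw [map_mul]
      refine (mul_le_mul' h3 h2).trans ?_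
      have h6 : P ^ d * (ε * P ^ d) = ε * P ^ d * P ^ d := by
        simp only [mul_comm, mul_left_comm]
      rw [h6]
      exact le_mul_of_one_le_left' H.hg.le
  have h7 : v ((x 0 * y 0) ^ d) = P ^ d := by rw [map_pow, map_mul, hP]
  rw [map_mul, h7] at h5
  have h8 : v (app F x i * app F y 0 - app F x 0 * app F y i) ≤ g * (ε * P ^ d) := by
    refine le_of_mul_le_mul_left (a := P ^ d) ?_ (pow_pos hP0 d)
    refine h5.trans (le_of_eq ?_)
    simp only [mul_assoc, mul_comm, mul_left_comm]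
  refine (mul_le_mul_left h8 g).trans (le_of_eq ?_)
  rw [hx1, hy1, ← hP, mul_pow]
  simp only [mul_assoc, mul_comm, mul_left_comm]

theorem Hyp.iter_mem (H : Hyp v g d F) (x : Fin (N + 1) → L) (hx : InV v g x) (n : ℕ) :
    InV v g ((app F)^[n] x) := by
  induction n with
  | zero => exact hx
  | succ n ih =>
    rw [Function.iterate_succ_apply']
    exact (H.dom _ ih.1 (ih.le H.hg)).2

theorem Hyp.contr_iter (H : Hyp v g d F) (ε : Γ) (x y : Fin (N + 1) → L) (hx : InV v g x)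
    (hy : InV v g y) (h : ∀ i, v (x i * y 0 - x 0 * y i) ≤ ε * (v (x 0) * v (y 0))) (n : ℕ) :
    ∀ i, v ((app F)^[n] x i * (app F)^[n] y 0 - (app F)^[n] x 0 * (app F)^[n] y i) * g ^ n ≤
      ε * (v ((app F)^[n] x 0) * v ((app F)^[n] y 0)) := by
  induction n with
  | zero =>
    intro i
    simpa using h i
  | succ n ih =>
    intro i
    have hgn : (0 : Γ) < g ^ n := gE_pos H.hg n
    have h1 := H.contr (ε * (g ^ n)⁻¹) ((app F)^[n] x) ((app F)^[n] y) (H.iter_mem x hx n)
      (H.iter_mem y hy n) (fun i => by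
        refine le_of_mul_le_mul_right ((ih i).trans (le_of_eq ?_)) hgn
        rw [mul_right_comm ε, mul_assoc _ (g ^ n)⁻¹, inv_mul_cancel₀ hgn.ne', mul_one]) i
    simp only [Function.iterate_succ_apply']
    rw [pow_succ, ← mul_assoc, mul_right_comm]
    refine (mul_le_mul_left h1 _).trans (le_of_eq ?_)
    rw [mul_right_comm ε, mul_assoc _ (g ^ n)⁻¹, inv_mul_cancel₀ hgn.ne', mul_one]

/-- A periodic point of the region is fixed. -/
theorem Hyp.fix (H : Hyp v g d F) (x : Fin (N + 1) → L) (hx : InV v g x) (n : ℕ) (hn : 1 ≤ n)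
    (hp : Par ((app F)^[n] x) x) : Par (app F x) x := by
  have hy : InV v g (app F x) := H.iter_mem x hx 1
  have hvx : (0 : Γ) < v (x 0) := zero_lt_iff.mpr ((v.ne_zero_iff).mpr hx.1)
  have hvy : (0 : Γ) < v (app F x 0) := zero_lt_iff.mpr ((v.ne_zero_iff).mpr hy.1)
  obtain ⟨i0, hi0⟩ := Finite.exists_max fun i => v (x i * app F x 0 - x 0 * app F x i)
  by_cases h0 : x i0 * app F x 0 - x 0 * app F x i0 = 0
  · have hall : ∀ i, x i * app F x 0 = x 0 * app F x i := by
      intro i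
      have h1 := hi0 i
      simp only [h0, map_zero] at h1
      have h2 : v (x i * app F x 0 - x 0 * app F x i) = 0 := le_antisymm h1 zero_le
      exact sub_eq_zero.1 ((map_eq_zero v).1 h2)
    intro i j
    refine mul_left_cancel₀ hx.1 ?_
    linear_combination x i * hall j - x j * hall i
  · exfalso
    obtain ⟨c, hc⟩ := hp.symm.exists_smul (fun h => hx.1 (by rw [h]; rfl))
    have hc0 : c ≠ 0 := by
      intro h
      have h1 := (H.iter_mem x hx n).1
      rw [hc, h, zero_smul] at h1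
      exact h1 rfl
    have hcy : (app F)^[n] (app F x) = c ^ d • app F x := by
      rw [← Function.iterate_succ_apply, Function.iterate_succ_apply', hc, app_smul d F H.hF]
    have hP : (0 : Γ) < v (x 0) * v (app F x 0) := mul_pos hvx hvy
    have h1 := H.contr_iter
      (v (x i0 * app F x 0 - x 0 * app F x i0) * (v (x 0) * v (app F x 0))⁻¹) x (app F x) hx hy
      (fun i => by
        rw [mul_assoc, inv_mul_cancel₀ hP.ne', mul_one]
        exact hi0 i) n i0
    rw [hc, hcy] at h1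
    simp only [Pi.smul_apply, smul_eq_mul] at h1
    have e1 : c * x i0 * (c ^ d * app F x 0) - c * x 0 * (c ^ d * app F x i0) =
        c ^ (d + 1) * (x i0 * app F x 0 - x 0 * app F x i0) := by ring
    have e2 : v (c * x 0) * v (c ^ d * app F x 0) =
        v (c ^ (d + 1)) * (v (x 0) * v (app F x 0)) := by
      rw [← map_mul, ← map_mul, ← map_mul]
      congr 1
      ring
    rw [e1, e2, mul_left_comm _ (v (c ^ (d + 1))), mul_assoc _ _ (v (x 0) * v (app F x 0)),
      inv_mul_cancel₀ hP.ne', mul_one, map_mul] at h1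
    have h2 : (0 : Γ) < v (c ^ (d + 1)) * v (x i0 * app F x 0 - x 0 * app F x i0) :=
      mul_pos (zero_lt_iff.mpr ((v.ne_zero_iff).mpr (pow_ne_zero _ hc0)))
        (zero_lt_iff.mpr ((v.ne_zero_iff).mpr h0))
    have h3 : g ^ n ≤ 1 := by
      refine le_of_mul_le_mul_left (a := v (c ^ (d + 1)) *
        v (x i0 * app F x 0 - x 0 * app F x i0)) ?_ h2
      rw [mul_one]
      exact h1
    exact absurd h3 (not_le.2 (one_lt_pow₀ H.hg (by omega)))

/-- A big point: the coordinate `0` of the image is strictly maximal. -/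
theorem Hyp.big (H : Hyp v g d F) (x : Fin (N + 1) → L)
    (hbig : ∀ j, v (x j) ^ d < g * v (x 0) ^ d) :
    app F x 0 ≠ 0 ∧ ∀ j, v (app F x j) ≤ v (app F x 0) := by
  obtain ⟨j0, hj0⟩ := Finite.exists_max fun i => v (x i)
  have h0 := H.eval_zero x (v (x j0)) hj0 (hbig j0)
  have hpos : (0 : Γ) < g * v (x 0) ^ d := lt_of_le_of_lt zero_le (hbig 0)
  refine ⟨?_, fun j => ?_⟩
  · rw [← v.ne_zero_iff, h0]
    exact hpos.ne'
  · by_cases hj : j = 0
    · rw [hj]
    · rw [h0]
      exact (H.eval_le j hj x _ hj0).trans (hbig j0).le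

end Con

theorem big_step {L Γ : Type} [Field L] [LinearOrderedCommGroupWithZero Γ]
    (v : Valuation L Γ) (g : Γ) (hg : 1 < g) {N d : ℕ} (hd : 1 ≤ d) (F : Tup N L)
    (hF : ∀ i, (F i).IsHomogeneous d) (hc : v ((F 0).coeff (Finsupp.single 0 d)) = g)
    (hs : ∀ (i : Fin (N + 1)) (α : Fin (N + 1) →₀ ℕ), (i = 0 → α ≠ Finsupp.single 0 d) →
      v ((F i).coeff α) ≤ 1)
    (x : Fin (N + 1) → L) (hbig : ∀ j, v (x j) ^ d < g * v (x 0) ^ d) :
    ∀ j, v (app F x j) ^ d < g * v (app F x 0) ^ d := by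
  have H : Con.Hyp v g d F := ⟨hg, hd, hF, hc, hs⟩
  obtain ⟨h0, h1⟩ := H.big x hbig
  intro j
  have hpos : (0 : Γ) < v (app F x 0) ^ d :=
    zero_lt_iff.mpr (pow_ne_zero _ ((v.ne_zero_iff).mpr h0))
  exact (pow_le_pow_left' (h1 j) d).trans_lt (lt_mul_of_one_lt_left hpos hg)

theorem fixed_of_big {L Γ : Type} [Field L] [LinearOrderedCommGroupWithZero Γ]
    (v : Valuation L Γ) (g : Γ) (hg : 1 < g) {N d : ℕ} (hd : 1 ≤ d) (F : Tup N L)
    (hF : ∀ i, (F i).IsHomogeneous d) (hc : v ((F 0).coeff (Finsupp.single 0 d)) = g)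
    (hs : ∀ (i : Fin (N + 1)) (α : Fin (N + 1) →₀ ℕ), (i = 0 → α ≠ Finsupp.single 0 d) →
      v ((F i).coeff α) ≤ 1)
    (x : Fin (N + 1) → L) (hbig : ∀ j, v (x j) ^ d < g * v (x 0) ^ d) (n : ℕ) (hn : 1 ≤ n)
    (hp : Par ((app F)^[n] x) x) : Par (app F x) x := by
  have H : Con.Hyp v g d F := ⟨hg, hd, hF, hc, hs⟩
  obtain ⟨h0, h1⟩ := H.big x hbig
  have h2 : InV v g ((app F)^[2] x) := (H.dom _ h0 h1).2
  have hx : x ≠ 0 := by
    rintro rfl
    have h3 := hbig 0
    simp only [Pi.zero_apply, map_zero, zero_pow (show d ≠ 0 by omega), mul_zero] at h3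
    exact lt_irrefl _ h3
  obtain ⟨c, hc'⟩ := iter_par hF x hx n hp 2
  have h3 : InV v g ((app F)^[n * 2] x) := by
    have h4 := H.iter_mem _ h2 (n * 2 - 2)
    rwa [← Function.iterate_add_apply, Nat.sub_add_cancel (by omega)] at h4
  rw [hc'] at h3
  exact H.fix x h3.of_smul n hn hp

end Pool.Agent.PNB
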