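import Mathlib
import Pool.Agent.PNH.EF

set_option autoImplicit false
set_option linter.unusedVariables false

/-!
# Ramification and residue degree for a valuation
-/

namespace Pool.Agent.PNB

theorem ef {κ' κ L Γ : Type} [Field κ'] [Field κ] [Field L] [Algebra κ' κ] [Algebra κ L]
    [FiniteDimensional κ L] [LinearOrderedCommGroupWithZero Γ] (v : Valuation L Γ) (c : κ)
    (hc : IntermediateField.adjoin κ' {c} = ⊤) (hc1 : 1 < v (algebraMap κ L c))
    (hk : ∀ a : κ', a ≠ 0 → v (algebraMap κ L (algebraMap κ' κ a)) = 1) (d : ℕ) (hd : 1 ≤ d)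
    (t : L) (ht : v t ^ d * v (algebraMap κ L c) = 1) (f : ℕ) (u : Fin f → L)
    (hu : ∀ b : Fin f → κ', b ≠ 0 →
      v (∑ j, algebraMap κ L (algebraMap κ' κ (b j)) * u j) = 1) :
    d * f ≤ Module.finrank κ L := by
  classical
  let _ : Algebra κ' L := ((algebraMap κ L).comp (algebraMap κ' κ)).toAlgebra
  have _ : IsScalarTower κ' κ L := IsScalarTower.of_algebraMap_eq fun _ => rfl
  have heq : v.IsEquiv v.valuationSubring.valuation := v.isEquiv_valuation_valuationSubring
  have h1 : ∀ x : L, v.valuationSubring.valuation x = 1 ↔ v x = 1 := fun x =>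
    heq.eq_one_iff_eq_one.symm
  have hmem : ∀ x : L, x ∈ v.valuationSubring ↔ v x ≤ 1 := fun x => v.mem_valuationSubring_iff x
  refine Pool.Agent.PNH.ef (A := κ') c hc v.valuationSubring (fun a => ?_) ?_ t ?_ u (fun j => ?_)
    (fun α hα => ?_)
  · rw [hmem]
    by_cases ha : a = 0
    · rw [ha, map_zero, map_zero]
      exact zero_le
    · exact (hk a ha).le
  · rw [hmem, not_le]
    exact hc1
  · rw [h1, map_mul, map_pow, mul_comm]
    exact ht
  · refine (v.valuationSubring.valuation_le_one_iff _).2 ((hmem _).2 ?_)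
    have h2 := hu (Pi.single j 1) (by
      intro h0
      have h3 := congrFun h0 j
      rw [Pi.single_eq_same] at h3
      exact one_ne_zero h3)
    rw [Finset.sum_eq_single j, Pi.single_eq_same, map_one, map_one, one_mul] at h2
    · exact h2.le
    · intro i _ hi
      rw [Pi.single_eq_of_ne hi, map_zero, map_zero, zero_mul]
    · intro h
      exact absurd (Finset.mem_univ _) h
  · rw [h1]
    obtain ⟨j, hj⟩ := hα
    exact hu α fun h0 => hj (by rw [h0]; rfl)

end Pool.Agent.PNB
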