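import Mathlib
import Pool.Agent.PNB.Defs
import Pool.Agent.PNB.Wt
import Pool.Agent.PNH.GFix
import Pool.Agent.LIM.ExDeg

set_option autoImplicit false

/-!
# Fixed points of the generic tuple of forms
-/

namespace Pool.Agent.PNB

open Pool.Agent.PNH

/-- A fixed point of the generic tuple of forms has degree at least `1 + d + ⋯ + d ^ N`. -/
theorem fix_deg_pos {k κ L : Type} [Field k] [Field κ] [Field L] [Algebra k κ] [Algebra κ L]
    [FiniteDimensional κ L] {N d : ℕ} (hN : 1 ≤ N) (hd : 2 ≤ d) (F : Tup N κ) (h : IsGen k d F)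
    (x : Fin (N + 1) → L) (hx : x ≠ 0) (hp : Par (app (mp (algebraMap κ L) F) x) x) :
    ∑ i ∈ Finset.range (N + 1), d ^ i ≤ Module.finrank κ L := by
  classical
  obtain ⟨w, hw⟩ : ∃ w : Ix N d → ℕ, w = fun p =>
      if p.2.1 = Finsupp.single (p.1 - 1) d then (if p.1 = 0 then 3 else 2) else 0 := ⟨_, rfl⟩
  obtain ⟨Γ, hΓ, v, g, hg, hva, hk, -⟩ := exists_wt (M := L) (co d F) h.ind h.top w
  have hco : ∀ (i : Fin (N + 1)) (m : Fin (N + 1) →₀ ℕ) (hm : m.degree = d),
      v ((mp (algebraMap κ L) F i).coeff m) = g ^ w (i, ⟨m, hm⟩) := by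
    intro i m hm
    unfold mp
    rw [MvPolynomial.coeff_map]
    exact hva (i, ⟨m, hm⟩)
  have hhom : ∀ i, (mp (algebraMap κ L) F i).IsHomogeneous d := hom_mp d _ F h.hom
  obtain ⟨-, -, hv⟩ := fix_val v g hg hN hd (B := 2) le_rfl (mp (algebraMap κ L) F) hhom
    (fun i => by
      have hm : (Finsupp.single (i - 1) d : Fin (N + 1) →₀ ℕ).degree = d :=
        Finsupp.degree_single _ _
      rw [hco i _ hm, hw]
      simp only [if_true]
      split_ifs <;> rfl)
    (fun i m hm => by
      by_cases hd' : m.degree = d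
      · rw [hco i m hd', hw]
        simp only [hm, if_false, pow_zero, le_refl]
      · have h0 : (mp (algebraMap κ L) F i).coeff m = 0 := by
          by_contra hne
          refine hd' ?_
          have := hhom i hne
          rwa [Finsupp.degree_eq_weight_one]
        rw [h0, map_zero]
        exact zero_le)
    x hx hp
  have h1 : 1 ≤ ∑ i ∈ Finset.range (N + 1), d ^ i := by
    rw [Finset.sum_range_succ', pow_zero]
    omega
  exact (Pool.Agent.LIM.Ex.deg_le v g hg hk _ _ h1 hv).trans (minpoly.natDegree_le _)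

/-- A fixed point of the generic tuple of forms has degree at least `1 + d + ⋯ + d ^ N`. -/
theorem fix_deg {k κ L : Type} [Field k] [Field κ] [Field L] [Algebra k κ] [Algebra κ L]
    [FiniteDimensional κ L] {N d : ℕ} (hd : 2 ≤ d) (F : Tup N κ) (h : IsGen k d F)
    (x : Fin (N + 1) → L) (hx : x ≠ 0) (hp : Par (app (mp (algebraMap κ L) F) x) x) :
    ∑ l ∈ Finset.range (N + 1), d ^ l ≤ Module.finrank κ L := by
  rcases Nat.eq_zero_or_pos N with rfl | hN
  · rw [Finset.sum_range_one, pow_zero]
    exact Module.finrank_pos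
  · exact fix_deg_pos hN hd F h x hx hp

end Pool.Agent.PNB
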