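import Mathlib
import Pool.Agent.PNB.Defs

set_option autoImplicit false

/-!
# Splitting the coefficients of the generic tuple
-/

namespace Pool.Agent.PNB

open Pool.Agent.PNH

namespace IdxA

section tower

variable {k κ ι τ : Type} [Field k] [Field κ] [Algebra k κ]

/-- The field generated by the `a i` with `i` in `S`. -/
abbrev fld (k : Type) {κ ι : Type} [Field k] [Field κ] [Algebra k κ] (a : ι → κ) (S : Set ι) :
    IntermediateField k κ :=
  IntermediateField.adjoin k (a '' S)

theorem mem_fld (a : ι → κ) {S : Set ι} {i : ι} (hi : i ∈ S) : a i ∈ fld k a S :=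
  IntermediateField.subset_adjoin _ _ ⟨i, hi, rfl⟩

theorem fld_mono (a : ι → κ) {S T : Set ι} (h : S ⊆ T) : fld k a S ≤ fld k a T :=
  IntermediateField.adjoin.mono k _ _ (Set.image_mono h)

/-- The inclusion as an algebra structure. -/
@[reducible] noncomputable def alg (a : ι → κ) {S T : Set ι} (h : S ⊆ T) :
    Algebra (fld k a S) (fld k a T) :=
  (IntermediateField.inclusion (fld_mono (k := k) a h)).toRingHom.toAlgebra

theorem indep (a : ι → κ) (h : AlgebraicIndependent k a) (S : Set ι) (e : τ → ι)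
    (he : Function.Injective e) (hd : ∀ t, e t ∉ S) :
    AlgebraicIndependent (fld k a S) (fun t => a (e t)) := by
  rw [IntermediateField.algebraicIndependent_adjoin_iff]
  have h1 := h.adjoin_of_disjoint (s := S) (t := Set.range e) (by
    rw [Set.disjoint_left]
    rintro i hi ⟨t, rfl⟩
    exact hd t hi)
  exact h1.comp (fun t : τ => (⟨e t, t, rfl⟩ : Set.range e))
    (fun s t hst => he (congrArg Subtype.val hst))

theorem indepB (a : ι → κ) (h : AlgebraicIndependent k a) {S S' : Set ι} (hS : S ⊆ S')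
    (e : τ → ι) (he : Function.Injective e) (hd : ∀ t, e t ∉ S) (y : τ → fld k a S')
    (hy : ∀ t, (y t : κ) = a (e t)) :
    let _ := alg (k := k) a hS
    AlgebraicIndependent (fld k a S) y := by
  let _ := alg (k := k) a hS
  let f : fld k a S' →ₐ[fld k a S] κ :=
    { (fld k a S').val.toRingHom with commutes' := fun _ => rfl }
  refine AlgebraicIndependent.of_comp f ?_
  have h1 := indep a h S e he hd
  have h2 : (f ∘ y) = fun t => a (e t) := funext fun t => hy t
  rw [h2]
  exact h1

theorem topB (a : ι → κ) {S S' : Set ι} (hS : S ⊆ S') (e : τ → ι)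
    (hS' : ∀ i ∈ S', i ∈ S ∨ ∃ t, e t = i) (y : τ → fld k a S')
    (hy : ∀ t, (y t : κ) = a (e t)) :
    let _ := alg (k := k) a hS
    IntermediateField.adjoin (fld k a S) (Set.range y) = ⊤ := by
  let _ := alg (k := k) a hS
  rw [eq_top_iff]
  rintro ⟨x, hx⟩ -
  induction hx using IntermediateField.adjoin_induction with
  | mem x hx =>
    obtain ⟨i, hi, rfl⟩ := hx
    rcases hS' i hi with h | ⟨t, rfl⟩
    · exact IntermediateField.algebraMap_mem _ (⟨a i, mem_fld a h⟩ : fld k a S)
    · have : (⟨a (e t), mem_fld a hi⟩ : fld k a S') = y t := Subtype.ext (hy t).symm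
      have h2 : y t ∈ IntermediateField.adjoin (fld k a S) (Set.range y) :=
        IntermediateField.subset_adjoin _ _ ⟨t, rfl⟩
      rw [← this] at h2
      exact h2
  | algebraMap x =>
    exact IntermediateField.algebraMap_mem _ (algebraMap k (fld k a S) x)
  | add x y hx hy h1 h2 => exact add_mem h1 h2
  | inv x hx h1 => exact inv_mem h1
  | mul x y hx hy h1 h2 => exact mul_mem h1 h2

theorem topK (a : ι → κ) (ht : IntermediateField.adjoin k (Set.range a) = ⊤) (S : Set ι)
    (c : ι) (hS : ∀ i, i ∈ S ∨ i = c) : IntermediateField.adjoin (fld k a S) {a c} = ⊤ := by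
  rw [eq_top_iff]
  intro x _
  have hx : x ∈ IntermediateField.adjoin k (Set.range a) := by
    rw [ht]
    exact IntermediateField.mem_top
  induction hx using IntermediateField.adjoin_induction with
  | mem x hx =>
    obtain ⟨i, rfl⟩ := hx
    rcases hS i with h | rfl
    · exact IntermediateField.algebraMap_mem _ (⟨a i, mem_fld a h⟩ : fld k a S)
    · exact IntermediateField.subset_adjoin _ _ rfl
  | algebraMap x =>
    exact IntermediateField.algebraMap_mem _ (algebraMap k (fld k a S) x)
  | add x y hx hy h1 h2 => exact add_mem (h1 trivial) (h2 trivial)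
  | inv x hx h1 => exact inv_mem (h1 trivial)
  | mul x y hx hy h1 h2 => exact mul_mem (h1 trivial) (h2 trivial)

/-- A homogeneous polynomial whose coefficients of degree `d` lie in a subfield comes from the
subfield. -/
theorem exists_poly {σ : Type} {d : ℕ} (B : IntermediateField k κ) (P : MvPolynomial σ κ)
    (hP : P.IsHomogeneous d) (h : ∀ α : σ →₀ ℕ, α.degree = d → P.coeff α ∈ B) :
    ∃ Q : MvPolynomial σ B, Q.IsHomogeneous d ∧ MvPolynomial.map (algebraMap B κ) Q = P := by
  have h1 : P ∈ Set.range (MvPolynomial.map (σ := σ) (algebraMap B κ)) := by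
    rw [MvPolynomial.mem_range_map_iff_coeffs_subset]
    intro z hz
    obtain ⟨α, hα, rfl⟩ := MvPolynomial.mem_coeffs_iff.1 hz
    have hd : α.degree = d := by
      by_contra h0
      exact MvPolynomial.mem_support_iff.1 hα (hP.coeff_eq_zero h0)
    exact ⟨⟨_, h α hd⟩, rfl⟩
  obtain ⟨Q, hQ⟩ := h1
  refine ⟨Q, ?_, hQ⟩
  refine MvPolynomial.IsHomogeneous.of_map (algebraMap B κ).injective ?_
  rw [hQ]
  exact hP

end tower

section index

variable {N d : ℕ}

/-- The coefficient of `X_0 ^ d` in the form number `0`. -/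
noncomputable def ic (N d : ℕ) : Ix (N + 1) d := (0, ⟨Finsupp.single 0 d, Finsupp.degree_single 0 d⟩)

theorem degree_cons (α : Fin (N + 1) →₀ ℕ) :
    (Finsupp.cons 0 α : Fin (N + 1 + 1) →₀ ℕ).degree = α.degree := by
  rw [Finsupp.degree_eq_sum, Finsupp.degree_eq_sum, Fin.sum_univ_succ, Finsupp.cons_zero, zero_add]
  exact Finset.sum_congr rfl fun i _ => Finsupp.cons_succ i 0 α

/-- The coefficients of the restriction of the forms number `1, …, N + 1` to `x_0 = 0`. -/
noncomputable def lo (N d : ℕ) (p : Ix N d) : Ix (N + 1) d :=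
  (p.1.succ, ⟨Finsupp.cons 0 p.2.1, (degree_cons p.2.1).trans p.2.2⟩)

/-- The coefficients of the restriction of the form number `0` to `x_0 = 0`. -/
noncomputable def be (N d : ℕ) (α : {α : Fin (N + 1) →₀ ℕ // α.degree = d}) : Ix (N + 1) d :=
  (0, ⟨Finsupp.cons 0 α.1, (degree_cons α.1).trans α.2⟩)

theorem cons_inj {α β : Fin (N + 1) →₀ ℕ}
    (h : (Finsupp.cons 0 α : Fin (N + 1 + 1) →₀ ℕ) = Finsupp.cons 0 β) : α = β := by
  rw [← Finsupp.tail_cons 0 α, h, Finsupp.tail_cons]

theorem lo_inj : Function.Injective (lo N d) := by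
  rintro ⟨i, α, hα⟩ ⟨j, β, hβ⟩ h
  have h1 : i.succ = j.succ := congrArg Prod.fst h
  have h2 : (Finsupp.cons 0 α : Fin (N + 1 + 1) →₀ ℕ) = Finsupp.cons 0 β :=
    congrArg Subtype.val (congrArg Prod.snd h)
  have h3 := Fin.succ_injective _ h1
  have h4 := cons_inj h2
  subst h3 h4
  rfl

theorem be_inj : Function.Injective (be N d) := by
  rintro ⟨α, hα⟩ ⟨β, hβ⟩ h
  have h2 : (Finsupp.cons 0 α : Fin (N + 1 + 1) →₀ ℕ) = Finsupp.cons 0 β :=
    congrArg Subtype.val (congrArg Prod.snd h)
  exact Subtype.ext (cons_inj h2)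

theorem lo_ne_be (p : Ix N d) (α : {α : Fin (N + 1) →₀ ℕ // α.degree = d}) :
    lo N d p ≠ be N d α := fun h => Fin.succ_ne_zero p.1 (congrArg Prod.fst h)

theorem lo_ne_ic (p : Ix N d) : lo N d p ≠ ic N d :=
  fun h => Fin.succ_ne_zero p.1 (congrArg Prod.fst h)

theorem be_ne_ic (hd : 1 ≤ d) (α : {α : Fin (N + 1) →₀ ℕ // α.degree = d}) :
    be N d α ≠ ic N d := by
  intro h
  have h2 : (Finsupp.cons 0 α.1 : Fin (N + 1 + 1) →₀ ℕ) = Finsupp.single 0 d :=
    congrArg Subtype.val (congrArg Prod.snd h)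
  have h3 := DFunLike.congr_fun h2 0
  rw [Finsupp.cons_zero, Finsupp.single_eq_same] at h3
  omega

end index

end IdxA

open IdxA in
theorem split {k κ : Type} [Field k] [Field κ] [Algebra k κ] {N d : ℕ} (hd : 1 ≤ d)
    (F : Tup (N + 1) κ) (h : IsGen k d F) :
    ∃ (k₁ κ' : Type) (_ : Field k₁) (_ : Field κ') (_ : Algebra k₁ κ') (_ : Algebra κ' κ)
      (G : Tup (N + 1) κ'), (∀ i, (G i).IsHomogeneous d) ∧
      F = addc d ((F 0).coeff (Finsupp.single 0 d)) (mp (algebraMap κ' κ) G) ∧
      IsGen k₁ d (low G) ∧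
      AlgebraicIndependent κ' (fun _ : Unit => (F 0).coeff (Finsupp.single 0 d)) ∧
      IntermediateField.adjoin κ' {(F 0).coeff (Finsupp.single 0 d)} = ⊤ ∧
      ∃ (k₂ κ₂ : Type) (_ : Field k₂) (_ : Field κ₂) (_ : Algebra k₂ κ₂)
        (_ : Algebra κ₂ κ') (φ : Tup N κ₂),
        IsGen k₂ d φ ∧ mp (algebraMap κ₂ κ') φ = low G ∧
        AlgebraicIndependent κ₂ (fun α : {α : Fin (N + 1) →₀ ℕ // α.degree = d} =>
          (res (G 0)).coeff α.1) ∧
        IntermediateField.adjoin κ₂ (Set.range fun α : {α : Fin (N + 1) →₀ ℕ // α.degree = d} =>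
          (res (G 0)).coeff α.1) = ⊤ := by
  classical
  set a : Ix (N + 1) d → κ := co d F with ha
  -- the sets of indices
  let S₀ : Set (Ix (N + 1) d) := {ic N d}ᶜ
  let S₁ : Set (Ix (N + 1) d) := {i | i ≠ ic N d ∧ i ∉ Set.range (lo N d)}
  let S₂ : Set (Ix (N + 1) d) := {i | i ≠ ic N d ∧ i ∉ Set.range (be N d)}
  let S₃ : Set (Ix (N + 1) d) :=
    {i | i ≠ ic N d ∧ i ∉ Set.range (be N d) ∧ i ∉ Set.range (lo N d)}
  have h10 : S₁ ⊆ S₀ := fun i hi => hi.1
  have h20 : S₂ ⊆ S₀ := fun i hi => hi.1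
  have h32 : S₃ ⊆ S₂ := fun i hi => ⟨hi.1, hi.2.1⟩
  -- the tuple over `κ'`
  have hmem : ∀ (i : Fin (N + 1 + 1)) (α : Fin (N + 1 + 1) →₀ ℕ) (hα : α.degree = d),
      (F i).coeff α = a (i, ⟨α, hα⟩) := fun i α hα => rfl
  set c := (F 0).coeff (Finsupp.single 0 d) with hc
  have hc' : c = a (ic N d) := rfl
  have hF₀ : ∀ i : Fin (N + 1 + 1), ∃ Q : MvPolynomial (Fin (N + 1 + 1)) (fld k a S₀),
      Q.IsHomogeneous d ∧ MvPolynomial.map (algebraMap (fld k a S₀) κ) Q =
        F i - if i = 0 then MvPolynomial.C c * MvPolynomial.X 0 ^ d else 0 := by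
    intro i
    refine exists_poly (fld k a S₀) _ ?_ ?_
    · refine (h.hom i).sub ?_
      split_ifs
      · have := (MvPolynomial.isHomogeneous_C (Fin (N + 1 + 1)) c).mul
          (MvPolynomial.isHomogeneous_X_pow (R := κ) (0 : Fin (N + 1 + 1)) d)
        rwa [zero_add] at this
      · exact MvPolynomial.isHomogeneous_zero _ _ _
    · intro α hα
      rw [MvPolynomial.coeff_sub]
      by_cases hi : i = 0
      · rw [if_pos hi, MvPolynomial.coeff_C_mul, MvPolynomial.coeff_X_pow]
        by_cases hα0 : Finsupp.single 0 d = α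
        · rw [if_pos hα0, mul_one, hi, ← hα0, sub_self]
          exact zero_mem _
        · rw [if_neg hα0, mul_zero, sub_zero, hmem i α hα]
          refine mem_fld a ?_
          intro h0
          exact hα0 (congrArg (fun q : Ix (N + 1) d => q.2.1) h0).symm
      · rw [if_neg hi, MvPolynomial.coeff_zero, sub_zero, hmem i α hα]
        refine mem_fld a ?_
        intro h0
        exact hi (congrArg Prod.fst h0)
  choose G hGh hG using hF₀
  have hGc : ∀ (i : Fin (N + 1 + 1)) (α : Fin (N + 1 + 1) →₀ ℕ),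
      (i ≠ 0 ∨ α ≠ Finsupp.single 0 d) → (((G i).coeff α : fld k a S₀) : κ) = (F i).coeff α := by
    intro i α h0
    have h1 : (((G i).coeff α : fld k a S₀) : κ) =
        (MvPolynomial.map (algebraMap (fld k a S₀) κ) (G i)).coeff α := by
      rw [MvPolynomial.coeff_map]
      rfl
    rw [h1, hG, MvPolynomial.coeff_sub]
    by_cases hi : i = 0
    · rw [if_pos hi, MvPolynomial.coeff_C_mul, MvPolynomial.coeff_X_pow, if_neg, mul_zero, sub_zero]
      intro h2
      rcases h0 with h0 | h0
      · exact h0 hi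
      · exact h0 h2.symm
    · rw [if_neg hi, MvPolynomial.coeff_zero, sub_zero]
  have hlow : ∀ p : Ix N d, ((co d (low G) p : fld k a S₀) : κ) = a (lo N d p) := by
    intro p
    change (((res (G p.1.succ)).coeff p.2.1 : fld k a S₀) : κ) = _
    rw [coeff_res, hGc _ _ (Or.inl (Fin.succ_ne_zero _))]
    exact hmem _ _ _
  have hbe : ∀ α : {α : Fin (N + 1) →₀ ℕ // α.degree = d},
      (((res (G 0)).coeff α.1 : fld k a S₀) : κ) = a (be N d α) := by
    intro α
    rw [coeff_res, hGc]
    · exact hmem _ _ _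
    · refine Or.inr ?_
      intro h0
      have h1 := DFunLike.congr_fun h0 0
      rw [Finsupp.cons_zero, Finsupp.single_eq_same] at h1
      omega
  refine ⟨fld k a S₁, fld k a S₀, inferInstance, inferInstance, alg a h10, inferInstance, G, hGh,
    ?_, ?_, ?_, ?_, fld k a S₃, fld k a S₂, inferInstance, inferInstance, alg a h32, alg a h20,
    ?_⟩
  · funext i
    unfold addc
    have h1 : mp (algebraMap (fld k a S₀) κ) G i =
        F i - if i = 0 then MvPolynomial.C c * MvPolynomial.X 0 ^ d else 0 := hG i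
    rw [h1, sub_add_cancel]
  · letI := alg (k := k) a h10
    exact {
      hom := fun i => hom_res _ (hGh _)
      ind := indepB a h.ind h10 (lo N d) lo_inj (fun t ht => ht.2 ⟨t, rfl⟩) _ hlow
      top := topB a h10 (lo N d) (fun i hi => by
        by_cases h1 : i ∈ Set.range (lo N d)
        · exact Or.inr h1
        · exact Or.inl ⟨hi, h1⟩) _ hlow }
  · exact indep a h.ind S₀ (fun _ : Unit => ic N d) (fun _ _ _ => rfl) (fun _ h0 => h0 rfl)
  · exact topK a h.top S₀ (ic N d) (fun i => by
      by_cases h1 : i = ic N d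
      · exact Or.inr h1
      · exact Or.inl h1)
  · have hφ : ∀ i : Fin (N + 1), ∃ Q : MvPolynomial (Fin (N + 1)) (fld k a S₂),
        Q.IsHomogeneous d ∧ MvPolynomial.map (algebraMap (fld k a S₂) κ) Q = low F i := by
      intro i
      refine exists_poly (fld k a S₂) _ (hom_res _ (h.hom _)) ?_
      intro α hα
      change (res (F i.succ)).coeff α ∈ _
      rw [coeff_res, hmem _ _ ((degree_cons α).trans hα)]
      exact mem_fld a (i := lo N d (i, ⟨α, hα⟩)) ⟨lo_ne_ic _, fun ⟨β, hβ⟩ => lo_ne_be _ β hβ.symm⟩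
    choose φ hφh hφ using hφ
    have hφc : ∀ p : Ix N d, ((co d φ p : fld k a S₂) : κ) = a (lo N d p) := by
      intro p
      have h1 : ((co d φ p : fld k a S₂) : κ) =
          (MvPolynomial.map (algebraMap (fld k a S₂) κ) (φ p.1)).coeff p.2.1 := by
        rw [MvPolynomial.coeff_map]
        rfl
      rw [h1, hφ]
      change (res (F p.1.succ)).coeff p.2.1 = _
      rw [coeff_res]
      exact hmem _ _ _
    refine ⟨φ, ?_, ?_, ?_, ?_⟩
    · letI := alg (k := k) a h32
      exact {
        hom := hφh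
        ind := indepB a h.ind h32 (lo N d) lo_inj (fun t ht => ht.2.2 ⟨t, rfl⟩) _ hφc
        top := topB a h32 (lo N d) (fun i hi => by
          by_cases h1 : i ∈ Set.range (lo N d)
          · exact Or.inr h1
          · exact Or.inl ⟨hi.1, hi.2, h1⟩) _ hφc }
    · letI := alg (k := k) a h20
      funext i
      refine MvPolynomial.map_injective (algebraMap (fld k a S₀) κ)
        (algebraMap (fld k a S₀) κ).injective ?_
      change MvPolynomial.map (algebraMap (fld k a S₀) κ)
        (MvPolynomial.map (algebraMap (fld k a S₂) (fld k a S₀)) (φ i)) =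
        MvPolynomial.map (algebraMap (fld k a S₀) κ) (res (G i.succ))
      rw [MvPolynomial.map_map, map_res, hG, if_neg (Fin.succ_ne_zero i), sub_zero]
      exact hφ i
    · exact indepB a h.ind h20 (be N d) be_inj (fun t ht => ht.2 ⟨t, rfl⟩) _ hbe
    · exact topB a h20 (be N d) (fun i hi => by
        by_cases h1 : i ∈ Set.range (be N d)
        · exact Or.inr h1
        · exact Or.inl ⟨hi, h1⟩) _ hbe

end Pool.Agent.PNB
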