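import Mathlib
import Pool.Agent.PNB.Defs

set_option autoImplicit false

/-!
# The residue field of a valuation over a trivially valued field, and lifts of a basis
-/

namespace Pool.Agent.PNB

namespace LifA

/-- The ideal of the elements of value less than `1`. -/
def maxI {L Γ : Type} [Field L] [LinearOrderedCommGroupWithZero Γ] (v : Valuation L Γ) :
    Ideal v.integer where
  carrier := {y | v (y : L) < 1}
  add_mem' := by
    intro a b ha hb
    exact lt_of_le_of_lt (v.map_add _ _) (max_lt ha hb)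
  zero_mem' := by
    change v ((0 : v.integer) : L) < 1
    rw [ZeroMemClass.coe_zero, map_zero]
    exact zero_lt_one
  smul_mem' := by
    intro c x hx
    change v ((c • x : v.integer) : L) < 1
    rw [smul_eq_mul, Subring.coe_mul, map_mul]
    calc v (c : L) * v (x : L) ≤ 1 * v (x : L) := mul_le_mul_left c.2 _
      _ = v (x : L) := one_mul _
      _ < 1 := hx

theorem mem_maxI {L Γ : Type} [Field L] [LinearOrderedCommGroupWithZero Γ] (v : Valuation L Γ)
    (y : v.integer) : y ∈ maxI v ↔ v (y : L) < 1 := Iff.rfl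

instance maxI_max {L Γ : Type} [Field L] [LinearOrderedCommGroupWithZero Γ] (v : Valuation L Γ) :
    (maxI v).IsMaximal := by
  rw [Ideal.isMaximal_iff]
  constructor
  · rw [mem_maxI, OneMemClass.coe_one, map_one]
    exact lt_irrefl 1
  · intro J x hJ hx hxJ
    rw [mem_maxI, not_lt] at hx
    have h1 : v (x : L) = 1 := le_antisymm x.2 hx
    have hx0 : (x : L) ≠ 0 := by
      intro h
      rw [h, map_zero] at h1
      exact zero_ne_one h1
    have h2 : v ((x : L)⁻¹) ≤ 1 := by
      rw [map_inv₀, h1, inv_one]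
    have h3 : (⟨(x : L)⁻¹, h2⟩ : v.integer) * x = 1 := by
      apply Subtype.ext
      rw [Subring.coe_mul, OneMemClass.coe_one]
      exact inv_mul_cancel₀ hx0
    rw [← h3]
    exact J.mul_mem_left _ hxJ

end LifA

theorem exists_rho {κ' L Γ : Type} [Field κ'] [Field L] [Algebra κ' L]
    [LinearOrderedCommGroupWithZero Γ] (v : Valuation L Γ)
    (hk : ∀ a : κ', v (algebraMap κ' L a) ≤ 1) :
    ∃ (Λ : Type) (_ : Field Λ) (_ : Algebra κ' Λ) (ρ : v.integer →+* Λ),
      Function.Surjective ρ ∧ (∀ y : v.integer, ρ y = 0 ↔ v (y : L) < 1) ∧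
      ∀ a : κ', ρ ⟨algebraMap κ' L a, hk a⟩ = algebraMap κ' Λ a := by
  let f : κ' →+* v.integer := (algebraMap κ' L).codRestrict v.integer hk
  let _ : Field (v.integer ⧸ LifA.maxI v) := Ideal.Quotient.field (LifA.maxI v)
  let _ : Algebra κ' (v.integer ⧸ LifA.maxI v) :=
    ((Ideal.Quotient.mk (LifA.maxI v)).comp f).toAlgebra
  refine ⟨v.integer ⧸ LifA.maxI v, inferInstance, inferInstance, Ideal.Quotient.mk (LifA.maxI v),
    Ideal.Quotient.mk_surjective, fun y => ?_, fun a => rfl⟩
  rw [← LifA.mem_maxI]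
  exact Ideal.Quotient.eq_zero_iff_mem

theorem exists_lift {κ' L Γ Λ : Type} [Field κ'] [Field L] [Field Λ] [Algebra κ' L] [Algebra κ' Λ]
    [LinearOrderedCommGroupWithZero Γ] (v : Valuation L Γ)
    (hk : ∀ a : κ', v (algebraMap κ' L a) ≤ 1) (ρ : v.integer →+* Λ)
    (hs : Function.Surjective ρ) (hρ : ∀ y : v.integer, ρ y = 0 ↔ v (y : L) < 1)
    (hc : ∀ a : κ', ρ ⟨algebraMap κ' L a, hk a⟩ = algebraMap κ' Λ a)
    (E : IntermediateField κ' Λ) [FiniteDimensional κ' E] :
    ∃ u : Fin (Module.finrank κ' E) → L, ∀ b : Fin (Module.finrank κ' E) → κ', b ≠ 0 →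
      v (∑ j, algebraMap κ' L (b j) * u j) = 1 := by
  let e := Module.finBasis κ' E
  choose y hy using fun j => hs (e j : Λ)
  refine ⟨fun j => (y j : L), fun b hb => ?_⟩
  have h1 : ((∑ j, (⟨algebraMap κ' L (b j), hk (b j)⟩ : v.integer) * y j : v.integer) : L) =
      ∑ j, algebraMap κ' L (b j) * (y j : L) := by
    rw [AddSubmonoidClass.coe_finsetSum]
    rfl
  rw [← h1]
  refine le_antisymm (∑ j, (⟨algebraMap κ' L (b j), hk (b j)⟩ : v.integer) * y j).2 ?_
  rw [← not_lt, ← hρ, map_sum]
  simp only [map_mul, hc, hy]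
  intro h2
  have h3 : (∑ j, b j • e j : E) = 0 := by
    apply Subtype.ext
    rw [AddSubmonoidClass.coe_finsetSum, ZeroMemClass.coe_zero, ← h2]
    refine Finset.sum_congr rfl fun j _ => ?_
    rw [← Algebra.smul_def]
    rfl
  have h4 := Fintype.linearIndependent_iff.1 e.linearIndependent b h3
  exact hb (funext h4)

end Pool.Agent.PNB
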