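import Pool.Agent.PNB.Defs

set_option autoImplicit false

/-!
# The reduction of a point none of whose iterates is big
-/

namespace Pool.Agent.PNB

open Pool.Agent.PNH

namespace RedA

variable {L Γ Λ : Type} [Field L] [LinearOrderedCommGroupWithZero Γ] [Field Λ]

/-- the value of a form with integral coefficients at an integral point -/
theorem eval_sub (v : Valuation L Γ) {n : ℕ} (P : MvPolynomial (Fin n) v.integer)
    (z : Fin n → v.integer) :
    MvPolynomial.eval (fun i => (z i : L)) (MvPolynomial.map v.integer.subtype P) =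
      ((MvPolynomial.eval z P : v.integer) : L) := by
  have h := MvPolynomial.eval₂_comp_left v.integer.subtype (RingHom.id v.integer) z P
  rw [MvPolynomial.eval_map]
  rw [MvPolynomial.eval₂_id] at h
  rw [RingHom.comp_id] at h
  exact h.symm

/-- the reduction of the value of a form -/
theorem rho_eval {R : Type} [CommRing R] (ρ : R →+* Λ) {n : ℕ} (P : MvPolynomial (Fin n) R)
    (z : Fin n → R) :
    ρ (MvPolynomial.eval z P) = MvPolynomial.eval (fun i => ρ (z i)) (MvPolynomial.map ρ P) := by
  have h := MvPolynomial.eval₂_comp_left ρ (RingHom.id R) z P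
  rw [MvPolynomial.eval_map]
  rw [MvPolynomial.eval₂_id] at h
  rw [RingHom.comp_id] at h
  exact h

/-- the reduction of the value of a form at a point whose first coordinate reduces to `0` -/
theorem rho_eval_res {R : Type} [CommRing R] (ρ : R →+* Λ) {N : ℕ}
    (P : MvPolynomial (Fin (N + 1 + 1)) R) (z : Fin (N + 1 + 1) → R) (h0 : ρ (z 0) = 0) :
    ρ (MvPolynomial.eval z P) =
      MvPolynomial.eval (fun i : Fin (N + 1) => ρ (z i.succ)) (MvPolynomial.map ρ (res P)) := by
  rw [rho_eval, map_res, eval_res]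
  have h1 : (fun i => ρ (z i)) = (Fin.cons 0 fun i : Fin (N + 1) => ρ (z i.succ) :
      Fin (N + 1 + 1) → Λ) := by
    funext i
    refine Fin.cases ?_ (fun i => ?_) i
    · rw [h0, Fin.cons_zero]
    · rw [Fin.cons_succ]
  rw [h1]

theorem app_zero (v : Valuation L Γ) {N d : ℕ} (c : L) (G : Tup (N + 1) v.integer)
    (z : Fin (N + 1 + 1) → v.integer) :
    app (addc d c (mp v.integer.subtype G)) (fun i => (z i : L)) 0 =
      c * (z 0 : L) ^ d + ((MvPolynomial.eval z (G 0) : v.integer) : L) := by
  rw [app, addc, if_pos rfl, map_add, map_mul, map_pow, MvPolynomial.eval_C,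
    MvPolynomial.eval_X, add_comm]
  rw [mp, eval_sub]

theorem app_succ (v : Valuation L Γ) {N d : ℕ} (c : L) (G : Tup (N + 1) v.integer)
    (z : Fin (N + 1 + 1) → v.integer) (i : Fin (N + 1)) :
    app (addc d c (mp v.integer.subtype G)) (fun i => (z i : L)) i.succ =
      ((MvPolynomial.eval z (G i.succ) : v.integer) : L) := by
  rw [app, addc, if_neg (Fin.succ_ne_zero i), add_zero, mp, eval_sub]

end RedA

theorem red {L Γ Λ : Type} [Field L] [LinearOrderedCommGroupWithZero Γ] [Field Λ]
    (v : Valuation L Γ) (ρ : v.integer →+* Λ)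
    (hρ : ∀ y : v.integer, ρ y = 0 ↔ v (y : L) < 1) (g : Γ) (hg : 1 < g) {N d : ℕ} (hd : 1 ≤ d)
    (c : L) (hc : v c = g) (G : Tup (N + 1) v.integer) (hG : ∀ i, (G i).IsHomogeneous d)
    (hφ : ∀ y : Fin (N + 1) → Λ, app (mp ρ (low G)) y = 0 → y = 0)
    (x : Fin (N + 1 + 1) → v.integer) (hx0 : ρ (x 0) = 0) (hx : ∃ j : Fin (N + 1), ρ (x j.succ) ≠ 0)
    (hnb : ∀ n : ℕ, ∃ j, g * v ((app (addc d c (mp v.integer.subtype G)))^[n]
        (fun i => (x i : L)) 0) ^ d ≤
      v ((app (addc d c (mp v.integer.subtype G)))^[n] (fun i => (x i : L)) j) ^ d) :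
    (∀ n : ℕ, ∃ z : Fin (N + 1 + 1) → v.integer,
      (app (addc d c (mp v.integer.subtype G)))^[n] (fun i => (x i : L)) = (fun i => (z i : L)) ∧
      ρ (z 0) = 0 ∧
      (fun i : Fin (N + 1) => ρ (z i.succ)) =
        (app (mp ρ (low G)))^[n] (fun i => ρ (x i.succ))) ∧
    (MvPolynomial.eval (fun i : Fin (N + 1) => ρ (x i.succ))
        (MvPolynomial.map ρ (res (G 0))) ≠ 0 → v (x 0 : L) ^ d * g = 1) := by
  have hd0 : d ≠ 0 := by omega
  have hg0 : g ≠ 0 := (zero_lt_one.trans hg).ne'
  -- the first coordinate of every iterate is small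
  have hsm : ∀ (n : ℕ) (z : Fin (N + 1 + 1) → v.integer),
      (app (addc d c (mp v.integer.subtype G)))^[n] (fun i => (x i : L)) =
        (fun i => (z i : L)) →
      v ((app (addc d c (mp v.integer.subtype G)))^[n + 1] (fun i => (x i : L)) 0) < 1 := by
    intro n z hz
    obtain ⟨j, hj⟩ := hnb (n + 1)
    have h1 : v ((app (addc d c (mp v.integer.subtype G)))^[n + 1]
        (fun i => (x i : L)) j) ≤ 1 ∨ j = 0 := by
      refine Fin.cases ?_ (fun i => ?_) j
      · exact Or.inr rfl
      · left
        rw [Function.iterate_succ_apply', hz, RedA.app_succ]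
        exact (MvPolynomial.eval z (G i.succ) : v.integer).2
    by_contra hno
    rw [not_lt] at hno
    have h2 : (1 : Γ) ≤ v ((app (addc d c (mp v.integer.subtype G)))^[n + 1]
        (fun i => (x i : L)) 0) ^ d := one_le_pow₀ hno
    rcases h1 with h1 | h1
    · have h3 : v ((app (addc d c (mp v.integer.subtype G)))^[n + 1]
        (fun i => (x i : L)) j) ^ d ≤ 1 := pow_le_one₀ zero_le h1
      have h4 : g * 1 ≤ 1 := (mul_le_mul_right h2 g).trans (hj.trans h3)
      rw [mul_one] at h4
      exact absurd h4 (not_le.2 hg)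
    · rw [h1] at hj
      have h3 : (0 : Γ) < v ((app (addc d c (mp v.integer.subtype G)))^[n + 1]
        (fun i => (x i : L)) 0) ^ d := zero_lt_one.trans_le h2
      have h4 : g ≤ 1 := by
        by_contra h5
        rw [not_le] at h5
        have h6 := mul_lt_mul_of_pos_right h5 h3
        rw [one_mul] at h6
        exact absurd hj (not_le.2 h6)
      exact absurd h4 (not_le.2 hg)
  have hall : ∀ n : ℕ, ∃ z : Fin (N + 1 + 1) → v.integer,
      (app (addc d c (mp v.integer.subtype G)))^[n] (fun i => (x i : L)) = (fun i => (z i : L)) ∧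
      ρ (z 0) = 0 ∧
      (fun i : Fin (N + 1) => ρ (z i.succ)) =
        (app (mp ρ (low G)))^[n] (fun i => ρ (x i.succ)) := by
    intro n
    induction n with
    | zero => exact ⟨x, rfl, hx0, rfl⟩
    | succ n ih =>
      obtain ⟨z, hz, hz0, hzs⟩ := ih
      have h1 := hsm n z hz
      rw [Function.iterate_succ_apply', hz] at h1
      refine ⟨Fin.cons ⟨_, h1.le⟩ fun i => MvPolynomial.eval z (G i.succ), ?_, ?_, ?_⟩
      · rw [Function.iterate_succ_apply', hz]
        funext i
        refine Fin.cases ?_ (fun i => ?_) i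
        · rw [Fin.cons_zero]
        · rw [Fin.cons_succ, RedA.app_succ]
      · rw [Fin.cons_zero]
        exact (hρ _).2 h1
      · rw [Function.iterate_succ_apply', ← hzs]
        funext i
        rw [Fin.cons_succ, RedA.rho_eval_res ρ _ z hz0]
        rfl
  refine ⟨hall, fun hne => ?_⟩
  have h1 := hsm 0 x rfl
  rw [Function.iterate_succ_apply', Function.iterate_zero_apply, RedA.app_zero] at h1
  have h2 : v ((MvPolynomial.eval x (G 0) : v.integer) : L) = 1 := by
    refine le_antisymm (MvPolynomial.eval x (G 0) : v.integer).2 ?_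
    by_contra h3
    rw [not_le] at h3
    have h4 := (hρ _).2 h3
    rw [RedA.rho_eval_res ρ _ x hx0] at h4
    exact hne h4
  have h3 : v (c * (x 0 : L) ^ d) = 1 := by
    have h4 : c * (x 0 : L) ^ d = (c * (x 0 : L) ^ d +
        ((MvPolynomial.eval x (G 0) : v.integer) : L)) +
        -((MvPolynomial.eval x (G 0) : v.integer) : L) := by ring
    have h5 := Valuation.map_add_eq_of_lt_right v (x := c * (x 0 : L) ^ d +
      ((MvPolynomial.eval x (G 0) : v.integer) : L))
      (y := -((MvPolynomial.eval x (G 0) : v.integer) : L)) (by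
        rw [Valuation.map_neg, h2]
        exact h1)
    rw [h4, h5, Valuation.map_neg, h2]
  rw [map_mul, map_pow, hc] at h3
  rw [mul_comm]
  exact h3

end Pool.Agent.PNB
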