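import Mathlib
import Pool.Agent.PNB.Defs
import Pool.Agent.PNB.Wt
import Pool.Agent.LIM.ExDeg

set_option autoImplicit false

/-!
# The `d`-th root of the quotient of two values of a generic form
-/

namespace Pool.Agent.PNB

open Pool.Agent.PNH

namespace TwoA

/-- one of the independent elements is replaced by a linear form -/
theorem update_indep {R A ι : Type} [Field R] [CommRing A] [Algebra R A] [Fintype ι]
    [DecidableEq ι] (b : ι → A) (hb : AlgebraicIndependent R b) (u : ι → R) (i₀ : ι)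
    (hu : u i₀ ≠ 0) : AlgebraicIndependent R (Function.update b i₀ (∑ i, u i • b i)) := by
  obtain ⟨σ, hσ⟩ : ∃ σ : MvPolynomial ι R →ₐ[R] MvPolynomial ι R,
      σ = MvPolynomial.aeval (Function.update MvPolynomial.X i₀
        (∑ i, u i • (MvPolynomial.X i : MvPolynomial ι R))) := ⟨_, rfl⟩
  obtain ⟨S, hS⟩ : ∃ S : MvPolynomial ι R,
      S = ∑ i ∈ Finset.univ.erase i₀, u i • (MvPolynomial.X i : MvPolynomial ι R) := ⟨_, rfl⟩
  obtain ⟨τ, hτ⟩ : ∃ τ : MvPolynomial ι R →ₐ[R] MvPolynomial ι R,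
      τ = MvPolynomial.aeval (Function.update MvPolynomial.X i₀
        ((u i₀)⁻¹ • ((MvPolynomial.X i₀ : MvPolynomial ι R) - S))) := ⟨_, rfl⟩
  have hτ0 : τ (MvPolynomial.X i₀) = (u i₀)⁻¹ • ((MvPolynomial.X i₀ : MvPolynomial ι R) - S) := by
    rw [hτ, MvPolynomial.aeval_X, Function.update_self]
  have hτ1 : ∀ i, i ≠ i₀ → τ (MvPolynomial.X i) = MvPolynomial.X i := by
    intro i hi
    rw [hτ, MvPolynomial.aeval_X, Function.update_of_ne hi]
  have hinj : Function.Injective σ := by
    have hτσ : τ.comp σ = AlgHom.id R _ := by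
      refine MvPolynomial.algHom_ext fun i => ?_
      rw [AlgHom.comp_apply, AlgHom.id_apply]
      by_cases hi : i = i₀
      · subst hi
        rw [hσ, MvPolynomial.aeval_X, Function.update_self, map_sum,
          ← Finset.add_sum_erase _ _ (Finset.mem_univ i), map_smul, hτ0, smul_smul,
          mul_inv_cancel₀ hu, one_smul]
        have h1 : ∑ j ∈ Finset.univ.erase i, τ (u j • (MvPolynomial.X j : MvPolynomial ι R)) =
            S := by
          rw [hS]
          refine Finset.sum_congr rfl fun j hj => ?_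
          rw [map_smul, hτ1 j (Finset.ne_of_mem_erase hj)]
        rw [h1]
        ring
      · rw [hσ, MvPolynomial.aeval_X, Function.update_of_ne hi, hτ1 i hi]
    intro p q hpq
    have h1 := congrArg τ hpq
    rw [← AlgHom.comp_apply, ← AlgHom.comp_apply, hτσ] at h1
    exact h1
  have hcomp : (MvPolynomial.aeval (Function.update b i₀ (∑ i, u i • b i)) :
      MvPolynomial ι R →ₐ[R] A) = (MvPolynomial.aeval b).comp σ := by
    refine MvPolynomial.algHom_ext fun i => ?_
    rw [AlgHom.comp_apply, MvPolynomial.aeval_X]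
    by_cases hi : i = i₀
    · subst hi
      rw [hσ, MvPolynomial.aeval_X, Function.update_self, Function.update_self, map_sum]
      refine Finset.sum_congr rfl fun j _ => ?_
      rw [map_smul, MvPolynomial.aeval_X]
    · rw [hσ, MvPolynomial.aeval_X, Function.update_of_ne hi, Function.update_of_ne hi,
        MvPolynomial.aeval_X]
  show Function.Injective _
  rw [hcomp, AlgHom.coe_comp]
  exact Function.Injective.comp hb hinj

theorem core {E Λ ι : Type} [Field E] [Field Λ] [Algebra E Λ] [Fintype ι] [DecidableEq ι]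
    (b : ι → Λ) (hb : AlgebraicIndependent E b) (u w : ι → E) (i₀ i₁ : ι) (hu : u i₀ ≠ 0)
    (hw : w i₁ * u i₀ ≠ u i₁ * w i₀) (r : Λ) (d : ℕ) (hd : 1 ≤ d)
    (hr : r ^ d * (∑ i, u i • b i) = ∑ i, w i • b i) :
    d ≤ (minpoly (IntermediateField.adjoin E (Set.range b)) r).natDegree := by
  have h01 : i₁ ≠ i₀ := by
    rintro rfl
    exact hw (mul_comm _ _)
  obtain ⟨E₁, hE₁⟩ : ∃ E₁ : IntermediateField E Λ, E₁ = IntermediateField.adjoin E (Set.range b) :=
    ⟨_, rfl⟩
  rw [← hE₁]
  have hmem : ∀ i, b i ∈ E₁ := fun i => by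
    rw [hE₁]
    exact IntermediateField.subset_adjoin E _ ⟨i, rfl⟩
  obtain ⟨b₁, hb₁⟩ : ∃ b₁ : ι → E₁, ∀ i, (b₁ i : Λ) = b i := ⟨fun i => ⟨b i, hmem i⟩, fun i => rfl⟩
  have hb₁i : AlgebraicIndependent E b₁ := by
    refine (AlgHom.algebraicIndependent_iff E₁.val Subtype.val_injective).1 ?_
    have h1 : (E₁.val ∘ b₁ : ι → Λ) = b := funext hb₁
    rw [h1]
    exact hb
  obtain ⟨Lu, hLu⟩ : ∃ Lu : E₁, Lu = ∑ i, u i • b₁ i := ⟨_, rfl⟩
  obtain ⟨a, ha⟩ : ∃ a : ι → E₁, a = Function.update b₁ i₀ Lu := ⟨_, rfl⟩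
  have hai : AlgebraicIndependent E a := by
    rw [ha, hLu]
    exact update_indep b₁ hb₁i u i₀ hu
  have ha0 : a i₀ = Lu := by rw [ha, Function.update_self]
  have ha1 : ∀ i, i ≠ i₀ → a i = b₁ i := fun i hi => by rw [ha, Function.update_of_ne hi]
  have hb0 : b₁ i₀ = (u i₀)⁻¹ • (Lu - ∑ i ∈ Finset.univ.erase i₀, u i • b₁ i) := by
    rw [hLu, ← Finset.add_sum_erase _ _ (Finset.mem_univ i₀), add_sub_cancel_right, smul_smul,
      inv_mul_cancel₀ hu, one_smul]
  have htop : IntermediateField.adjoin E (Set.range a) = ⊤ := by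
    obtain ⟨F, hF⟩ : ∃ F : IntermediateField E E₁, F = IntermediateField.adjoin E (Set.range a) :=
      ⟨_, rfl⟩
    rw [← hF]
    have hFa : ∀ i, a i ∈ F := fun i => by
      rw [hF]
      exact IntermediateField.subset_adjoin E _ ⟨i, rfl⟩
    have hFb : ∀ i, b₁ i ∈ F := by
      intro i
      by_cases hi : i = i₀
      · rw [hi, hb0]
        refine F.smul_mem (sub_mem (ha0 ▸ hFa i₀) (sum_mem fun j hj => F.smul_mem ?_))
        rw [← ha1 j (Finset.ne_of_mem_erase hj)]
        exact hFa j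
      · rw [← ha1 i hi]
        exact hFa i
    have hle : E₁ ≤ F.map E₁.val := by
      conv_lhs => rw [hE₁]
      rw [IntermediateField.adjoin_le_iff]
      rintro _ ⟨i, rfl⟩
      exact ⟨b₁ i, hFb i, hb₁ i⟩
    rw [eq_top_iff]
    intro x _
    obtain ⟨y, hy, hyx⟩ := hle x.2
    have : y = x := Subtype.ext hyx
    rw [← this]
    exact hy
  -- the expansion of the second form
  obtain ⟨Lw, hLw⟩ : ∃ Lw : E₁, Lw = ∑ i, w i • b₁ i := ⟨_, rfl⟩
  have hLw1 : Lw = (w i₀ * (u i₀)⁻¹) • Lu +
      ∑ i ∈ Finset.univ.erase i₀, (w i - w i₀ * (u i₀)⁻¹ * u i) • b₁ i := by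
    rw [hLw, ← Finset.add_sum_erase _ _ (Finset.mem_univ i₀), hb0, smul_smul, smul_sub,
      Finset.smul_sum]
    have h1 : ∀ i, (w i - w i₀ * (u i₀)⁻¹ * u i) • b₁ i =
        w i • b₁ i - (w i₀ * (u i₀)⁻¹) • u i • b₁ i := by
      intro i
      rw [sub_smul, smul_smul]
    rw [Finset.sum_congr rfl fun i _ => h1 i, Finset.sum_sub_distrib]
    ring
  have hLu0 : Lu ≠ 0 := by
    rw [← ha0]
    exact hai.ne_zero i₀
  have hrE : IsIntegral E₁ r := by
    refine IsIntegral.of_pow hd ?_
    have h1 : r ^ d = algebraMap E₁ Λ (Lw / Lu) := by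
      rw [map_div₀, eq_div_iff (by rwa [ne_eq, map_eq_zero])]
      have h2 : algebraMap E₁ Λ Lu = ∑ i, u i • b i := by
        rw [hLu, map_sum]
        refine Finset.sum_congr rfl fun i _ => ?_
        rw [← hb₁ i]
        rfl
      have h3 : algebraMap E₁ Λ Lw = ∑ i, w i • b i := by
        rw [hLw, map_sum]
        refine Finset.sum_congr rfl fun i _ => ?_
        rw [← hb₁ i]
        rfl
      rw [h2, h3, hr]
    rw [h1]
    exact isIntegral_algebraMap
  obtain ⟨M, hM⟩ : ∃ M : IntermediateField E₁ Λ, M = IntermediateField.adjoin E₁ {r} := ⟨_, rfl⟩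
  have hrM : r ∈ M := by
    rw [hM]
    exact IntermediateField.mem_adjoin_simple_self E₁ r
  have : Algebra.IsAlgebraic E₁ M := by
    rw [hM]
    exact IntermediateField.isAlgebraic_adjoin_simple hrE
  obtain ⟨Γ, hΓ, v, g, hg, hva, hk, hvE⟩ := exists_wt (M := M) a hai htop
    (fun i => if i = i₁ then 1 else 0)
  have hvu : v (algebraMap E₁ M Lu) = 1 := by
    rw [← ha0, hva, if_neg h01.symm, pow_zero]
  have hsm : ∀ (c : E) (y : E₁), algebraMap E₁ M (c • y) =
      algebraMap E₁ M (algebraMap E E₁ c) * algebraMap E₁ M y := by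
    intro c y
    rw [Algebra.smul_def, map_mul]
  have hvc : ∀ c : E, v (algebraMap E₁ M (algebraMap E E₁ c)) ≤ 1 := by
    intro c
    by_cases hc : c = 0
    · rw [hc, map_zero, map_zero, map_zero]
      exact zero_le
    · exact (hvE c hc).le
  have hvw : v (algebraMap E₁ M Lw) = g := by
    have h1 : i₁ ∈ Finset.univ.erase i₀ := Finset.mem_erase.2 ⟨h01, Finset.mem_univ _⟩
    rw [hLw1, ← Finset.add_sum_erase _ _ h1, add_left_comm, map_add (algebraMap E₁ M), hsm,
      map_add (algebraMap E₁ M), map_sum]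
    have h2 : v (algebraMap E₁ M (algebraMap E E₁ (w i₁ - w i₀ * (u i₀)⁻¹ * u i₁)) *
        algebraMap E₁ M (b₁ i₁)) = g := by
      rw [map_mul, hvE, one_mul, ← ha1 i₁ h01, hva, if_pos rfl, pow_one]
      intro h0
      refine hw ?_
      have h3 : w i₁ = w i₀ * (u i₀)⁻¹ * u i₁ := sub_eq_zero.1 h0
      rw [h3]
      field_simp
    have h3 : v (algebraMap E₁ M ((w i₀ * (u i₀)⁻¹) • Lu) +
        ∑ x ∈ (Finset.univ.erase i₀).erase i₁,
          algebraMap E₁ M ((w x - w i₀ * (u i₀)⁻¹ * u x) • b₁ x)) ≤ 1 := by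
      refine (v.map_add _ _).trans (max_le ?_ (v.map_sum_le fun i hi => ?_))
      · rw [hsm, map_mul, hvu, mul_one]
        exact hvc _
      · have h4 := Finset.ne_of_mem_erase hi
        have h5 := Finset.ne_of_mem_erase (Finset.mem_of_mem_erase hi)
        rw [hsm, map_mul, ← ha1 i h5, hva, if_neg h4, pow_zero, mul_one]
        exact hvc _
    rw [v.map_add_eq_of_lt_left]
    · exact h2
    · rw [h2]
      exact h3.trans_lt hg
  have hrv : v (⟨r, hrM⟩ : M) ^ d = g := by
    have h1 : (⟨r, hrM⟩ : M) ^ d * algebraMap E₁ M Lu = algebraMap E₁ M Lw := by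
      refine Subtype.ext ?_
      have h2 : (Lu : Λ) = ∑ i, u i • b i := by
        rw [hLu]
        simp only [AddSubmonoidClass.coe_finsetSum, IntermediateField.coe_smul, hb₁]
      have h3 : (Lw : Λ) = ∑ i, w i • b i := by
        rw [hLw]
        simp only [AddSubmonoidClass.coe_finsetSum, IntermediateField.coe_smul, hb₁]
      show r ^ d * (Lu : Λ) = (Lw : Λ)
      rw [h2, h3, hr]
    have h4 := congrArg v h1
    rw [map_mul, map_pow, hvu, mul_one, hvw] at h4
    exact h4
  have hfin := Pool.Agent.LIM.Ex.deg_le v g hg hk (⟨r, hrM⟩ : M) d hd hrv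
  have h5 : minpoly E₁ (algebraMap M Λ ⟨r, hrM⟩) = minpoly E₁ (⟨r, hrM⟩ : M) :=
    minpoly.algebraMap_eq (algebraMap M Λ).injective _
  have h6 : algebraMap M Λ ⟨r, hrM⟩ = r := rfl
  rw [h6] at h5
  rw [h5]
  exact hfin

end TwoA

open TwoA

/-- The value of a generic form at the algebraic points `y` and `z` of the same field, not
proportional: a `d`-th root of the quotient has degree at least `d`. -/
theorem two {κ₂ κ' Λ : Type} [Field κ₂] [Field κ'] [Field Λ] [Algebra κ₂ κ'] [Algebra κ' Λ]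
    [Algebra κ₂ Λ] [IsScalarTower κ₂ κ' Λ] {N d : ℕ} (hd : 1 ≤ d)
    (P : MvPolynomial (Fin (N + 1)) κ') (hP : P.IsHomogeneous d)
    (hb : AlgebraicIndependent κ₂
      (fun α : {α : Fin (N + 1) →₀ ℕ // α.degree = d} => P.coeff α.1))
    (ht : IntermediateField.adjoin κ₂
      (Set.range fun α : {α : Fin (N + 1) →₀ ℕ // α.degree = d} => P.coeff α.1) = ⊤)
    (y z : Fin (N + 1) → Λ) (hy : ∀ i, IsAlgebraic κ₂ (y i))
    (hz : ∀ i, z i ∈ IntermediateField.adjoin κ₂ (Set.range y)) (hyz : ¬ Par y z) (r : Λ)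
    (hr : r ^ d * MvPolynomial.eval y (MvPolynomial.map (algebraMap κ' Λ) P) =
      MvPolynomial.eval z (MvPolynomial.map (algebraMap κ' Λ) P)) :
    d ≤ (minpoly (IntermediateField.adjoin κ' (Set.range y)) r).natDegree := by
  classical
  have : Finite {α : Fin (N + 1) →₀ ℕ // α.degree = d} :=
    (Finsupp.finite_of_degree_eq (σ := Fin (N + 1)) d).to_subtype
  have : Fintype {α : Fin (N + 1) →₀ ℕ // α.degree = d} := Fintype.ofFinite _
  -- the value of the form
  have heval : ∀ x : Fin (N + 1) → Λ, MvPolynomial.eval x (MvPolynomial.map (algebraMap κ' Λ) P) =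
      ∑ α : {α : Fin (N + 1) →₀ ℕ // α.degree = d},
        algebraMap κ' Λ (P.coeff α.1) * ∏ i, x i ^ α.1 i := by
    intro x
    rw [MvPolynomial.eval_eq',
      ← Finset.sum_subtype (Finsupp.finite_of_degree_eq (σ := Fin (N + 1)) d).toFinset
        (fun m => by simp) (fun m => algebraMap κ' Λ (P.coeff m) * ∏ i, x i ^ m i)]
    refine (Finset.sum_congr rfl fun m _ => by rw [MvPolynomial.coeff_map]).trans ?_
    refine Finset.sum_subset (fun m hm => ?_) (fun m _ hm => ?_)
    · rw [Set.Finite.mem_toFinset]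
      have h1 : P.coeff m ≠ 0 := by
        intro h0
        rw [MvPolynomial.mem_support_iff, MvPolynomial.coeff_map, h0, map_zero] at hm
        exact hm rfl
      have h2 := hP h1
      show m.degree = d
      rwa [Finsupp.degree_eq_weight_one]
    · rw [MvPolynomial.notMem_support_iff, MvPolynomial.coeff_map] at hm
      rw [hm, zero_mul]
  obtain ⟨E, hE⟩ : ∃ E : IntermediateField κ₂ Λ,
      E = IntermediateField.adjoin κ₂ (Set.range y) := ⟨_, rfl⟩
  have hyE : ∀ i, y i ∈ E := fun i => by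
    rw [hE]
    exact IntermediateField.subset_adjoin κ₂ _ ⟨i, rfl⟩
  have hzE : ∀ i, z i ∈ E := fun i => by
    rw [hE]
    exact hz i
  have : Algebra.IsAlgebraic κ₂ E := by
    rw [hE]
    refine IntermediateField.isAlgebraic_adjoin ?_
    rintro _ ⟨i, rfl⟩
    exact (hy i).isIntegral
  obtain ⟨b, hbdef⟩ : ∃ b : {α : Fin (N + 1) →₀ ℕ // α.degree = d} → Λ,
      ∀ α, b α = algebraMap κ' Λ (P.coeff α.1) := ⟨_, fun α => rfl⟩
  have hbΛ : AlgebraicIndependent κ₂ b := by
    have h1 := hb.map' (f := IsScalarTower.toAlgHom κ₂ κ' Λ) (algebraMap κ' Λ).injective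
    have h2 : b = (IsScalarTower.toAlgHom κ₂ κ' Λ) ∘
        fun α : {α : Fin (N + 1) →₀ ℕ // α.degree = d} => P.coeff α.1 := by
      funext α
      rw [hbdef]
      rfl
    rw [h2]
    exact h1
  have hbE : AlgebraicIndependent E b := hbΛ.extendScalars E
  obtain ⟨u, hu⟩ : ∃ u : {α : Fin (N + 1) →₀ ℕ // α.degree = d} → E,
      ∀ α, u α = ∏ i, (⟨y i, hyE i⟩ : E) ^ α.1 i := ⟨_, fun α => rfl⟩
  obtain ⟨w, hw⟩ : ∃ w : {α : Fin (N + 1) →₀ ℕ // α.degree = d} → E,
      ∀ α, w α = ∏ i, (⟨z i, hzE i⟩ : E) ^ α.1 i := ⟨_, fun α => rfl⟩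
  have huv : ∑ α, u α • b α = MvPolynomial.eval y (MvPolynomial.map (algebraMap κ' Λ) P) := by
    rw [heval]
    refine Finset.sum_congr rfl fun α _ => ?_
    rw [Algebra.smul_def, hu, map_prod, mul_comm, hbdef]
    congr 1
  have hwv : ∑ α, w α • b α = MvPolynomial.eval z (MvPolynomial.map (algebraMap κ' Λ) P) := by
    rw [heval]
    refine Finset.sum_congr rfl fun α _ => ?_
    rw [Algebra.smul_def, hw, map_prod, mul_comm, hbdef]
    congr 1
  -- a nonzero minor
  obtain ⟨j, hj⟩ : ∃ j, y j ≠ 0 := by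
    by_contra hall
    push Not at hall
    refine hyz fun i k => ?_
    rw [hall i, hall k, zero_mul, zero_mul]
  have hprod1 : ∀ (x : Fin (N + 1) → Λ) (i : Fin (N + 1)),
      ∏ k, x k ^ (Finsupp.single i d : Fin (N + 1) →₀ ℕ) k = x i ^ d := by
    intro x i
    rw [Finset.prod_eq_single i]
    · rw [Finsupp.single_eq_same]
    · intro k _ hk
      rw [Finsupp.single_eq_of_ne hk, pow_zero]
    · intro h
      exact absurd (Finset.mem_univ _) h
  have hprod2 : ∀ (x : Fin (N + 1) → Λ) (i : Fin (N + 1)), i ≠ j →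
      ∏ k, x k ^ (Finsupp.single j (d - 1) + Finsupp.single i 1 : Fin (N + 1) →₀ ℕ) k =
        x j ^ (d - 1) * x i := by
    intro x i hi
    have h1 : ∀ k, x k ^ (Finsupp.single j (d - 1) + Finsupp.single i 1 : Fin (N + 1) →₀ ℕ) k =
        x k ^ (Finsupp.single j (d - 1) : Fin (N + 1) →₀ ℕ) k *
          x k ^ (Finsupp.single i 1 : Fin (N + 1) →₀ ℕ) k := by
      intro k
      rw [Finsupp.add_apply, pow_add]
    rw [Finset.prod_congr rfl fun k _ => h1 k, Finset.prod_mul_distrib,
      Finset.prod_eq_single j, Finset.prod_eq_single i, Finsupp.single_eq_same,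
      Finsupp.single_eq_same, pow_one]
    · intro k _ hk
      rw [Finsupp.single_eq_of_ne hk, pow_zero]
    · intro h
      exact absurd (Finset.mem_univ _) h
    · intro k _ hk
      rw [Finsupp.single_eq_of_ne hk, pow_zero]
    · intro h
      exact absurd (Finset.mem_univ _) h
  have hcoeu : ∀ α, ((u α : E) : Λ) = ∏ i, y i ^ α.1 i := by
    intro α
    rw [hu]
    exact map_prod E.val _ _
  have hcoew : ∀ α, ((w α : E) : Λ) = ∏ i, z i ^ α.1 i := by
    intro α
    rw [hw]
    exact map_prod E.val _ _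
  obtain ⟨α₀, hα₀⟩ : ∃ α₀ : {α : Fin (N + 1) →₀ ℕ // α.degree = d},
      α₀.1 = Finsupp.single j d := ⟨⟨_, Finsupp.degree_single _ _⟩, rfl⟩
  have hu0 : u α₀ ≠ 0 := by
    intro h0
    have h1 := hcoeu α₀
    rw [h0, hα₀, hprod1] at h1
    exact pow_ne_zero d hj h1.symm
  have hminor : ∃ α₁, w α₁ * u α₀ ≠ u α₁ * w α₀ := by
    by_contra hall
    push Not at hall
    have hall' : ∀ α : {α : Fin (N + 1) →₀ ℕ // α.degree = d},
        (∏ i, z i ^ α.1 i) * y j ^ d = (∏ i, y i ^ α.1 i) * z j ^ d := by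
      intro α
      have h1 := congrArg (fun t : E => (t : Λ)) (hall α)
      simp only [MulMemClass.coe_mul, hcoeu, hcoew, hα₀, hprod1] at h1
      exact h1
    by_cases hzj : z j = 0
    · refine hyz ?_
      have hz0 : ∀ i, z i = 0 := by
        intro i
        have h1 := hall' ⟨_, Finsupp.degree_single i d⟩
        rw [hprod1, hprod1, hzj, zero_pow (by omega), mul_zero] at h1
        exact pow_eq_zero_iff (by omega) |>.1
          ((mul_eq_zero.1 h1).resolve_right (pow_ne_zero d hj))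
      intro i k
      rw [hz0 i, hz0 k, mul_zero, mul_zero]
    · refine hyz ?_
      have hzi : ∀ i, z i * y j = y i * z j := by
        intro i
        by_cases hij : i = j
        · rw [hij, mul_comm]
        · have hdeg : (Finsupp.single j (d - 1) + Finsupp.single i 1 :
              Fin (N + 1) →₀ ℕ).degree = d := by
            rw [map_add, Finsupp.degree_single, Finsupp.degree_single]
            omega
          have h1 := hall' ⟨_, hdeg⟩
          rw [hprod2 z i hij, hprod2 y i hij] at h1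
          have hds : d = (d - 1) + 1 := by omega
          have h2 : (z j ^ (d - 1) * y j ^ (d - 1)) * (z i * y j) =
              (z j ^ (d - 1) * y j ^ (d - 1)) * (y i * z j) := by
            have e1 : y j ^ d = y j ^ (d - 1) * y j := by
              conv_lhs => rw [hds]
              rw [pow_succ]
            have e2 : z j ^ d = z j ^ (d - 1) * z j := by
              conv_lhs => rw [hds]
              rw [pow_succ]
            rw [e1, e2] at h1
            linear_combination h1
          exact mul_left_cancel₀ (mul_ne_zero (pow_ne_zero _ hzj) (pow_ne_zero _ hj)) h2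
      intro i k
      have h1 := hzi i
      have h2 := hzi k
      refine mul_right_cancel₀ hj ?_
      linear_combination (-y k) * h1 + y i * h2
  obtain ⟨α₁, hα₁⟩ := hminor
  have hr' : r ^ d * ∑ α, u α • b α = ∑ α, w α • b α := by rw [huv, hwv, hr]
  have hmain := core b hbE u w α₀ α₁ hu0 hα₁ r d hd hr'
  -- the two fields
  obtain ⟨E₁, hE₁⟩ : ∃ E₁ : IntermediateField E Λ,
      E₁ = IntermediateField.adjoin E (Set.range b) := ⟨_, rfl⟩
  rw [← hE₁] at hmain
  have hbE₁ : ∀ α, b α ∈ E₁ := fun α => by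
    rw [hE₁]
    exact IntermediateField.subset_adjoin E _ ⟨α, rfl⟩
  have hκ' : ∀ c : κ', algebraMap κ' Λ c ∈ E₁ := by
    intro c
    have hc : c ∈ IntermediateField.adjoin κ₂
        (Set.range fun α : {α : Fin (N + 1) →₀ ℕ // α.degree = d} => P.coeff α.1) := by
      rw [ht]
      exact IntermediateField.mem_top
    refine IntermediateField.adjoin_induction κ₂ (p := fun c _ => algebraMap κ' Λ c ∈ E₁)
      ?_ ?_ ?_ ?_ ?_ hc
    · rintro _ ⟨α, rfl⟩
      rw [← hbdef]
      exact hbE₁ α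
    · intro c
      rw [← IsScalarTower.algebraMap_apply]
      exact E₁.algebraMap_mem (algebraMap κ₂ E c)
    · intro x y _ _ hx hy
      rw [map_add]
      exact add_mem hx hy
    · intro x _ hx
      rw [map_inv₀]
      exact inv_mem hx
    · intro x y _ _ hx hy
      rw [map_mul]
      exact mul_mem hx hy
  have hyE₁ : ∀ i, y i ∈ E₁ := fun i => E₁.algebraMap_mem ⟨y i, hyE i⟩
  obtain ⟨E', hE'⟩ : ∃ E' : IntermediateField κ' Λ,
      E' = IntermediateField.adjoin κ' (Set.range y) := ⟨_, rfl⟩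
  rw [← hE']
  have hle : ∀ x ∈ E', x ∈ E₁ := by
    intro x hx
    rw [hE'] at hx
    refine IntermediateField.adjoin_induction κ' (p := fun c _ => c ∈ E₁) ?_ ?_ ?_ ?_ ?_ hx
    · rintro _ ⟨i, rfl⟩
      exact hyE₁ i
    · exact hκ'
    · intro x y _ _ hx hy
      exact add_mem hx hy
    · intro x _ hx
      exact inv_mem hx
    · intro x y _ _ hx hy
      exact mul_mem hx hy
  obtain ⟨φ, hφ⟩ : ∃ φ : E' →+* E₁, ∀ x, ((φ x : E₁) : Λ) = x :=
    ⟨{ toFun := fun x => ⟨x, hle x x.2⟩
       map_one' := rfl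
       map_mul' := fun _ _ => rfl
       map_zero' := rfl
       map_add' := fun _ _ => rfl }, fun x => rfl⟩
  -- integrality
  have hyE' : ∀ i, y i ∈ E' := fun i => by
    rw [hE']
    exact IntermediateField.subset_adjoin κ' _ ⟨i, rfl⟩
  have hEE' : ∀ x ∈ IntermediateField.adjoin κ₂ (Set.range y), x ∈ E' := by
    intro x hx
    refine IntermediateField.adjoin_induction κ₂ (p := fun c _ => c ∈ E') ?_ ?_ ?_ ?_ ?_ hx
    · rintro _ ⟨i, rfl⟩
      exact hyE' i
    · intro c
      rw [IsScalarTower.algebraMap_apply κ₂ κ' Λ]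
      exact E'.algebraMap_mem _
    · intro x y _ _ hx hy
      exact add_mem hx hy
    · intro x _ hx
      exact inv_mem hx
    · intro x y _ _ hx hy
      exact mul_mem hx hy
  have hev : ∀ x : Fin (N + 1) → Λ, (∀ i, x i ∈ E') →
      MvPolynomial.eval x (MvPolynomial.map (algebraMap κ' Λ) P) ∈ E' := by
    intro x hx
    rw [heval]
    exact sum_mem fun α _ => mul_mem (E'.algebraMap_mem _) (prod_mem fun i _ => pow_mem (hx i) _)
  have hLy := hev y hyE'
  have hLz := hev z fun i => hEE' _ (hz i)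
  have hLy0 : MvPolynomial.eval y (MvPolynomial.map (algebraMap κ' Λ) P) ≠ 0 := by
    intro h0
    rw [← huv] at h0
    have h1 := update_indep b hbE u α₀ hu0
    have h2 := h1.ne_zero α₀
    rw [Function.update_self] at h2
    exact h2 h0
  have hri : IsIntegral E' r := by
    refine IsIntegral.of_pow hd ?_
    have h1 : r ^ d = algebraMap E' Λ (⟨_, hLz⟩ / ⟨_, hLy⟩) := by
      rw [map_div₀]
      show r ^ d = MvPolynomial.eval z (MvPolynomial.map (algebraMap κ' Λ) P) /
        MvPolynomial.eval y (MvPolynomial.map (algebraMap κ' Λ) P)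
      rw [eq_div_iff hLy0, hr]
    rw [h1]
    exact isIntegral_algebraMap
  have hmon := (minpoly.monic hri).map φ
  have hroot : Polynomial.aeval r ((minpoly E' r).map φ) = 0 := by
    have h1 := minpoly.aeval E' r
    rw [Polynomial.aeval_def, Polynomial.eval₂_map]
    rw [Polynomial.aeval_def] at h1
    have h2 : (algebraMap E₁ Λ).comp φ = algebraMap E' Λ := RingHom.ext fun x => hφ x
    rw [h2]
    exact h1
  have hdeg := Polynomial.natDegree_le_natDegree (minpoly.min E₁ r hmon hroot)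
  rw [Polynomial.natDegree_map] at hdeg
  exact hmain.trans hdeg

end Pool.Agent.PNB
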