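import Mathlib
import Pool.Agent.PNB.Defs
import Pool.Agent.PNB.Wt
import Pool.Agent.PNB.EF
import Pool.Agent.PNB.Cntr
import Pool.Agent.PNB.Red
import Pool.Agent.PNB.Lif
import Pool.Agent.PNB.FixB
import Pool.Agent.PNB.GCert
import Pool.Agent.PNB.Idx
import Pool.Agent.PNB.Beta
import Pool.Agent.PNB.Two

set_option autoImplicit false

/-!
# Preperiodic points of the generic morphism of degree `d` of `P^N` have degree at least `d ^ N`
-/

namespace Pool.Agent.PNB

open Pool.Agent.PNH

theorem addc_smul_iter {L : Type} [Field L] {N d : ℕ} (F : Tup N L)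
    (hF : ∀ i, (F i).IsHomogeneous d) (s : L) (x : Fin (N + 1) → L) (n : ℕ) (i : Fin (N + 1)) :
    (app F)^[n] (s • x) i = s ^ d ^ n * (app F)^[n] x i := by
  rw [iter_smul d F hF]
  rfl

/-- Vectors over an intermediate field. -/
theorem par_of_inj {A B : Type} [CommRing A] [CommRing B] {N : ℕ} (f : A →+* B)
    (hf : Function.Injective f) (x y : Fin (N + 1) → A)
    (h : Par (fun i => f (x i)) (fun i => f (y i))) : Par x y := fun i j => hf (by
  rw [map_mul, map_mul]
  exact h i j)

/-- The equation for the coordinate number `0` modulo the maximal ideal. -/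
theorem tie_eq {L Γ Λ : Type} [Field L] [LinearOrderedCommGroupWithZero Γ] [Field Λ]
    (v : Valuation L Γ) (ρ : v.integer →+* Λ) {N d : ℕ} (c : L) (G : Tup (N + 1) v.integer)
    (x z : Fin (N + 1 + 1) → v.integer) (hx0 : ρ (x 0) = 0) (hz0 : ρ (z 0) = 0)
    (h : app (addc d c (mp v.integer.subtype G)) (fun i => (x i : L)) 0 = (z 0 : L)) :
    ∃ w : v.integer, (w : L) = c * (x 0 : L) ^ d ∧
      ρ w = - MvPolynomial.eval (fun i : Fin (N + 1) => ρ (x i.succ))
        (MvPolynomial.map ρ (res (G 0))) := by
  have h1 : app (addc d c (mp v.integer.subtype G)) (fun i => (x i : L)) 0 =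
      ((MvPolynomial.eval x (G 0) : v.integer) : L) + c * (x 0 : L) ^ d := by
    change MvPolynomial.eval (fun i => (x i : L)) (MvPolynomial.map v.integer.subtype (G 0) +
      if (0 : Fin (N + 1 + 1)) = 0 then MvPolynomial.C c * MvPolynomial.X 0 ^ d else 0) = _
    rw [if_pos rfl, map_add, map_mul, map_pow, MvPolynomial.eval_C, MvPolynomial.eval_X]
    congr 1
    exact congrFun (app_mp v.integer.subtype G x) 0
  refine ⟨z 0 - MvPolynomial.eval x (G 0), ?_, ?_⟩
  · rw [AddSubgroupClass.coe_sub, ← h, h1]
    ring
  · rw [map_sub, hz0, zero_sub, map_res, eval_res]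
    congr 1
    have h2 : (Fin.cons 0 (fun i : Fin (N + 1) => ρ (x i.succ)) : Fin (N + 1 + 1) → Λ) =
        fun i => ρ (x i) := by
      funext i
      refine Fin.cases ?_ (fun i => ?_) i
      · rw [Fin.cons_zero, hx0]
      · rw [Fin.cons_succ]
    rw [h2]
    exact (congrFun (app_mp ρ G x) 0).symm

theorem sum_le_pow {d : ℕ} (hd : 2 ≤ d) (n : ℕ) :
    (∑ l ∈ Finset.range n, d ^ (l + 1)) ≤ d ^ (n + 1) := by
  induction n with
  | zero => simp
  | succ n ih =>
    rw [Finset.sum_range_succ]
    calc (∑ l ∈ Finset.range n, d ^ (l + 1)) + d ^ (n + 1) ≤ d ^ (n + 1) + d ^ (n + 1) :=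
          Nat.add_le_add_right ih _
      _ = 2 * d ^ (n + 1) := by ring
      _ ≤ d * d ^ (n + 1) := Nat.mul_le_mul_right _ hd
      _ = d ^ (n + 1 + 1) := by ring

theorem deg_gen {d : ℕ} (hd : 2 ≤ d) (N : ℕ) : ∀ (k κ L : Type) [Field k] [Field κ] [Field L]
    [Algebra k κ] [Algebra κ L] [FiniteDimensional κ L] (F : Tup N κ), IsGen k d F →
    ∀ x : Fin (N + 1) → L, x ≠ 0 → ∀ a b : ℕ, a < b →
      Par ((app (mp (algebraMap κ L) F))^[a] x) ((app (mp (algebraMap κ L) F))^[b] x) →
      (∑ l ∈ Finset.range N, d ^ (l + 1)) ≤ Module.finrank κ L := by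
  have hd1 : 1 ≤ d := by omega
  induction N with
  | zero =>
    intro k κ L _ _ _ _ _ _ F _ x _ a b _ _
    rw [Finset.sum_range_zero]
    exact Nat.zero_le _
  | succ N ih =>
    intro k κ L _ _ _ _ _ _ F hF x₀ hx₀ a b hab hp₀
    obtain ⟨k₁, κ', _, _, _, _, G, hG, hFG, hlow, hcind, hctop, k₂, κ₂, _, _, _, _, φ₂, hφ₂, hφG,
      hbind, hbtop⟩ := split hd1 F hF
    set c := (F 0).coeff (Finsupp.single 0 d) with hc
    have htop' : IntermediateField.adjoin κ' (Set.range fun _ : Unit => c) = ⊤ := by
      rw [Set.range_const]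
      exact hctop
    obtain ⟨Γ, _, v, g, hg, hvc, -, hvk⟩ :=
      exists_wt (M := L) (fun _ : Unit => c) hcind htop' (fun _ => 1)
    have hvc' : v (algebraMap κ L c) = g := by simpa using hvc ()
    let _ : Algebra κ' L := ((algebraMap κ L).comp (algebraMap κ' κ)).toAlgebra
    have hal : algebraMap κ' L = (algebraMap κ L).comp (algebraMap κ' κ) := rfl
    have hk : ∀ a : κ', v (algebraMap κ' L a) ≤ 1 := by
      intro a
      by_cases h : a = 0
      · rw [h, map_zero, map_zero]
        exact zero_le_one
      · exact (hvk a h).le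
    set FL := mp (algebraMap κ L) F with hFL
    have hFLh : ∀ i, (FL i).IsHomogeneous d := hom_mp d _ F hF.hom
    have hFL0 : ∀ z, app FL z = 0 → z = 0 := gen_zero hd1 F hF
    have hFLG : FL = addc d (algebraMap κ L c) (mp (algebraMap κ' L) G) := by
      rw [hFL, hFG, mp_addc, mp_mp, hal]
    have hcoef : ∀ (i : Fin (N + 1 + 1)) (α : Fin (N + 1 + 1) →₀ ℕ),
        (FL i).coeff α = algebraMap κ' L ((G i).coeff α) +
          if i = 0 ∧ Finsupp.single 0 d = α then algebraMap κ L c else 0 := by
      intro i α
      rw [hFLG]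
      unfold addc mp
      rw [MvPolynomial.coeff_add, MvPolynomial.coeff_map]
      congr 1
      by_cases hi : i = 0
      · rw [if_pos hi, MvPolynomial.coeff_C_mul, MvPolynomial.coeff_X_pow]
        by_cases hα : Finsupp.single 0 d = α
        · rw [if_pos hα, mul_one, if_pos ⟨hi, hα⟩]
        · rw [if_neg hα, mul_zero, if_neg fun h => hα h.2]
      · rw [if_neg hi, MvPolynomial.coeff_zero, if_neg fun h => hi h.1]
    have hsC : ∀ (i : Fin (N + 1 + 1)) (α : Fin (N + 1 + 1) →₀ ℕ),
        (i = 0 → α ≠ Finsupp.single 0 d) → v ((FL i).coeff α) ≤ 1 := by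
      intro i α hi
      rw [hcoef, if_neg, add_zero]
      · exact hk _
      · rintro ⟨h1, h2⟩
        exact hi h1 h2.symm
    have hcC : v ((FL 0).coeff (Finsupp.single 0 d)) = g := by
      have : (FL 0).coeff (Finsupp.single 0 d) = algebraMap κ L c := by
        rw [hFL]
        unfold mp
        rw [MvPolynomial.coeff_map]
      rw [this, hvc']
    -- pass to a periodic point
    set x := (app FL)^[a] x₀ with hxdef
    have hx : x ≠ 0 := iter_ne_zero FL hFL0 a hx₀
    obtain ⟨m, hm, hp⟩ : ∃ m, 1 ≤ m ∧ Par ((app FL)^[m] x) x := by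
      refine ⟨b - a, by omega, ?_⟩
      rw [hxdef, ← Function.iterate_add_apply, Nat.sub_add_cancel hab.le]
      exact hp₀.symm
    by_cases hbig : ∃ n : ℕ, ∀ j, v ((app FL)^[n] x j) ^ d < g * v ((app FL)^[n] x 0) ^ d
    · obtain ⟨n, hn⟩ := hbig
      have hy0 : (app FL)^[n] x ≠ 0 := iter_ne_zero FL hFL0 n hx
      have hper : Par ((app FL)^[m] ((app FL)^[n] x)) ((app FL)^[n] x) := by
        have h1 := Par.iter FL hFLh (iter_ne_zero FL hFL0 m hx) hp n
        rw [← Function.iterate_add_apply] at h1 ⊢
        rwa [add_comm m n]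
      have hfix := fixed_of_big v g hg hd1 FL hFLh hcC hsC _ hn m hm hper
      refine le_trans ?_ (fix_deg hd F hF _ hy0 hfix)
      rw [Finset.sum_range_succ' (fun l => d ^ l)]
      exact Nat.le_add_right _ _
    · push Not at hbig
      -- a primitive representative
      obtain ⟨i₀, hi₀⟩ : ∃ i, ∀ k, v (x k) ≤ v (x i) := by
        obtain ⟨i, -, hi⟩ := Finset.exists_max_image Finset.univ (fun k => v (x k))
          ⟨0, Finset.mem_univ _⟩
        exact ⟨i, fun k => hi k (Finset.mem_univ k)⟩
      have hs0 : x i₀ ≠ 0 := by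
        intro h
        refine hx (funext fun k => ?_)
        have := hi₀ k
        rw [h, map_zero] at this
        exact (v.zero_iff).1 (le_antisymm this zero_le)
      set s := (x i₀)⁻¹ with hs
      have hs1 : s ≠ 0 := inv_ne_zero hs0
      set x' := s • x with hx'
      have hx'i : x' i₀ = 1 := by
        rw [hx', Pi.smul_apply, smul_eq_mul, hs, inv_mul_cancel₀ hs0]
      have hx'le : ∀ i, v (x' i) ≤ 1 := by
        intro i
        rw [hx', Pi.smul_apply, smul_eq_mul, map_mul, hs, map_inv₀, mul_comm, ← div_eq_mul_inv]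
        exact (div_le_one₀ (zero_lt_iff.2 ((Valuation.ne_zero_iff v).2 hs0))).2 (hi₀ i)
      have hnb : ∀ n : ℕ, ∃ j, g * v ((app FL)^[n] x' 0) ^ d ≤ v ((app FL)^[n] x' j) ^ d := by
        intro n
        obtain ⟨j, hj⟩ := hbig n
        refine ⟨j, ?_⟩
        rw [hx', addc_smul_iter FL hFLh, addc_smul_iter FL hFLh, map_mul, map_mul, mul_pow,
          mul_pow, mul_left_comm]
        exact mul_le_mul_right hj _
      have hpx : Par ((app FL)^[m] x') x' := by
        rw [hx', iter_smul d FL hFLh]
        exact (hp.smul_left _).smul_right _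
      have hx'0 : v (x' 0) < 1 := by
        obtain ⟨j, hj⟩ := hnb 0
        by_contra h
        rw [not_lt] at h
        have h1 : g ≤ g * v (x' 0) ^ d := le_mul_of_one_le_right' (one_le_pow₀ h)
        have h2 : v (x' j) ^ d ≤ 1 := pow_le_one₀ zero_le (hx'le j)
        exact absurd (hg.trans_le (h1.trans (hj.trans h2))) (lt_irrefl _)
      obtain ⟨j₀, rfl⟩ : ∃ j : Fin (N + 1), i₀ = j.succ := by
        refine ⟨i₀.pred ?_, (Fin.succ_pred _ _).symm⟩
        rintro rfl
        rw [hx'i, map_one] at hx'0
        exact lt_irrefl _ hx'0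
      -- the residue field
      obtain ⟨Λ, _, _, ρ, hρs, hρ, hρc⟩ := exists_rho v hk
      set xv : Fin (N + 1 + 1) → v.integer := fun i => ⟨x' i, hx'le i⟩ with hxv
      set θ : κ' →+* v.integer := (algebraMap κ' L).codRestrict v.integer hk with hθ
      have hθρ : ρ.comp θ = algebraMap κ' Λ := RingHom.ext fun a => hρc a
      have hθs : v.integer.subtype.comp θ = algebraMap κ' L := RingHom.ext fun a => rfl
      set Gv : Tup (N + 1) v.integer := mp θ G with hGv
      have hGvh : ∀ i, (Gv i).IsHomogeneous d := hom_mp d _ G hG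
      have hGvL : addc d (algebraMap κ L c) (mp v.integer.subtype Gv) = FL := by
        rw [hGv, mp_mp, hθs, hFLG]
      have hGvρ : mp ρ (low Gv) = mp (algebraMap κ' Λ) (low G) := by
        rw [hGv, ← mp_low, mp_mp, hθρ]
      have hGvP : MvPolynomial.map ρ (res (Gv 0)) =
          MvPolynomial.map (algebraMap κ' Λ) (res (G 0)) := by
        change MvPolynomial.map ρ (res (MvPolynomial.map θ (G 0))) = _
        rw [← map_res, MvPolynomial.map_map, hθρ]
      have hφ0 : ∀ y : Fin (N + 1) → Λ, app (mp ρ (low Gv)) y = 0 → y = 0 := by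
        rw [hGvρ]
        exact gen_zero hd1 (low G) hlow
      have hxv1 : ρ (xv j₀.succ) = 1 := by
        have : xv j₀.succ = 1 := Subtype.ext hx'i
        rw [this, map_one]
      have hxv0 : ρ (xv 0) = 0 := (hρ _).2 hx'0
      obtain ⟨hred, htie⟩ := red v ρ hρ g hg hd1 (algebraMap κ L c) hvc' Gv
        hGvh hφ0 xv hxv0 ⟨j₀, by rw [hxv1]; exact one_ne_zero⟩
        (by rw [hGvL]; exact hnb)
      set φL := mp (algebraMap κ' Λ) (low G) with hφL
      have hφLh : ∀ i, (φL i).IsHomogeneous d := hom_mp d _ _ hlow.hom
      have hφL0 : ∀ y, app φL y = 0 → y = 0 := gen_zero hd1 (low G) hlow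
      set y : Fin (N + 1) → Λ := fun i => ρ (xv i.succ) with hy
      have hyj : y j₀ = 1 := hxv1
      have hy0 : y ≠ 0 := by
        intro h
        have := congrFun h j₀
        rw [hyj] at this
        exact one_ne_zero this
      have hyp : Par ((app φL)^[m] y) y := by
        obtain ⟨z, hz, -, hz'⟩ := hred m
        rw [hGvρ] at hz'
        rw [← hz']
        have h1 : Par z xv := by
          refine par_of_inj v.integer.subtype Subtype.val_injective z xv ?_
          have h2 := hpx
          have e1 : (app FL)^[m] x' = fun i => (z i : L) := by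
            rw [← hGvL]
            exact hz
          rw [e1] at h2
          exact h2
        intro i j
        change ρ (z i.succ) * ρ (xv j.succ) = ρ (z j.succ) * ρ (xv i.succ)
        rw [← map_mul, ← map_mul, h1 i.succ j.succ]
      have hnz : ∀ w : Fin (N + 1) → Λ, w ≠ 0 → Par ((app φL)^[m] w) w →
          MvPolynomial.eval w (MvPolynomial.map (algebraMap κ' Λ) (res (G 0))) ≠ 0 := by
        intro w hw hpw
        refine beta hd φ₂ hφ₂ (res (G 0)) (hom_res _ (hG 0)) hbind w hw 0 m (by omega) ?_
        rw [hφG]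
        exact hpw.symm
      have hval := hnz y hy0 hyp
      have htie' : v (x' 0) ^ d * g = 1 := by
        refine htie ?_
        rw [hGvP]
        exact hval
      -- the residue degree
      have halg : ∀ i, IsAlgebraic κ' (y i) :=
        gen_alg hd (low G) hlow y ⟨j₀, hyj⟩ 0 m (by omega) hyp.symm
      set E := IntermediateField.adjoin κ' (Set.range y) with hE
      have hEfin : FiniteDimensional κ' E := by
        refine IntermediateField.finiteDimensional_adjoin ?_
        rintro _ ⟨i, rfl⟩
        exact (halg i).isIntegral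
      set yE : Fin (N + 1) → E := fun i =>
        ⟨y i, IntermediateField.subset_adjoin κ' _ ⟨i, rfl⟩⟩ with hyE
      have hyE0 : yE ≠ 0 := by
        intro h
        have h1 : (yE j₀ : Λ) = 0 := by rw [h]; rfl
        change y j₀ = 0 at h1
        rw [hyj] at h1
        exact one_ne_zero h1
      have hφE : φL = mp (algebraMap E Λ) (mp (algebraMap κ' E) (low G)) := by
        rw [mp_mp, ← IsScalarTower.algebraMap_eq]
      have hef : ∀ (E' : IntermediateField κ' Λ) [FiniteDimensional κ' E'],
          d * Module.finrank κ' E' ≤ Module.finrank κ L := by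
        intro E' _
        obtain ⟨u, hu⟩ := exists_lift v hk ρ hρs hρ hρc E'
        exact ef v c hctop (by rw [hvc']; exact hg) hvk d hd1 (x' 0)
          (by rw [hvc']; exact htie') (Module.finrank κ' E') u hu
      by_cases hfix : Par (app φL y) y
      · -- the reduction is fixed
        have hfE : Par (app (mp (algebraMap κ' E) (low G)) yE) yE := by
          refine par_of_inj (algebraMap E Λ) (algebraMap E Λ).injective _ _ ?_
          rw [← app_mp, ← hφE]
          exact hfix
        have h1 := fix_deg hd (low G) hlow yE hyE0 hfE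
        calc (∑ l ∈ Finset.range (N + 1), d ^ (l + 1)) =
              d * ∑ l ∈ Finset.range (N + 1), d ^ l := by
              rw [Finset.mul_sum]
              exact Finset.sum_congr rfl fun l _ => by ring
          _ ≤ d * Module.finrank κ' E := Nat.mul_le_mul_left d h1
          _ ≤ Module.finrank κ L := hef E
      · -- the reduction is not fixed
        have hN : 1 ≤ N := by
          by_contra hN
          have hN0 : N = 0 := by omega
          subst hN0
          refine hfix fun i j => ?_
          have hij : i = j := Fin.ext (by omega)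
          rw [hij]
        have hih : d ^ N ≤ Module.finrank κ' E := by
          have h1 := ih k₁ κ' E (low G) hlow yE hyE0 0 m (by omega) (by
            refine par_of_inj (algebraMap E Λ) (algebraMap E Λ).injective _ _ ?_
            rw [← iter_mp, ← iter_mp, ← hφE]
            exact hyp.symm)
          refine le_trans ?_ h1
          obtain ⟨M, rfl⟩ : ∃ M, N = M + 1 := ⟨N - 1, by omega⟩
          exact Finset.single_le_sum (f := fun l => d ^ (l + 1)) (fun _ _ => Nat.zero_le _)
            (Finset.mem_range.2 (Nat.lt_succ_self M))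
        -- the two equations
        obtain ⟨z₁, hz₁, hz₁0, hz₁'⟩ := hred 1
        obtain ⟨z₂, hz₂, hz₂0, -⟩ := hred 2
        rw [Function.iterate_one] at hz₁ hz₁'
        rw [hGvρ] at hz₁'
        obtain ⟨w₁, hw₁, hw₁'⟩ := tie_eq v ρ (d := d) (algebraMap κ L c) Gv xv z₁ hxv0 hz₁0
          (congrFun hz₁ 0)
        obtain ⟨w₂, hw₂, hw₂'⟩ := tie_eq v ρ (d := d) (algebraMap κ L c) Gv z₁ z₂ hz₁0 hz₂0 (by
          have h1 := congrFun hz₂ 0
          rw [Function.iterate_succ_apply, Function.iterate_one, hz₁] at h1
          exact h1)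
        have hz₁s : (fun i : Fin (N + 1) => ρ (z₁ i.succ)) = app φL y := hz₁'
        rw [hz₁s, hGvP] at hw₂'
        rw [hGvP] at hw₁'
        have hzp : Par ((app φL)^[m] (app φL y)) (app φL y) := by
          have h1 := Par.iter φL hφLh (iter_ne_zero φL hφL0 m hy0) hyp 1
          rw [Function.iterate_one] at h1
          rw [← Function.iterate_succ_apply, Function.iterate_succ_apply']
          exact h1
        have hz0 : app φL y ≠ 0 := fun h => hy0 (hφL0 y h)
        have hval₂ := hnz _ hz0 hzp
        have hx'00 : (xv 0 : L) ≠ 0 := by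
          intro h
          have h1 : v (x' 0) = 0 := by
            change x' 0 = 0 at h
            rw [h, map_zero]
          rw [h1, zero_pow (by omega), zero_mul] at htie'
          exact zero_ne_one htie'
        have hcL0 : algebraMap κ L c ≠ 0 := by
          intro h
          rw [h, map_zero] at hvc'
          rw [← hvc'] at hg
          exact absurd hg (not_lt.2 zero_le_one)
        have hvw₁ : v (w₁ : L) = 1 := by
          rw [hw₁, map_mul, map_pow, hvc', mul_comm]
          exact htie'
        have hvw₂ : v (w₂ : L) = 1 := by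
          refine le_antisymm w₂.2 (not_lt.1 fun h => ?_)
          have h1 := (hρ w₂).2 h
          rw [hw₂', neg_eq_zero] at h1
          exact hval₂ h1
        have hr1 : v ((z₁ 0 : L) / (xv 0 : L)) ^ d = 1 := by
          have h1 : v ((z₁ 0 : L) / (xv 0 : L)) ^ d = v (w₂ : L) / v (w₁ : L) := by
            rw [hw₁, hw₂, ← map_pow, ← map_div₀, div_pow, mul_div_mul_left _ _ hcL0]
          rw [h1, hvw₁, hvw₂, div_one]
        have hr1' : v ((z₁ 0 : L) / (xv 0 : L)) = 1 := by
          rcases lt_trichotomy (v ((z₁ 0 : L) / (xv 0 : L))) 1 with h | h | h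
          · exact absurd hr1 (pow_lt_one₀ zero_le h (by omega)).ne
          · exact h
          · exact absurd hr1 (one_lt_pow₀ h (by omega)).ne'
        set r₀ : v.integer := ⟨(z₁ 0 : L) / (xv 0 : L), hr1'.le⟩ with hr₀
        have hrw : r₀ ^ d * w₁ = w₂ := by
          refine Subtype.ext ?_
          change ((z₁ 0 : L) / (xv 0 : L)) ^ d * (w₁ : L) = (w₂ : L)
          rw [hw₁, hw₂, div_pow]
          field_simp
        have hr : ρ r₀ ^ d * MvPolynomial.eval y (MvPolynomial.map (algebraMap κ' Λ) (res (G 0))) =
            MvPolynomial.eval (app φL y)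
              (MvPolynomial.map (algebraMap κ' Λ) (res (G 0))) := by
          have h1 := congrArg ρ hrw
          rw [map_mul, map_pow, hw₁', hw₂'] at h1
          linear_combination -h1
        -- the extension by `r`
        let _ : Algebra κ₂ Λ := ((algebraMap κ' Λ).comp (algebraMap κ₂ κ')).toAlgebra
        have : IsScalarTower κ₂ κ' Λ := IsScalarTower.of_algebraMap_eq fun _ => rfl
        have hφ2 : φL = mp (algebraMap κ₂ Λ) φ₂ := by
          rw [hφL, ← hφG, mp_mp]
          rfl
        have halg₂ : ∀ i, IsAlgebraic κ₂ (y i) := by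
          refine gen_alg hd φ₂ hφ₂ y ⟨j₀, hyj⟩ 0 m (by omega) ?_
          rw [← hφ2]
          exact hyp.symm
        have hzmem : ∀ i, app φL y i ∈ IntermediateField.adjoin κ₂ (Set.range y) := by
          intro i
          have h1 : app φL y = fun i => algebraMap (IntermediateField.adjoin κ₂ (Set.range y)) Λ
              (app (mp (algebraMap κ₂ (IntermediateField.adjoin κ₂ (Set.range y))) φ₂)
                (fun i => ⟨y i, IntermediateField.subset_adjoin κ₂ _ ⟨i, rfl⟩⟩) i) := by
            rw [← app_mp, mp_mp, ← IsScalarTower.algebraMap_eq, ← hφ2]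
            rfl
          rw [h1]
          exact Subtype.mem _
        have hdeg := two hd1 (res (G 0)) (hom_res _ (hG 0)) hbind hbtop y (app φL y) halg₂ hzmem
          (fun h => hfix h.symm) (ρ r₀) hr
        have hint : IsIntegral E (ρ r₀) := by
          refine IsIntegral.of_pow (n := d) (by omega) ?_
          have hA : ∀ w : Fin (N + 1) → Λ, (∀ i, w i ∈ E) →
              MvPolynomial.eval w (MvPolynomial.map (algebraMap κ' Λ) (res (G 0))) ∈ E := by
            intro w hw
            rw [MvPolynomial.eval_map, MvPolynomial.eval₂_eq']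
            exact sum_mem fun α _ => mul_mem (E.algebraMap_mem _)
              (prod_mem fun i _ => pow_mem (hw i) _)
          have hyE' : ∀ i, y i ∈ E := fun i => (yE i).2
          have hzE : ∀ i, app φL y i ∈ E := by
            intro i
            change MvPolynomial.eval y (MvPolynomial.map (algebraMap κ' Λ) (low G i)) ∈ E
            rw [MvPolynomial.eval_map, MvPolynomial.eval₂_eq']
            exact sum_mem fun α _ => mul_mem (E.algebraMap_mem _)
              (prod_mem fun i _ => pow_mem (hyE' i) _)
          have h1 : ρ r₀ ^ d ∈ E := by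
            have h2 : ρ r₀ ^ d = MvPolynomial.eval (app φL y)
                (MvPolynomial.map (algebraMap κ' Λ) (res (G 0))) /
                MvPolynomial.eval y (MvPolynomial.map (algebraMap κ' Λ) (res (G 0))) := by
              rw [← hr, mul_div_assoc, div_self hval, mul_one]
            rw [h2]
            exact div_mem (hA _ hzE) (hA _ hyE')
          exact isIntegral_algebraMap (x := (⟨_, h1⟩ : E))
        have hfinr : FiniteDimensional E (IntermediateField.adjoin E {ρ r₀}) :=
          IntermediateField.adjoin.finiteDimensional hint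
        set E' := (IntermediateField.adjoin E {ρ r₀}).restrictScalars κ' with hE'
        have hE'fin : FiniteDimensional κ' E' :=
          FiniteDimensional.trans κ' E (IntermediateField.adjoin E {ρ r₀})
        have hdeg2 : Module.finrank κ' E' = Module.finrank κ' E *
            Module.finrank E (IntermediateField.adjoin E {ρ r₀}) :=
          (Module.finrank_mul_finrank κ' E (IntermediateField.adjoin E {ρ r₀})).symm
        rw [IntermediateField.adjoin.finrank hint] at hdeg2
        calc (∑ l ∈ Finset.range (N + 1), d ^ (l + 1)) ≤ d ^ (N + 1 + 1) := sum_le_pow hd (N + 1)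
          _ = d * (d ^ N * d) := by ring
          _ ≤ d * Module.finrank κ' E' := by
            rw [hdeg2]
            exact Nat.mul_le_mul_left d (Nat.mul_le_mul hih hdeg)
          _ ≤ Module.finrank κ L := hef E'

end Pool.Agent.PNB
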