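import Mathlib
import Pool.Agent.PNB.Defs
import Pool.Agent.PNB.Ind
import Pool.Agent.PNH.Emb
import Pool.Agent.PNH.UniO

set_option autoImplicit false

/-!
# The generic tuple with coefficients in a lattice is a generic tuple over a field
-/

namespace Pool.Agent.PNB

open NumberField
open Pool.Agent.PNH
open Pool.Agent.LIM (GF)

namespace AllB

section poly

variable {K : Type} [Field K] [NumberField K] {J : Type} {r m : ℕ} (ω : Fin m → 𝓞 K)
  (e : Fin r ≃ J × Fin m) (j₀ : Fin m)

/-- The other variables. -/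
abbrev Oth : Type := {t : Fin r // (e t).2 ≠ j₀}

/-- The new generators. -/
noncomputable def Psi : MvPolynomial (J ⊕ Oth e j₀) (𝓞 K) →ₐ[𝓞 K] MvPolynomial (Fin r) (𝓞 K) :=
  MvPolynomial.aeval (Sum.elim
    (fun p => ∑ j : Fin m, MvPolynomial.C (ω j) * MvPolynomial.X (e.symm (p, j)))
    (fun t => MvPolynomial.X t.1))

omit [NumberField K] in
theorem Psi_injective (h0 : ω j₀ ≠ 0) : Function.Injective (Psi ω e j₀) := by
  classical
  set Y : Fin r → MvPolynomial (J ⊕ Oth e j₀) K := fun t =>
    if h : (e t).2 ≠ j₀ then MvPolynomial.X (Sum.inr ⟨t, h⟩) else 0 with hY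
  set Z : Fin r → MvPolynomial (J ⊕ Oth e j₀) K := fun t =>
    if (e t).2 = j₀ then MvPolynomial.C (algebraMap (𝓞 K) K (ω j₀))⁻¹ *
      (MvPolynomial.X (Sum.inl (e t).1) - ∑ j ∈ Finset.univ.erase j₀,
        MvPolynomial.C (algebraMap (𝓞 K) K (ω j)) * Y (e.symm ((e t).1, j))) else Y t with hZ
  set Φ : MvPolynomial (Fin r) (𝓞 K) →+* MvPolynomial (J ⊕ Oth e j₀) K :=
    MvPolynomial.eval₂Hom (MvPolynomial.C.comp (algebraMap (𝓞 K) K)) Z with hΦ
  have hω : algebraMap (𝓞 K) K (ω j₀) ≠ 0 := fun h => h0 (RingOfIntegers.coe_injective h)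
  have key : Φ.comp (Psi ω e j₀).toRingHom = MvPolynomial.map (algebraMap (𝓞 K) K) := by
    refine MvPolynomial.ringHom_ext (fun a => ?_) (fun i => ?_)
    · simp [Psi, hΦ]
    · rcases i with p | t
      · have h1 : Φ (Psi ω e j₀ (MvPolynomial.X (Sum.inl p))) =
            ∑ j : Fin m, MvPolynomial.C (algebraMap (𝓞 K) K (ω j)) * Z (e.symm (p, j)) := by
          simp [Psi, hΦ]
        have h2 : Z (e.symm (p, j₀)) = MvPolynomial.C (algebraMap (𝓞 K) K (ω j₀))⁻¹ *
            (MvPolynomial.X (Sum.inl p) - ∑ j ∈ Finset.univ.erase j₀,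
            MvPolynomial.C (algebraMap (𝓞 K) K (ω j)) * Y (e.symm (p, j))) := by
          rw [hZ]
          simp only [Equiv.apply_symm_apply, if_true]
        have h3 : ∀ j ∈ Finset.univ.erase j₀, Z (e.symm (p, j)) = Y (e.symm (p, j)) := by
          intro j hj
          rw [hZ]
          simp only [Equiv.apply_symm_apply]
          rw [if_neg (Finset.ne_of_mem_erase hj)]
        have h4 : ∑ j ∈ Finset.univ.erase j₀,
            MvPolynomial.C (algebraMap (𝓞 K) K (ω j)) * Z (e.symm (p, j)) =
            ∑ j ∈ Finset.univ.erase j₀,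
            MvPolynomial.C (algebraMap (𝓞 K) K (ω j)) * Y (e.symm (p, j)) :=
          Finset.sum_congr rfl fun j hj => by rw [h3 j hj]
        change Φ (Psi ω e j₀ (MvPolynomial.X (Sum.inl p))) = _
        rw [h1, ← Finset.add_sum_erase _ _ (Finset.mem_univ j₀), h2, h4, ← mul_assoc,
          ← MvPolynomial.C_mul, mul_inv_cancel₀ hω, MvPolynomial.C_1, one_mul,
          sub_add_cancel, MvPolynomial.map_X]
      · have h1 : Φ (Psi ω e j₀ (MvPolynomial.X (Sum.inr t))) = Z t.1 := by
          simp [Psi, hΦ]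
        change Φ (Psi ω e j₀ (MvPolynomial.X (Sum.inr t))) = _
        rw [h1, hZ]
        simp only
        rw [if_neg t.2, hY]
        simp only
        rw [dif_pos t.2, MvPolynomial.map_X]
  intro P Q hPQ
  have h1 := RingHom.congr_fun key P
  have h2 := RingHom.congr_fun key Q
  refine MvPolynomial.map_injective (algebraMap (𝓞 K) K) RingOfIntegers.coe_injective ?_
  rw [← h1, ← h2]
  exact congrArg Φ hPQ

end poly

section field

variable {K : Type} [Field K] [NumberField K] {N d r m : ℕ} (ω : Fin m → 𝓞 K)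
  (e : Fin r ≃ (Fin (N + 1) × {α : Fin (N + 1) →₀ ℕ // α.degree = d}) × Fin m)

/-- The generic member is a generic tuple over the field generated by the other parameters. -/
theorem exists_isGen (hω : ∃ j, ω j ≠ 0) :
    ∃ (k : Type) (_ : Field k) (_ : Algebra k (GF r K)), IsGen k d (gen (univO ω e)) := by
  classical
  obtain ⟨j₀, hj₀⟩ := hω
  let F := FractionRing (𝓞 K)
  let _ : Algebra F (GF r K) := FractionRing.liftAlgebra (𝓞 K) (GF r K)
  set A := MvPolynomial (Fin r) (𝓞 K) with hA
  set a : Ix N d → GF r K := co d (gen (univO ω e)) with ha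
  set s : Oth e j₀ → GF r K := fun t => algebraMap A (GF r K) (MvPolynomial.X t.1) with hs
  have hap : ∀ p, a p = ∑ j : Fin m, algebraMap (𝓞 K) (GF r K) (ω j) *
      algebraMap A (GF r K) (MvPolynomial.X (e.symm (p, j))) := by
    intro p
    rw [ha]
    unfold co gen mp
    rw [MvPolynomial.coeff_map, UniO.coeff_univO, map_sum]
    refine Finset.sum_congr rfl fun j _ => ?_
    rw [map_mul]
    rfl
  have hind0 : AlgebraicIndependent (𝓞 K) (Sum.elim a s) := by
    have h1 : MvPolynomial.aeval (R := 𝓞 K) (Sum.elim a s) =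
        (IsScalarTower.toAlgHom (𝓞 K) A (GF r K)).comp (Psi ω e j₀) := by
      refine MvPolynomial.algHom_ext fun i => ?_
      rcases i with p | t
      · rw [MvPolynomial.aeval_X, Sum.elim_inl, hap]
        simp only [AlgHom.comp_apply, Psi, MvPolynomial.aeval_X, Sum.elim_inl, map_sum, map_mul]
        rfl
      · rw [MvPolynomial.aeval_X, Sum.elim_inr]
        simp only [AlgHom.comp_apply, Psi, MvPolynomial.aeval_X, Sum.elim_inr]
        rfl
    rw [AlgebraicIndependent, h1]
    exact (IsFractionRing.injective A (GF r K)).comp (Psi_injective ω e j₀ hj₀)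
  have : Algebra.IsAlgebraic (𝓞 K) F := IsLocalization.isAlgebraic F (nonZeroDivisors (𝓞 K))
  have hind1 : AlgebraicIndependent F (Sum.elim a s) := hind0.extendScalars F
  have hind2 := (IntermediateField.algebraicIndependent_adjoin_iff
    (F := F) (E := GF r K) (s := Set.range s) (x := a)).2
    (AlgebraicIndependent.sumElim_iff.1 hind1).2
  refine ⟨IntermediateField.adjoin F (Set.range s), inferInstance, inferInstance,
    fun i => hom_mp d _ _ (UniO.hom_univO ω e) i, hind2, ?_⟩
  set T := IntermediateField.adjoin (IntermediateField.adjoin F (Set.range s)) (Set.range a)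
    with hT
  have hkT : ∀ x : GF r K, x ∈ IntermediateField.adjoin F (Set.range s) → x ∈ T :=
    fun x hx => T.algebraMap_mem ⟨x, hx⟩
  have hC : ∀ c : 𝓞 K, algebraMap (𝓞 K) (GF r K) c ∈ T := by
    intro c
    refine hkT _ ?_
    rw [IsScalarTower.algebraMap_apply (𝓞 K) F (GF r K)]
    exact IntermediateField.algebraMap_mem _ _
  have haT : ∀ p, a p ∈ T := fun p => IntermediateField.subset_adjoin _ _ ⟨p, rfl⟩
  have hXo : ∀ t : Fin r, (e t).2 ≠ j₀ → algebraMap A (GF r K) (MvPolynomial.X t) ∈ T := by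
    intro t ht
    exact hkT _ (IntermediateField.subset_adjoin _ _ ⟨⟨t, ht⟩, rfl⟩)
  have hω0 : algebraMap (𝓞 K) (GF r K) (ω j₀) ≠ 0 := by
    intro h0
    rw [← map_zero (algebraMap (𝓞 K) (GF r K))] at h0
    exact hj₀ (FaithfulSMul.algebraMap_injective (𝓞 K) (GF r K) h0)
  have hX : ∀ t : Fin r, algebraMap A (GF r K) (MvPolynomial.X t) ∈ T := by
    intro t
    by_cases ht : (e t).2 = j₀
    · have h1 := hap (e t).1
      rw [← Finset.add_sum_erase _ _ (Finset.mem_univ j₀)] at h1
      have h2 : e.symm ((e t).1, j₀) = t := by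
        rw [← ht]
        exact e.symm_apply_apply t
      rw [h2] at h1
      have h3 : algebraMap A (GF r K) (MvPolynomial.X t) =
          (a (e t).1 - ∑ j ∈ Finset.univ.erase j₀, algebraMap (𝓞 K) (GF r K) (ω j) *
            algebraMap A (GF r K) (MvPolynomial.X (e.symm ((e t).1, j)))) /
            algebraMap (𝓞 K) (GF r K) (ω j₀) := by
        rw [eq_div_iff hω0, h1]
        ring
      rw [h3]
      refine div_mem (sub_mem (haT _) (sum_mem fun j hj => mul_mem (hC _) (hXo _ ?_))) (hC _)
      rw [Equiv.apply_symm_apply]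
      exact Finset.ne_of_mem_erase hj
    · exact hXo t ht
  have hp : ∀ p : A, algebraMap A (GF r K) p ∈ T := by
    intro p
    induction p using MvPolynomial.induction_on with
    | C c => exact hC c
    | add p q hp hq =>
      rw [map_add]
      exact add_mem hp hq
    | mul_X p t hp =>
      rw [map_mul]
      exact mul_mem hp (hX t)
  rw [eq_top_iff]
  intro x _
  obtain ⟨p, q, -, rfl⟩ := IsFractionRing.div_surjective (A := A) x
  exact div_mem (hp p) (hp q)

end field

end AllB

/-- The generic tuple with coefficients in a lattice has no preperiodic point of degree less than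
`d + d ^ 2 + … + d ^ N`. -/
theorem univO_nopreB {K : Type} [Field K] [NumberField K] {N d r m : ℕ} (ω : Fin m → 𝓞 K)
    (hω : ∃ j, ω j ≠ 0) (hd : 2 ≤ d) (D : ℕ) (hD : D < ∑ l ∈ Finset.range N, d ^ (l + 1))
    (e : Fin r ≃ (Fin (N + 1) × {α : Fin (N + 1) →₀ ℕ // α.degree = d}) × Fin m) :
    Pre (GF r K) D (gen (univO ω e)) = ∅ := by
  rw [Set.eq_empty_iff_forall_notMem]
  rintro x ⟨hnrm, ⟨θ, hθ, hxθ⟩, a, b, hab, hp⟩
  obtain ⟨k, _, _, hgen⟩ := AllB.exists_isGen ω e hω
  have hint : IsIntegral (GF r K) θ := Algebra.IsIntegral.isIntegral θ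
  have hfin : FiniteDimensional (GF r K) (IntermediateField.adjoin (GF r K) {θ}) :=
    IntermediateField.adjoin.finiteDimensional hint
  set y : Fin (N + 1) → IntermediateField.adjoin (GF r K) {θ} := fun i => ⟨x i, hxθ i⟩ with hy
  have hy0 : y ≠ 0 := by
    intro h0
    refine hnrm.ne_zero (funext fun i => ?_)
    exact congrArg Subtype.val (congrFun h0 i)
  have hit : ∀ n, (app (mp (algebraMap (GF r K) (AlgebraicClosure (GF r K)))
      (gen (univO ω e))))^[n] x = fun i => algebraMap (IntermediateField.adjoin (GF r K) {θ}) _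
        ((app (mp (algebraMap (GF r K) (IntermediateField.adjoin (GF r K) {θ}))
          (gen (univO ω e))))^[n] y i) := by
    intro n
    rw [← iter_mp, mp_mp, ← IsScalarTower.algebraMap_eq]
    rfl
  have hpar : Par ((app (mp (algebraMap (GF r K) (IntermediateField.adjoin (GF r K) {θ}))
      (gen (univO ω e))))^[a] y)
      ((app (mp (algebraMap (GF r K) (IntermediateField.adjoin (GF r K) {θ}))
      (gen (univO ω e))))^[b] y) := by
    intro i j
    apply (algebraMap (IntermediateField.adjoin (GF r K) {θ})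
      (AlgebraicClosure (GF r K))).injective
    have h1 := hp i j
    rw [hit a, hit b] at h1
    rw [map_mul, map_mul]
    exact h1
  have h1 := deg_gen hd N k (GF r K) (IntermediateField.adjoin (GF r K) {θ}) (gen (univO ω e))
    hgen y hy0 a b hab hpar
  rw [IntermediateField.adjoin.finrank hint] at h1
  omega

/-- The tuple with integral coefficients as a special case. -/
theorem AllB.univ_eq {K : Type} [Field K] {N d r : ℕ}
    (e : Fin r ≃ Fin (N + 1) × {α : Fin (N + 1) →₀ ℕ // α.degree = d}) :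
    (univ e : Tup N (MvPolynomial (Fin r) (𝓞 K))) =
      univO (fun _ : Fin 1 => (1 : 𝓞 K)) (e.trans (Equiv.prodUnique _ (Fin 1)).symm) := by
  funext i
  unfold univ univO
  refine Finset.sum_congr rfl fun t _ => ?_
  simp

/-- The generic tuple has no preperiodic point of degree less than `d + d ^ 2 + … + d ^ N`. -/
theorem univ_nopreB {K : Type} [Field K] [NumberField K] {N d r : ℕ} (hd : 2 ≤ d) (D : ℕ)
    (hD : D < ∑ l ∈ Finset.range N, d ^ (l + 1))
    (e : Fin r ≃ Fin (N + 1) × {α : Fin (N + 1) →₀ ℕ // α.degree = d}) :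
    Pre (GF r K) D (gen (K := K) (univ e)) = ∅ := by
  rw [AllB.univ_eq e]
  exact univO_nopreB _ ⟨0, one_ne_zero⟩ hd D hD _

end Pool.Agent.PNB
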