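import Mathlib
import Pool.Agent.PNH.ParL

set_option autoImplicit false

/-!
# Fixed points of perturbations of the power map over power series
-/

namespace Pool.Agent.PNB

open Pool.Agent.PNH

namespace FxA

open PowerSeries

variable {κ : Type} [Field κ] {N d : ℕ}

/-- Polynomials preserve congruences. -/
theorem cong (P : MvPolynomial (Fin (N + 1)) κ⟦X⟧) (x y : Fin (N + 1) → κ⟦X⟧) (c : κ⟦X⟧)
    (h : ∀ i, c ∣ x i - y i) : c ∣ MvPolynomial.eval x P - MvPolynomial.eval y P := by
  induction P using MvPolynomial.induction_on with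
  | C a => simp
  | add p q hp hq =>
    rw [map_add, map_add]
    have := dvd_add hp hq
    convert this using 1
    ring
  | mul_X p i hp =>
    rw [map_mul, map_mul, MvPolynomial.eval_X, MvPolynomial.eval_X]
    have h1 : MvPolynomial.eval x p * x i - MvPolynomial.eval y p * y i =
        (MvPolynomial.eval x p - MvPolynomial.eval y p) * x i +
          MvPolynomial.eval y p * (x i - y i) := by ring
    rw [h1]
    exact dvd_add (hp.mul_right _) ((h i).mul_left _)

/-- Points `(1 : x_1 : … : x_N)` with `x_i` divisible by `X`. -/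
def S (x : Fin (N + 1) → κ⟦X⟧) : Prop := x 0 = 1 ∧ ∀ i, i ≠ 0 → X ∣ x i

/-- The contraction. -/
noncomputable def Ps (G : Tup N κ⟦X⟧) (x : Fin (N + 1) → κ⟦X⟧) : Fin (N + 1) → κ⟦X⟧ :=
  fun i => app G x i * (app G x 0)⁻¹

variable (G : Tup N κ⟦X⟧) (hd : 2 ≤ d)
  (h0 : ∀ i, MvPolynomial.map (constantCoeff (R := κ)) (G i) = MvPolynomial.X i ^ d)

include h0

theorem const (x : Fin (N + 1) → κ⟦X⟧) (i : Fin (N + 1)) :
    constantCoeff (app G x i) = (constantCoeff (x i)) ^ d := by
  have h1 : constantCoeff (app G x i) = MvPolynomial.eval (fun j => constantCoeff (x j))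
      (MvPolynomial.map (constantCoeff (R := κ)) (G i)) := by
    unfold app
    rw [MvPolynomial.eval_map, MvPolynomial.eval₂_eq', MvPolynomial.eval_eq', map_sum]
    refine Finset.sum_congr rfl fun m _ => ?_
    rw [map_mul, map_prod]
    congr 1
    exact Finset.prod_congr rfl fun j _ => map_pow _ _ _
  rw [h1, h0, map_pow, MvPolynomial.eval_X]

include hd

/-- The contraction property of the forms. -/
theorem contr (x y : Fin (N + 1) → κ⟦X⟧) (hx : S x) (hy : S y) (m : ℕ)
    (h : ∀ i, X ^ m ∣ x i - y i) (i : Fin (N + 1)) : X ^ (m + 1) ∣ app G x i - app G y i := by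
  obtain ⟨H, hH⟩ : MvPolynomial.C (X : κ⟦X⟧) ∣ G i - MvPolynomial.X i ^ d := by
    rw [MvPolynomial.C_dvd_iff_dvd_coeff]
    intro m
    rw [X_dvd_iff, ← MvPolynomial.coeff_map, map_sub, h0, map_pow, MvPolynomial.map_X, sub_self,
      MvPolynomial.coeff_zero]
  have hG : ∀ z : Fin (N + 1) → κ⟦X⟧, app G z i = z i ^ d + X * MvPolynomial.eval z H := by
    intro z
    unfold app
    have h1 : G i = MvPolynomial.X i ^ d + MvPolynomial.C X * H := by rw [← hH]; ring
    rw [h1, map_add, map_pow, map_mul, MvPolynomial.eval_X, MvPolynomial.eval_C]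
  rw [hG, hG]
  have h1 : x i ^ d + X * MvPolynomial.eval x H - (y i ^ d + X * MvPolynomial.eval y H) =
      (x i ^ d - y i ^ d) + X * (MvPolynomial.eval x H - MvPolynomial.eval y H) := by ring
  rw [h1]
  refine dvd_add ?_ ?_
  · by_cases hi : i = 0
    · subst hi
      rw [hx.1, hy.1, sub_self]
      exact dvd_zero _
    · rw [← geom_sum₂_mul, mul_comm, pow_succ]
      refine mul_dvd_mul (h i) (Finset.dvd_sum fun j hj => ?_)
      rcases Nat.eq_zero_or_pos j with h2 | h2
      · subst h2
        rw [pow_zero, one_mul]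
        exact (hy.2 i hi).trans (dvd_pow_self _ (by omega))
      · exact ((hx.2 i hi).trans (dvd_pow_self _ (by omega))).mul_right _
  · rw [pow_succ, mul_comm]
    exact mul_dvd_mul dvd_rfl (cong H x y _ h)

omit hd in
theorem unit0 (x : Fin (N + 1) → κ⟦X⟧) (hx : S x) : constantCoeff (app G x 0) ≠ 0 := by
  rw [const G h0, hx.1, map_one, one_pow]
  exact one_ne_zero

theorem Ps_mem (x : Fin (N + 1) → κ⟦X⟧) (hx : S x) : S (Ps G x) := by
  refine ⟨PowerSeries.mul_inv_cancel _ (unit0 G h0 x hx), fun i hi => ?_⟩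
  unfold Ps
  refine Dvd.dvd.mul_right ?_ _
  rw [X_dvd_iff, const G h0, X_dvd_iff.1 (hx.2 i hi), zero_pow (by omega)]

theorem Ps_contr (x y : Fin (N + 1) → κ⟦X⟧) (hx : S x) (hy : S y) (m : ℕ)
    (h : ∀ i, X ^ m ∣ x i - y i) (i : Fin (N + 1)) : X ^ (m + 1) ∣ Ps G x i - Ps G y i := by
  have h1 := contr G hd h0 x y hx hy m h
  have hx0 := PowerSeries.mul_inv_cancel _ (unit0 G h0 x hx)
  have hy0 := PowerSeries.mul_inv_cancel _ (unit0 G h0 y hy)
  unfold Ps
  have h2 : app G x i * (app G x 0)⁻¹ - app G y i * (app G y 0)⁻¹ =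
      (app G x i - app G y i) * (app G x 0)⁻¹ -
        (app G x 0 - app G y 0) * (app G y i * (app G x 0)⁻¹ * (app G y 0)⁻¹) := by
    linear_combination (app G y i * (app G y 0)⁻¹) * hx0 - (app G y i * (app G x 0)⁻¹) * hy0
  rw [h2]
  exact dvd_sub ((h1 i).mul_right _) ((h1 0).mul_right _)

end FxA

open PowerSeries in
/-- A tuple of forms over `κ⟦t⟧` which is the power map modulo `t` has a fixed point over `κ⟦t⟧`. -/
theorem fix_ps {κ : Type} [Field κ] {N d : ℕ} (hd : 2 ≤ d) (G : Tup N (PowerSeries κ))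
    (h0 : ∀ i, MvPolynomial.map (PowerSeries.constantCoeff (R := κ)) (G i) = MvPolynomial.X i ^ d) :
    ∃ x : Fin (N + 1) → PowerSeries κ, x 0 = 1 ∧ Par (app G x) x := by
  classical
  set z₀ : Fin (N + 1) → κ⟦X⟧ := fun i => if i = 0 then 1 else 0 with hz₀
  set z : ℕ → Fin (N + 1) → κ⟦X⟧ := fun n => (FxA.Ps G)^[n] z₀ with hz
  have hzs : ∀ n, z (n + 1) = FxA.Ps G (z n) := fun n => Function.iterate_succ_apply' _ _ _
  have hS : ∀ n, FxA.S (z n) := by
    intro n
    induction n with
    | zero => exact ⟨by simp [hz, hz₀], fun i hi => by simp [hz, hz₀, hi]⟩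
    | succ n ih =>
      rw [hzs]
      exact FxA.Ps_mem G hd h0 _ ih
  have hstep : ∀ n i, X ^ (n + 1) ∣ z (n + 1) i - z n i := by
    intro n
    induction n with
    | zero =>
      intro i
      rw [zero_add, pow_one]
      by_cases hi : i = 0
      · subst hi
        rw [(hS 1).1, (hS 0).1, sub_self]
        exact dvd_zero _
      · exact dvd_sub ((hS 1).2 i hi) ((hS 0).2 i hi)
    | succ n ih =>
      intro i
      have h1 := FxA.Ps_contr G hd h0 _ _ (hS _) (hS _) _ ih i
      rw [← hzs, ← hzs] at h1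
      exact h1
  have hcoe : ∀ m n i, m ≤ n → coeff m (z n i) = coeff m (z m i) := by
    intro m n i hmn
    induction n, hmn using Nat.le_induction with
    | base => rfl
    | succ n hn ih =>
      have h1 := X_pow_dvd_iff.1 (hstep n i) m (by omega)
      rw [map_sub, sub_eq_zero] at h1
      rw [h1, ih]
  set w : Fin (N + 1) → κ⟦X⟧ := fun i => PowerSeries.mk fun n => coeff n (z n i) with hw
  have hwz : ∀ n i, X ^ (n + 1) ∣ w i - z n i := by
    intro n i
    rw [X_pow_dvd_iff]
    intro m hm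
    rw [map_sub, hw, coeff_mk, hcoe m n i (by omega), sub_self]
  have hwS : FxA.S w := by
    refine ⟨?_, fun i hi => ?_⟩
    · ext m
      rw [hw, coeff_mk, (hS m).1]
    · have h1 := hwz 0 i
      rw [zero_add, pow_one] at h1
      have := dvd_add h1 ((hS 0).2 i hi)
      rwa [sub_add_cancel] at this
  have hfix : FxA.Ps G w = w := by
    funext i
    rw [← sub_eq_zero]
    ext m
    have h1 := FxA.Ps_contr G hd h0 w (z m) hwS (hS m) (m + 1) (hwz m) i
    rw [← hzs] at h1
    have h2 := dvd_sub h1 (hwz (m + 1) i)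
    have h3 : FxA.Ps G w i - z (m + 1) i - (w i - z (m + 1) i) = FxA.Ps G w i - w i := by ring
    rw [h3] at h2
    rw [X_pow_dvd_iff.1 h2 m (by omega), map_zero]
  refine ⟨w, hwS.1, fun i j => ?_⟩
  have h1 : ∀ i, app G w i = app G w 0 * w i := by
    intro i
    have h2 := PowerSeries.mul_inv_cancel _ (FxA.unit0 G h0 w hwS)
    have h3 := congrFun hfix i
    unfold FxA.Ps at h3
    linear_combination (-app G w i) * h2 + app G w 0 * h3
  rw [h1 i, h1 j]
  ring

end Pool.Agent.PNB
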