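import Mathlib
import Pool.Agent.PNB.Defs
import Pool.Agent.PNB.GCert
import Pool.Agent.PNB.FxA

set_option autoImplicit false

/-!
# The generic tuple of forms has a fixed point
-/

namespace Pool.Agent.PNB

open Pool.Agent.PNH

namespace FxB

/-- The universal property of `k(a_i)`. -/
theorem exists_lift {k κ ι M : Type} [Field k] [Field κ] [Field M] [Algebra k κ] {a : ι → κ}
    (h : AlgebraicIndependent k a) (ht : IntermediateField.adjoin k (Set.range a) = ⊤)
    (φ : MvPolynomial ι k →+* M) (hφ : Function.Injective φ) :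
    ∃ ψ : κ →+* M, ∀ p, ψ (MvPolynomial.aeval a p) = φ p := by
  set ψ₁ : FractionRing (MvPolynomial ι k) →+* M := IsFractionRing.lift hφ with hψ₁
  have e1 : ∀ c : MvPolynomial ι k, ψ₁ (algebraMap _ _ c) = φ c :=
    fun c => IsFractionRing.lift_algebraMap hφ c
  let e : FractionRing (MvPolynomial ι k) ≃ₐ[k] κ :=
    h.aevalEquivField.trans ((IntermediateField.equivOfEq ht).trans IntermediateField.topEquiv)
  have he : ∀ c : MvPolynomial ι k, e (algebraMap _ _ c) = MvPolynomial.aeval a c := by
    intro c
    have h2 := h.aevalEquivField_algebraMap_apply_coe c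
    show ((h.aevalEquivField (algebraMap _ _ c) :
      IntermediateField.adjoin k (Set.range a)) : κ) = _
    exact h2
  refine ⟨ψ₁.comp e.symm.toRingEquiv.toRingHom, fun p => ?_⟩
  have h3 : e.symm (MvPolynomial.aeval a p) = algebraMap (MvPolynomial ι k) _ p := by
    rw [AlgEquiv.symm_apply_eq, he]
  show ψ₁ (e.symm _) = _
  rw [h3, e1]

open Polynomial in
/-- The substitution `X_i ↦ δ_i + (a_i - δ_i) T`. -/
noncomputable def sub {k κ ι : Type} [Field k] [Field κ] [Algebra k κ] (a δ : ι → κ) :
    MvPolynomial ι k →+* κ[X] :=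
  MvPolynomial.eval₂Hom (C.comp (algebraMap k κ)) fun i => C (δ i) + X * C (a i - δ i)

theorem sub_injective {k κ ι : Type} [Field k] [Field κ] [Algebra k κ] {a : ι → κ}
    (h : AlgebraicIndependent k a) (δ : ι → κ) : Function.Injective (sub (k := k) a δ) := by
  have h2 : (Polynomial.evalRingHom 1).comp (sub (k := k) a δ) =
      (MvPolynomial.aeval a : MvPolynomial ι k →ₐ[k] κ).toRingHom := by
    refine MvPolynomial.ringHom_ext (fun c => ?_) (fun i => ?_)
    · simp [sub]
    · simp [sub]
  have h1 : Function.Injective ((Polynomial.evalRingHom 1).comp (sub (k := k) a δ)) := by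
    rw [h2]
    exact h
  rw [RingHom.coe_comp] at h1
  exact h1.of_comp

end FxB

/-- The generic tuple has a fixed point. -/
theorem fix_exists {k κ : Type} [Field k] [Field κ] [Algebra k κ] {N d : ℕ} (hd : 2 ≤ d)
    (F : Tup N κ) (hF : IsGen k d F) :
    ∃ x : Fin (N + 1) → AlgebraicClosure κ, x ≠ 0 ∧
      Par (app (mp (algebraMap κ (AlgebraicClosure κ)) F) x) x := by
  classical
  set R := PowerSeries κ with hR
  set M := FractionRing (PowerSeries κ) with hM
  set C0 : κ →+* R := PowerSeries.C with hC0
  -- the special tuple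
  set G : Tup N R := fun i => MvPolynomial.X i ^ d + MvPolynomial.C (PowerSeries.X : R) *
    (MvPolynomial.map C0 (F i) - MvPolynomial.X i ^ d) with hG
  have hG0 : ∀ i, MvPolynomial.map (PowerSeries.constantCoeff (R := κ)) (G i) =
      MvPolynomial.X i ^ d := by
    intro i
    rw [hG]
    simp
  obtain ⟨x, hx0, hx⟩ := fix_ps hd G hG0
  -- the embedding
  set δ : Ix N d → κ := fun p => if p.2.1 = Finsupp.single p.1 d then 1 else 0 with hδ
  set φ : MvPolynomial (Ix N d) k →+* M := (algebraMap R M).comp
    (Polynomial.coeToPowerSeries.ringHom.comp (FxB.sub (k := k) (co d F) δ)) with hφd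
  have hφ : Function.Injective φ := by
    rw [hφd, RingHom.coe_comp, RingHom.coe_comp]
    exact (IsFractionRing.injective R M).comp
      ((Polynomial.coe_injective κ).comp (FxB.sub_injective hF.ind δ))
  obtain ⟨ψ, hψ⟩ := FxB.exists_lift hF.ind hF.top φ hφ
  have hψa : ∀ p : Ix N d, ψ (co d F p) =
      algebraMap R M (C0 (δ p) + PowerSeries.X * C0 (co d F p - δ p)) := by
    intro p
    have h1 := hψ (MvPolynomial.X p)
    rw [MvPolynomial.aeval_X] at h1
    rw [h1, hφd]
    simp [FxB.sub, hC0]
  have hmp : mp ψ F = mp (algebraMap R M) G := by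
    funext i
    ext m
    unfold mp
    rw [MvPolynomial.coeff_map, MvPolynomial.coeff_map]
    by_cases hm : m.degree = d
    · have h1 := hψa (i, ⟨m, hm⟩)
      change ψ ((F i).coeff m) = _
      have h2 : (F i).coeff m = co d F (i, ⟨m, hm⟩) := rfl
      rw [h2, h1]
      congr 1
      rw [hG]
      simp only [MvPolynomial.coeff_add, MvPolynomial.coeff_C_mul, MvPolynomial.coeff_sub,
        MvPolynomial.coeff_map, MvPolynomial.coeff_X_pow, map_sub]
      rw [← h2, hδ]
      by_cases hs : m = Finsupp.single i d
      · simp [hs]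
      · have hs' : ¬ Finsupp.single i d = m := fun h => hs h.symm
        simp [hs, hs']
    · have hs' : ¬ Finsupp.single i d = m := by
        rintro rfl
        exact hm (Finsupp.degree_single _ _)
      rw [(hF.hom i).coeff_eq_zero hm, hG]
      simp only [MvPolynomial.coeff_add, MvPolynomial.coeff_C_mul, MvPolynomial.coeff_sub,
        MvPolynomial.coeff_map, MvPolynomial.coeff_X_pow, (hF.hom i).coeff_eq_zero hm]
      simp [hs']
  -- the fixed point over `M`
  set y : Fin (N + 1) → M := fun i => algebraMap R M (x i) with hy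
  have hy0 : y 0 = 1 := by
    change algebraMap R M (x 0) = 1
    rw [hx0, map_one]
  have hpy : Par (app (mp ψ F) y) y := by
    rw [hmp, hy, app_mp]
    exact hx.map (algebraMap R M)
  let := ψ.toAlgebra
  have hpy' : Par (app (mp (algebraMap κ M) F) y) y := hpy
  have halg : ∀ i, IsAlgebraic κ (y i) := gen_alg hd F hF y ⟨0, hy0⟩ 0 1 one_pos hpy'.symm
  -- the fixed point over the closure
  let L : IntermediateField κ M := algebraicClosure κ M
  set z : Fin (N + 1) → L := fun i => ⟨y i, mem_algebraicClosure_iff.2 (halg i)⟩ with hz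
  have hpz : Par (app (mp (algebraMap κ L) F) z) z := by
    have h1 : app (mp (algebraMap κ M) F) y =
        fun i => algebraMap L M (app (mp (algebraMap κ L) F) z i) := by
      rw [← app_mp, mp_mp, ← IsScalarTower.algebraMap_eq]
      rfl
    intro i j
    have h2 := hpy' i j
    rw [h1] at h2
    exact (algebraMap L M).injective (by rw [map_mul, map_mul]; exact h2)
  let τ : L →ₐ[κ] AlgebraicClosure κ := IsAlgClosed.lift
  refine ⟨fun i => τ (z i), ?_, ?_⟩
  · intro h
    have h1 := congrFun h 0
    have h2 : z 0 = 1 := Subtype.ext hy0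
    simp only [h2, map_one, Pi.zero_apply] at h1
    exact one_ne_zero h1
  · have h1 : app (mp (algebraMap κ (AlgebraicClosure κ)) F) (fun i => τ (z i)) =
        fun i => τ (app (mp (algebraMap κ L) F) z i) := by
      have h2 : algebraMap κ (AlgebraicClosure κ) = (τ : L →+* AlgebraicClosure κ).comp
          (algebraMap κ L) := by
        ext c
        simp
      rw [h2, ← mp_mp]
      exact app_mp (τ : L →+* AlgebraicClosure κ) _ z
    rw [h1]
    exact hpz.map (τ : L →+* AlgebraicClosure κ)

end Pool.Agent.PNB
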