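import Mathlib
import Pool.Agent.PNH.Defs

set_option autoImplicit false

/-!
# The number of solutions of `F(y) = y`
-/

namespace Pool.Agent.PNB

open Pool.Agent.PNH

namespace FxCA

variable {M Γ : Type} [Field M] [LinearOrderedCommGroupWithZero Γ] (v : Valuation M Γ)

/-- the value of a form with small coefficients -/
theorem eval_lt {n d : ℕ} {P : MvPolynomial (Fin n) M} (hP : P.IsHomogeneous d)
    (hc : ∀ m, v (P.coeff m) < 1) {y : Fin n → M} {g : Γ} (hg : g ≠ 0) (hy : ∀ j, v (y j) ≤ g) :
    v (MvPolynomial.eval y P) < g ^ d := by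
  rw [MvPolynomial.eval_eq']
  refine v.map_sum_lt (pow_ne_zero _ hg) fun m hm => ?_
  have hg0 : 0 < g := zero_lt_iff.2 hg
  rw [map_mul, map_prod]
  have h1 : ∏ i, v (y i ^ m i) ≤ g ^ d := by
    have h2 : ∑ i, m i = d := by
      have h3 := hP (MvPolynomial.mem_support_iff.1 hm)
      rw [Finsupp.weight_apply, Finsupp.sum_fintype _ _ (fun i => by simp)] at h3
      simpa using h3
    rw [← h2, ← Finset.prod_pow_eq_pow_sum]
    refine Finset.prod_le_prod (fun i _ => zero_le) fun i _ => ?_
    rw [map_pow]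
    exact pow_le_pow_left₀ zero_le (hy i) _
  calc v (P.coeff m) * ∏ i, v (y i ^ m i) ≤ v (P.coeff m) * g ^ d :=
        mul_le_mul_of_nonneg_left h1 zero_le
    _ < 1 * g ^ d := mul_lt_mul_of_pos_right (hc m) (pow_pos hg0 _)
    _ = g ^ d := one_mul _

/-- the difference of two products -/
theorem mul_sub_le {a a' b b' : M} {δ : Γ} (ha : v (a - a') ≤ δ) (hb : v (b - b') ≤ δ)
    (ha1 : v a ≤ 1) (hb1 : v b' ≤ 1) : v (a * b - a' * b') ≤ δ := by
  have h : a * b - a' * b' = a * (b - b') + (a - a') * b' := by ring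
  rw [h]
  refine (v.map_add _ _).trans (max_le ?_ ?_)
  · rw [map_mul]
    exact (mul_le_mul_of_nonneg_right ha1 zero_le).trans (by rwa [one_mul])
  · rw [map_mul]
    exact (mul_le_mul_of_nonneg_left hb1 zero_le).trans (by rwa [mul_one])

theorem pow_sub_le {a a' : M} {δ : Γ} (ha : v (a - a') ≤ δ) (ha1 : v a ≤ 1) (ha1' : v a' ≤ 1)
    (k : ℕ) : v (a ^ k - a' ^ k) ≤ δ := by
  induction k with
  | zero => simp
  | succ k ih =>
    rw [pow_succ, pow_succ]
    refine mul_sub_le v ih ha ?_ ha1'
    rw [map_pow]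
    exact pow_le_one₀ zero_le ha1

theorem prod_sub_le {n : ℕ} {y y' : Fin n → M} {δ : Γ} (h : ∀ j, v (y j - y' j) ≤ δ)
    (h1 : ∀ j, v (y j) ≤ 1) (h1' : ∀ j, v (y' j) ≤ 1) (m : Fin n → ℕ) (s : Finset (Fin n)) :
    v (∏ j ∈ s, y j ^ m j - ∏ j ∈ s, y' j ^ m j) ≤ δ := by
  classical
  have hp : ∀ (z : Fin n → M) (s : Finset (Fin n)), (∀ j, v (z j) ≤ 1) →
      v (∏ j ∈ s, z j ^ m j) ≤ 1 := by
    intro z s hz
    rw [map_prod]
    refine Finset.prod_le_one' fun j _ => ?_
    rw [map_pow]
    exact pow_le_one₀ zero_le (hz j)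
  induction s using Finset.induction_on with
  | empty => simp
  | insert a s ha ih =>
    rw [Finset.prod_insert ha, Finset.prod_insert ha]
    refine mul_sub_le v (pow_sub_le v (h a) (h1 a) (h1' a) _) ih ?_ (hp y' s h1')
    rw [map_pow]
    exact pow_le_one₀ zero_le (h1 a)

/-- the difference of two values of a polynomial with small coefficients -/
theorem eval_sub_lt {n : ℕ} {P : MvPolynomial (Fin n) M} (hc : ∀ m, v (P.coeff m) < 1)
    {y y' : Fin n → M} {δ : Γ} (hδ : δ ≠ 0) (h : ∀ j, v (y j - y' j) ≤ δ)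
    (h1 : ∀ j, v (y j) ≤ 1) (h1' : ∀ j, v (y' j) ≤ 1) :
    v (MvPolynomial.eval y P - MvPolynomial.eval y' P) < δ := by
  have hδ0 : 0 < δ := zero_lt_iff.2 hδ
  rw [MvPolynomial.eval_eq', MvPolynomial.eval_eq', ← Finset.sum_sub_distrib]
  refine v.map_sum_lt hδ fun m _ => ?_
  rw [← mul_sub, map_mul]
  calc v (P.coeff m) * v (∏ i, y i ^ m i - ∏ i, y' i ^ m i) ≤ v (P.coeff m) * δ :=
        mul_le_mul_of_nonneg_left (prod_sub_le v h h1 h1' m _) zero_le
    _ < 1 * δ := mul_lt_mul_of_pos_right (hc m) hδ0
    _ = δ := one_mul _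

end FxCA

open FxCA

/-- If `F` is a power map modulo the maximal ideal of a valuation, then `F(y) = y` has at most
`d ^ (N + 1)` solutions. -/
theorem fix_card {M Γ : Type} [Field M] [LinearOrderedCommGroupWithZero Γ] (v : Valuation M Γ)
    {N d : ℕ} (hd : 2 ≤ d) (hv : v ((d : M) - 1) = 1) (F : Tup N M)
    (hF : ∀ i, (F i).IsHomogeneous d) (h1 : ∀ i, v ((F i).coeff (Finsupp.single i d)) = 1)
    (h2 : ∀ i m, m ≠ Finsupp.single i d → v ((F i).coeff m) < 1)
    (S : Finset (Fin (N + 1) → M)) (hS : ∀ y ∈ S, app F y = y) : S.card ≤ d ^ (N + 1) := by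
  classical
  set a : Fin (N + 1) → M := fun i => (F i).coeff (Finsupp.single i d) with ha
  set R : Tup N M := fun i => F i - MvPolynomial.monomial (Finsupp.single i d) (a i) with hR
  have hRc : ∀ i m, v ((R i).coeff m) < 1 := by
    intro i m
    rw [hR]
    simp only [MvPolynomial.coeff_sub, MvPolynomial.coeff_monomial]
    split_ifs with h
    · rw [← h, ha, sub_self, map_zero]
      exact zero_lt_one
    · rw [sub_zero]
      exact h2 i m (Ne.symm h)
  have hRh : ∀ i, (R i).IsHomogeneous d := by
    intro i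
    refine (hF i).sub ?_
    exact MvPolynomial.isHomogeneous_monomial _ (Finsupp.degree_single i d)
  have hev : ∀ (y : Fin (N + 1) → M) i, MvPolynomial.eval y (F i) =
      a i * y i ^ d + MvPolynomial.eval y (R i) := by
    intro y i
    rw [hR]
    simp only [map_sub, MvPolynomial.eval_monomial]
    rw [Finsupp.prod_single_index (by simp)]
    ring
  have hfix : ∀ y ∈ S, ∀ i, y i = a i * y i ^ d + MvPolynomial.eval y (R i) := by
    intro y hy i
    rw [← hev]
    exact (congrFun (hS y hy) i).symm
  -- the solutions are integral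
  have hint : ∀ y ∈ S, ∀ i, v (y i) ≤ 1 := by
    intro y hy
    obtain ⟨i, hi⟩ := Finite.exists_max fun i => v (y i)
    have key : v (y i) ≤ 1 := by
      by_contra hc
      rw [not_le] at hc
      have h3 : v (MvPolynomial.eval y (R i)) < v (y i) ^ d :=
        eval_lt v (hRh i) (hRc i) (zero_lt_one.trans hc).ne' hi
      have h4 : v (a i * y i ^ d) = v (y i) ^ d := by
        rw [map_mul, map_pow, h1 i, one_mul]
      have h5 : v (y i) = v (y i) ^ d := by
        conv_lhs => rw [hfix y hy i]
        rw [v.map_add_eq_of_lt_left (by rw [h4]; exact h3), h4]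
      have h6 : v (y i) ^ 1 < v (y i) ^ d := pow_lt_pow_right₀ hc (by omega)
      rw [pow_one, ← h5] at h6
      exact lt_irrefl _ h6
    exact fun j => (hi j).trans key
  -- the residue map
  set O := v.valuationSubring with hO
  have memO : ∀ x : M, x ∈ O ↔ v x ≤ 1 := fun x => v.mem_valuationSubring_iff x
  set π : O →+* IsLocalRing.ResidueField O := IsLocalRing.residue O with hπ
  have hπ0 : ∀ x : O, π x = 0 ↔ v (x : M) < 1 := by
    intro x
    rw [hπ, IsLocalRing.residue_eq_zero_iff, IsLocalRing.mem_maximalIdeal, mem_nonunits_iff,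
      ← not_iff_not, not_not, not_lt]
    constructor
    · intro hu
      obtain ⟨w, hw⟩ := hu.exists_right_inv
      have h3 : v (x : M) * v (w : M) = 1 := by
        rw [← map_mul]
        have h4 : (x : M) * (w : M) = 1 := by
          have := congrArg (Subtype.val) hw
          simpa using this
        rw [h4, map_one]
      have h4 : v (w : M) ≤ 1 := (memO _).1 w.2
      calc (1 : Γ) = v (x : M) * v (w : M) := h3.symm
        _ ≤ v (x : M) * 1 := mul_le_mul_of_nonneg_left h4 zero_le
        _ = v (x : M) := mul_one _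
    · intro hx
      have hx1 : v (x : M) = 1 := le_antisymm ((memO _).1 x.2) hx
      have hx0 : (x : M) ≠ 0 := fun h => by
        rw [h, map_zero] at hx1
        exact zero_ne_one hx1
      have h3 : ((x : M)⁻¹) ∈ O := by
        rw [memO, map_inv₀, hx1, inv_one]
      refine IsUnit.of_mul_eq_one (⟨(x : M)⁻¹, h3⟩ : O) ?_
      ext
      simp [hx0]
  have haO : ∀ i, a i ∈ O := fun i => (memO _).2 (h1 i).le
  set u : Fin (N + 1) → IsLocalRing.ResidueField O := fun i => π ⟨a i, haO i⟩ with hu
  have hu0 : ∀ i, u i ≠ 0 := fun i h => by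
    rw [hu, hπ0] at h
    exact absurd h (by rw [h1 i]; exact lt_irrefl _)
  -- the residue of a coordinate
  have hrt : ∀ y ∈ S, ∀ (i : Fin (N + 1)) (hy : y i ∈ O),
      u i * π ⟨y i, hy⟩ ^ d = π ⟨y i, hy⟩ := by
    intro y hy i hyi
    rw [← sub_eq_zero, hu, ← map_pow, ← map_mul, ← map_sub, hπ0]
    change v (a i * y i ^ d - y i) < 1
    have h3 : a i * y i ^ d - y i = - MvPolynomial.eval y (R i) := by
      linear_combination -(hfix y hy i)
    rw [h3, Valuation.map_neg]
    have h4 := eval_lt v (hRh i) (hRc i) one_ne_zero (hint y hy)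
    rwa [one_pow] at h4
  set ρ : M → IsLocalRing.ResidueField O := fun x => if h : x ∈ O then π ⟨x, h⟩ else 0 with hρ
  have hρO : ∀ (x : M) (h : x ∈ O), ρ x = π ⟨x, h⟩ := fun x h => by
    rw [hρ]
    exact dif_pos h
  have hSO : ∀ y ∈ S, ∀ i, y i ∈ O := fun y hy i => (memO _).2 (hint y hy i)
  -- the map to the residue field is injective
  have hinj : Set.InjOn (fun (y : Fin (N + 1) → M) i => ρ (y i)) (S : Set (Fin (N + 1) → M)) := by
    intro y hy y' hy' hyy
    have hy : y ∈ S := hy
    have hy' : y' ∈ S := hy'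
    have hres : ∀ i, π ⟨y i, hSO y hy i⟩ = π ⟨y' i, hSO y' hy' i⟩ := by
      intro i
      rw [← hρO, ← hρO]
      exact congrFun hyy i
    obtain ⟨i, hi⟩ := Finite.exists_max fun i => v (y i - y' i)
    by_contra hne
    have hδ : v (y i - y' i) ≠ 0 := by
      intro h0
      refine hne (funext fun j => ?_)
      have h3 : v (y j - y' j) = 0 := by
        have := hi j
        rw [h0] at this
        exact le_antisymm this zero_le
      exact sub_eq_zero.1 ((Valuation.zero_iff v).1 h3)
    have h3 : v (MvPolynomial.eval y (R i) - MvPolynomial.eval y' (R i)) < v (y i - y' i) :=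
      eval_sub_lt v (hRc i) hδ hi (hint y hy) (hint y' hy')
    -- the bracket
    set s : M := ∑ j ∈ Finset.range d, y i ^ j * y' i ^ (d - 1 - j) with hs
    have h4 : (y i - y' i) * (1 - a i * s) =
        MvPolynomial.eval y (R i) - MvPolynomial.eval y' (R i) := by
      have h5 : s * (y i - y' i) = y i ^ d - y' i ^ d := (Commute.all _ _).geom_sum₂_mul d
      have h6 := hfix y hy i
      have h7 := hfix y' hy' i
      linear_combination h6 - h7 - a i * h5
    have hsO : s ∈ O := by
      rw [hs]
      exact sum_mem fun j _ => mul_mem (pow_mem (hSO y hy i) _) (pow_mem (hSO y' hy' i) _)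
    have h5 : v (1 - a i * s) = 1 := by
      have h6 : (1 - a i * s) ∈ O := sub_mem (one_mem _) (mul_mem (haO i) hsO)
      refine le_antisymm ((memO _).1 h6) ?_
      by_contra hlt
      rw [not_le] at hlt
      have h7 : π ⟨1 - a i * s, h6⟩ = 0 := (hπ0 _).2 hlt
      have h8 : (⟨1 - a i * s, h6⟩ : O) = 1 - ⟨a i, haO i⟩ *
          ∑ j ∈ Finset.range d, (⟨y i, hSO y hy i⟩ : O) ^ j *
            (⟨y' i, hSO y' hy' i⟩ : O) ^ (d - 1 - j) := by
        apply Subtype.ext
        change 1 - a i * s = _
        push_cast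
        rfl
      rw [h8, map_sub, map_one, map_mul, map_sum] at h7
      have h9 : ∑ j ∈ Finset.range d, π ((⟨y i, hSO y hy i⟩ : O) ^ j *
          (⟨y' i, hSO y' hy' i⟩ : O) ^ (d - 1 - j)) =
          (d : IsLocalRing.ResidueField O) * π ⟨y i, hSO y hy i⟩ ^ (d - 1) := by
        rw [Finset.sum_congr rfl (g := fun _ => π ⟨y i, hSO y hy i⟩ ^ (d - 1)), Finset.sum_const,
          Finset.card_range, nsmul_eq_mul]
        intro j hj
        rw [map_mul, map_pow, map_pow, ← hres i, ← pow_add]
        congr 1
        have := Finset.mem_range.1 hj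
        omega
      rw [h9] at h7
      have h10 := hrt y hy i (hSO y hy i)
      set r := π ⟨y i, hSO y hy i⟩ with hr
      rcases eq_or_ne r 0 with hr0 | hr0
      · rw [hr0, zero_pow (by omega), mul_zero, mul_zero, sub_zero] at h7
        exact one_ne_zero h7
      · have h11 : u i * r ^ (d - 1) = 1 := by
          have h12 : r ^ d = r ^ (d - 1) * r := by
            rw [← pow_succ]
            congr 1
            omega
          rw [h12, ← mul_assoc] at h10
          exact mul_right_cancel₀ hr0 (by rw [h10, one_mul])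
        have h12 : (d : IsLocalRing.ResidueField O) - 1 = 0 := by
          have h13 : u i * ((d : IsLocalRing.ResidueField O) * r ^ (d - 1)) = d := by
            linear_combination (d : IsLocalRing.ResidueField O) * h11
          have h14 : 1 - u i * ((d : IsLocalRing.ResidueField O) * r ^ (d - 1)) = 0 := h7
          rw [h13] at h14
          linear_combination -h14
        have hdO : ((d : M) - 1) ∈ O := (memO _).2 hv.le
        have h13 : π ⟨(d : M) - 1, hdO⟩ = 0 := by
          have h14 : (⟨(d : M) - 1, hdO⟩ : O) = (d : O) - 1 := by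
            ext
            push_cast
            rfl
          rw [h14, map_sub, map_natCast, map_one]
          exact h12
        have h14 := (hπ0 _).1 h13
        change v ((d : M) - 1) < 1 at h14
        rw [hv] at h14
        exact lt_irrefl _ h14
    rw [← h4, map_mul, h5, mul_one] at h3
    exact lt_irrefl _ h3
  -- counting
  set T : Fin (N + 1) → Finset (IsLocalRing.ResidueField O) := fun i =>
    (Polynomial.C (u i) * Polynomial.X ^ d - Polynomial.X).roots.toFinset with hT
  have hP0 : ∀ i, (Polynomial.C (u i) * Polynomial.X ^ d - Polynomial.X :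
      Polynomial (IsLocalRing.ResidueField O)) ≠ 0 := by
    intro i h
    have h3 := congrArg (fun P => Polynomial.coeff P d) h
    simp only [Polynomial.coeff_sub, Polynomial.coeff_C_mul, Polynomial.coeff_X_pow_self,
      mul_one, Polynomial.coeff_zero] at h3
    rw [Polynomial.coeff_X_of_ne_one (by omega), sub_zero] at h3
    exact hu0 i h3
  have hTc : ∀ i, (T i).card ≤ d := by
    intro i
    refine (Multiset.toFinset_card_le _).trans ((Polynomial.card_roots' _).trans ?_)
    refine (Polynomial.natDegree_sub_le _ _).trans (max_le ?_ ?_)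
    · exact (Polynomial.natDegree_C_mul_X_pow_le _ _)
    · exact Polynomial.natDegree_X_le.trans (by omega)
  have hmaps : ∀ y ∈ S, (fun i => ρ (y i)) ∈ Fintype.piFinset T := by
    intro y hy
    rw [Fintype.mem_piFinset]
    intro i
    rw [hT, Multiset.mem_toFinset, Polynomial.mem_roots (hP0 i), Polynomial.IsRoot.def]
    simp only [Polynomial.eval_sub, Polynomial.eval_mul, Polynomial.eval_C, Polynomial.eval_pow,
      Polynomial.eval_X]
    rw [hρO _ (hSO y hy i), hrt y hy i, sub_self]
  calc S.card ≤ (Fintype.piFinset T).card := Finset.card_le_card_of_injOn _ hmaps hinj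
    _ = ∏ i, (T i).card := Fintype.card_piFinset T
    _ ≤ ∏ _i : Fin (N + 1), d := Finset.prod_le_prod' fun i _ => hTc i
    _ = d ^ (N + 1) := by rw [Finset.prod_const, Finset.card_univ, Fintype.card_fin]

end Pool.Agent.PNB
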