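import Mathlib
import Pool.Agent.PNB.Defs
import Pool.Agent.PNB.GCert
import Pool.Agent.PNB.Wt
import Pool.Agent.PNB.FxC

set_option autoImplicit false

/-!
# The degree of the fixed points of the generic tuple
-/

namespace Pool.Agent.PNB

open Pool.Agent.PNH

namespace FxDA

/-- A fixed point as an eigenvector. -/
theorem exists_eigen {k κ : Type} [Field k] [Field κ] [Algebra k κ] {N d : ℕ}
    (hd : 1 ≤ d) (F : Tup N κ) (hF : IsGen k d F) (z : Fin (N + 1) → AlgebraicClosure κ)
    (hz : z ≠ 0) (hp : Par (app (mp (algebraMap κ (AlgebraicClosure κ)) F) z) z) :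
    ∃ μ : AlgebraicClosure κ, μ ≠ 0 ∧
      app (mp (algebraMap κ (AlgebraicClosure κ)) F) z = μ • z := by
  obtain ⟨μ, hμ⟩ := hp.symm.exists_smul hz
  refine ⟨μ, ?_, hμ⟩
  rintro rfl
  rw [zero_smul] at hμ
  exact hz (gen_zero hd F hF z hμ)

theorem count {k κ : Type} [Field k] [CharZero k] [Field κ] [Algebra k κ] {N d : ℕ}
    (hd : 2 ≤ d) (F : Tup N κ) (hF : IsGen k d F)
    (S : Finset (Fin (N + 1) → AlgebraicClosure κ))
    (hS : ∀ y ∈ S, app (mp (algebraMap κ (AlgebraicClosure κ)) F) y =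
      algebraMap κ (AlgebraicClosure κ) ((F 0).coeff (Finsupp.single 0 d)) • y) :
    S.card ≤ d ^ (N + 1) := by
  classical
  obtain ⟨Γ, hΓ, v, g, hg, hw, -, hk⟩ := exists_wt (M := AlgebraicClosure κ) (co d F) hF.ind hF.top
    (fun p => if (p.2 : Fin (N + 1) →₀ ℕ) = Finsupp.single p.1 d then 1 else 0)
  set a : AlgebraicClosure κ := algebraMap κ _ ((F 0).coeff (Finsupp.single 0 d)) with ha
  have hco : ∀ i, v (algebraMap κ (AlgebraicClosure κ) ((F i).coeff (Finsupp.single i d))) = g := by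
    intro i
    have h1 := hw (i, ⟨Finsupp.single i d, by simp⟩)
    simp only [if_true, pow_one] at h1
    exact h1
  have hva : v a = g := hco 0
  have hg0 : g ≠ 0 := by
    rintro rfl
    exact absurd hg (not_lt.2 zero_le_one)
  have ha0 : a ≠ 0 := by
    intro h0
    rw [h0, map_zero] at hva
    exact hg0 hva.symm
  have hs : ∀ (i : Fin (N + 1)) (m : Fin (N + 1) →₀ ℕ), m ≠ Finsupp.single i d →
      v (algebraMap κ (AlgebraicClosure κ) ((F i).coeff m)) ≤ 1 := by
    intro i m hm
    by_cases hmd : m.degree = d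
    · have h1 := hw (i, ⟨m, hmd⟩)
      simp only [if_neg hm, pow_zero] at h1
      exact h1.le
    · rw [(hF.hom i).coeff_eq_zero hmd, map_zero, map_zero]
      exact zero_le_one
  let G : Tup N (AlgebraicClosure κ) := fun i =>
    MvPolynomial.C a⁻¹ * mp (algebraMap κ (AlgebraicClosure κ)) F i
  have hGc : ∀ i m, (G i).coeff m = a⁻¹ * algebraMap κ (AlgebraicClosure κ) ((F i).coeff m) := by
    intro i m
    show MvPolynomial.coeff m (MvPolynomial.C a⁻¹ * MvPolynomial.map _ (F i)) = _
    rw [MvPolynomial.coeff_C_mul, MvPolynomial.coeff_map]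
  refine fix_card v hd ?_ G (fun i => ?_) (fun i => ?_) (fun i m hm => ?_) S fun y hy => ?_
  · have h1 : ((d : k) - 1) ≠ 0 := by
      have h2 : (d : k) ≠ (1 : ℕ) := Nat.cast_injective.ne (by omega)
      rw [Nat.cast_one] at h2
      exact sub_ne_zero.2 h2
    have h3 := hk _ h1
    rw [map_sub, map_sub, map_natCast, map_natCast, map_one, map_one] at h3
    exact h3
  · have h1 := (MvPolynomial.isHomogeneous_C (Fin (N + 1)) a⁻¹).mul (hom_mp d
      (algebraMap κ (AlgebraicClosure κ)) F hF.hom i)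
    rwa [zero_add] at h1
  · rw [hGc, map_mul, map_inv₀, hva, hco, inv_mul_cancel₀ hg0]
  · rw [hGc, map_mul, map_inv₀, hva]
    calc g⁻¹ * v (algebraMap κ (AlgebraicClosure κ) ((F i).coeff m)) ≤ g⁻¹ * 1 :=
          mul_le_mul_right (hs i m hm) _
      _ = g⁻¹ := mul_one _
      _ < 1 := inv_lt_one_of_one_lt₀ hg
  · funext i
    show MvPolynomial.eval y (MvPolynomial.C a⁻¹ * mp (algebraMap κ (AlgebraicClosure κ)) F i) = y i
    rw [map_mul, MvPolynomial.eval_C]
    have h1 : MvPolynomial.eval y (mp (algebraMap κ (AlgebraicClosure κ)) F i) = a * y i :=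
      congrFun (hS y hy) i
    rw [h1, inv_mul_cancel_left₀ ha0]

theorem geom (d : ℕ) (hd : 1 ≤ d) (N : ℕ) :
    (∑ i ∈ Finset.range (N + 1), d ^ i) * (d - 1) + 1 = d ^ (N + 1) := by
  obtain ⟨c, rfl⟩ : ∃ c, d = c + 1 := ⟨d - 1, by omega⟩
  rw [Nat.add_sub_cancel]
  induction N with
  | zero => simp
  | succ n ih =>
    rw [Finset.sum_range_succ, add_mul, add_right_comm, ih]
    ring

end FxDA

/-- The degree of a fixed point of the generic tuple is at most `1 + d + … + d ^ N`. -/
theorem fix_upper {k κ : Type} [Field k] [CharZero k] [Field κ] [Algebra k κ] {N d : ℕ}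
    (hd : 2 ≤ d) (F : Tup N κ) (hF : IsGen k d F) (x : Fin (N + 1) → AlgebraicClosure κ)
    (hx : x ≠ 0) (hp : Par (app (mp (algebraMap κ (AlgebraicClosure κ)) F) x) x) :
    ∃ z : Fin (N + 1) → AlgebraicClosure κ, Nrm z ∧ DegLe κ (∑ i ∈ Finset.range (N + 1), d ^ i) z ∧
      Par (app (mp (algebraMap κ (AlgebraicClosure κ)) F) z) z := by
  classical
  have hcz : CharZero κ := charZero_of_injective_algebraMap (algebraMap k κ).injective
  set FΩ := mp (algebraMap κ (AlgebraicClosure κ)) F with hFΩ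
  have hhom : ∀ i, (FΩ i).IsHomogeneous d := hom_mp d (algebraMap κ (AlgebraicClosure κ)) F hF.hom
  obtain ⟨c, hc, hcx⟩ := exists_nrm x hx
  set z := c • x with hz
  have hpz : Par (app FΩ z) z := by
    rw [hz, app_smul d FΩ hhom]
    exact (hp.smul_left _).smul_right _
  have hz0 : z ≠ 0 := hcx.ne_zero
  refine ⟨z, hcx, ?_, hpz⟩
  obtain ⟨μ, hμ0, hμ⟩ := FxDA.exists_eigen (by omega) F hF z hz0 hpz
  obtain ⟨j, hj, -⟩ := hcx
  -- the field of definition of `z`
  have hint : ∀ y ∈ Set.range z, IsIntegral κ y := fun y _ => Algebra.IsIntegral.isIntegral y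
  have hfd : FiniteDimensional κ (IntermediateField.adjoin κ (Set.range z)) :=
    IntermediateField.finiteDimensional_adjoin hint
  set E := IntermediateField.adjoin κ (Set.range z) with hE
  have hzE : ∀ i, z i ∈ E := fun i => IntermediateField.subset_adjoin κ _ ⟨i, rfl⟩
  have hμE : μ ∈ E := by
    have h1 : μ = app FΩ z j := by
      rw [hμ, Pi.smul_apply, hj, smul_eq_mul, mul_one]
    rw [h1]
    show MvPolynomial.eval z (MvPolynomial.map (algebraMap κ (AlgebraicClosure κ)) (F j)) ∈ E
    rw [MvPolynomial.eval_map, MvPolynomial.eval₂_eq']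
    exact sum_mem fun m _ => mul_mem (IntermediateField.algebraMap_mem _ _) (prod_mem fun i _ =>
      pow_mem (hzE i) _)
  let ze : Fin (N + 1) → E := fun i => ⟨z i, hzE i⟩
  let μe : E := ⟨μ, hμE⟩
  have hFe : app (mp (algebraMap κ E) F) ze = μe • ze := by
    funext i
    apply (algebraMap E (AlgebraicClosure κ)).injective
    have h1 := congrFun (app_mp (algebraMap E (AlgebraicClosure κ)) (mp (algebraMap κ E) F) ze) i
    rw [← h1, mp_mp, ← IsScalarTower.algebraMap_eq]
    exact congrFun hμ i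
  have hσ : ∀ σ : E →ₐ[κ] (AlgebraicClosure κ), app FΩ (fun i => σ (ze i)) = σ μe • fun i => σ (ze i) := by
    intro σ
    have h1 := app_mp (σ : E →+* (AlgebraicClosure κ)) (mp (algebraMap κ E) F) ze
    rw [mp_mp, hFe] at h1
    have h2 : (σ : E →+* (AlgebraicClosure κ)).comp (algebraMap κ E) = algebraMap κ (AlgebraicClosure κ) := σ.comp_algebraMap
    rw [h2] at h1
    refine h1.trans ?_
    funext i
    simp
  -- the constant
  set a : (AlgebraicClosure κ) := algebraMap κ (AlgebraicClosure κ) ((F 0).coeff (Finsupp.single 0 d)) with ha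
  have ha0 : a ≠ 0 := by
    rw [ha, map_ne_zero]
    exact hF.ind.ne_zero (0, ⟨Finsupp.single 0 d, by simp⟩)
  have hμe : μe ≠ 0 := fun h => hμ0 (congrArg (algebraMap E (AlgebraicClosure κ)) h)
  have hroot : ∀ σ : E →ₐ[κ] (AlgebraicClosure κ), ∃ l : (AlgebraicClosure κ), l ^ (d - 1) * σ μe = a := by
    intro σ
    have h1 : σ μe ≠ 0 := (_root_.map_ne_zero σ).2 hμe
    obtain ⟨l, hl⟩ := IsAlgClosed.exists_pow_nat_eq (a / σ μe) (n := d - 1) (by omega)
    exact ⟨l, by rw [hl, div_mul_cancel₀ _ h1]⟩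
  choose l hl using hroot
  have hl0 : ∀ σ, l σ ≠ 0 := by
    intro σ h0
    have h1 := hl σ
    rw [h0, zero_pow (by omega), zero_mul] at h1
    exact ha0 h1.symm
  have : NeZero (d - 1) := ⟨by omega⟩
  have : NeZero ((d - 1 : ℕ) : (AlgebraicClosure κ)) := by
    have : CharZero (AlgebraicClosure κ) := charZero_of_injective_algebraMap (algebraMap κ (AlgebraicClosure κ)).injective
    infer_instance
  let T := (E →ₐ[κ] (AlgebraicClosure κ)) × rootsOfUnity (d - 1) (AlgebraicClosure κ)
  let f : T → (Fin (N + 1) → (AlgebraicClosure κ)) := fun t i => ((t.2 : (AlgebraicClosure κ)ˣ) : (AlgebraicClosure κ)) * l t.1 * t.1 (ze i)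
  have hf0 : ∀ t : T, f t ≠ 0 := by
    intro t h0
    have h1 := congrFun h0 j
    have h2 : t.1 (ze j) = 1 := by
      have : ze j = 1 := Subtype.ext hj
      rw [this, map_one]
    have h3 : f t j = ((t.2 : (AlgebraicClosure κ)ˣ) : (AlgebraicClosure κ)) * l t.1 * t.1 (ze j) := rfl
    rw [h3, h2, mul_one] at h1
    exact mul_ne_zero (Units.ne_zero _) (hl0 _) h1
  have hfinj : Function.Injective f := by
    rintro ⟨σ, u⟩ ⟨τ, w⟩ h
    have hz1 : ze j = 1 := Subtype.ext hj
    have e1 : ((u : (AlgebraicClosure κ)ˣ) : (AlgebraicClosure κ)) * l σ = ((w : (AlgebraicClosure κ)ˣ) : (AlgebraicClosure κ)) * l τ := by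
      have h1 := congrFun h j
      simp only [f, hz1, map_one, mul_one] at h1
      exact h1
    have e2 : ∀ i, σ (ze i) = τ (ze i) := by
      intro i
      have h1 := congrFun h i
      simp only [f] at h1
      rw [← e1] at h1
      exact mul_left_cancel₀ (mul_ne_zero (Units.ne_zero _) (hl0 _)) h1
    have e3 : σ = τ := by
      refine IntermediateField.algHom_ext_of_eq_adjoin (S := E) (s := Set.range z) _ hE ?_
      rintro _ ⟨i, rfl⟩
      exact e2 i
    subst e3
    have e4 := mul_right_cancel₀ (hl0 σ) e1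
    have e5 : u = w := Subtype.ext (Units.ext e4)
    rw [e5]
  have hcard : Nat.card T = Module.finrank κ E * (d - 1) := by
    rw [Nat.card_prod, HasEnoughRootsOfUnity.natCard_rootsOfUnity]
    congr 1
    rw [Nat.card_eq_fintype_card]
    exact AlgHom.card κ E (AlgebraicClosure κ)
  have hTf : Fintype T := Fintype.ofFinite T
  let S : Finset (Fin (N + 1) → (AlgebraicClosure κ)) := insert 0 (Finset.univ.image f)
  have hS : S.card = Module.finrank κ E * (d - 1) + 1 := by
    rw [Finset.card_insert_of_notMem, Finset.card_image_of_injective _ hfinj, Finset.card_univ,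
      ← Nat.card_eq_fintype_card, hcard]
    intro h
    obtain ⟨t, -, ht⟩ := Finset.mem_image.1 h
    exact hf0 t ht
  have hle := FxDA.count hd F hF S (by
    intro y hy
    rcases Finset.mem_insert.1 hy with rfl | hy
    · have h1 := app_smul d FΩ hhom 0 (0 : Fin (N + 1) → (AlgebraicClosure κ))
      rw [zero_smul, zero_pow (by omega), zero_smul] at h1
      rw [smul_zero]
      exact h1
    · obtain ⟨⟨σ, u⟩, -, rfl⟩ := Finset.mem_image.1 hy
      have e1 : f (σ, u) = (((u : (AlgebraicClosure κ)ˣ) : (AlgebraicClosure κ)) * l σ) • fun i => σ (ze i) := rfl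
      rw [e1, ← hFΩ, app_smul d FΩ hhom, hσ, smul_smul, smul_smul, ← ha]
      congr 1
      have hu : ((u : (AlgebraicClosure κ)ˣ) : (AlgebraicClosure κ)) ^ (d - 1) = 1 := by
        have := (mem_rootsOfUnity' (d - 1) (u : (AlgebraicClosure κ)ˣ)).1 u.2
        exact this
      have h2 : (((u : (AlgebraicClosure κ)ˣ) : (AlgebraicClosure κ)) * l σ) ^ d =
          (((u : (AlgebraicClosure κ)ˣ) : (AlgebraicClosure κ)) * l σ) ^ (d - 1) * (((u : (AlgebraicClosure κ)ˣ) : (AlgebraicClosure κ)) * l σ) := by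
        rw [← pow_succ]
        congr 1
        omega
      rw [h2, mul_pow, hu, one_mul, mul_right_comm, hl σ])
  rw [hS] at hle
  have hfr : Module.finrank κ E ≤ ∑ i ∈ Finset.range (N + 1), d ^ i := by
    have h1 := FxDA.geom d (by omega) N
    rw [← h1] at hle
    exact Nat.le_of_mul_le_mul_right (Nat.le_of_succ_le_succ hle) (by omega)
  obtain ⟨θ, hθ⟩ := Field.exists_primitive_element κ E
  refine ⟨algebraMap E (AlgebraicClosure κ) θ, ?_, ?_⟩
  · rw [minpoly.algebraMap_eq (algebraMap E (AlgebraicClosure κ)).injective,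
      (Field.primitive_element_iff_minpoly_natDegree_eq κ θ).1 hθ]
    exact hfr
  · intro i
    have h1 : ze i ∈ IntermediateField.adjoin κ {θ} := by
      rw [hθ]
      exact IntermediateField.mem_top
    have h2 : E.val (ze i) ∈ (IntermediateField.adjoin κ {θ}).map E.val := ⟨ze i, h1, rfl⟩
    rw [IntermediateField.adjoin_map, Set.image_singleton] at h2
    exact h2

end Pool.Agent.PNB
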