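import Mathlib
import Pool.Agent.PNB.AllB
import Pool.Agent.PNB.FxB
import Pool.Agent.PNB.FxD

set_option autoImplicit false

/-!
# The generic tuple with coefficients in a lattice has a fixed point of degree `1 + d + … + d ^ N`
-/

namespace Pool.Agent.PNB

open NumberField
open Pool.Agent.PNH
open Pool.Agent.LIM (GF)

/-- The generic tuple with coefficients in a lattice has a fixed point of degree at most
`1 + d + … + d ^ N`. -/
theorem univO_fix {K : Type} [Field K] [NumberField K] {N d r m : ℕ} (ω : Fin m → 𝓞 K)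
    (hω : ∃ j, ω j ≠ 0) (hd : 2 ≤ d)
    (e : Fin r ≃ (Fin (N + 1) × {α : Fin (N + 1) →₀ ℕ // α.degree = d}) × Fin m) :
    (Pre (GF r K) (∑ i ∈ Finset.range (N + 1), d ^ i) (gen (univO ω e))).Nonempty := by
  obtain ⟨k, _, _, hgen⟩ := AllB.exists_isGen ω e hω
  have : CharZero k := (algebraMap k (GF r K)).charZero
  obtain ⟨x, hx, hp⟩ := fix_exists hd _ hgen
  obtain ⟨z, hz1, hz2, hz3⟩ := fix_upper hd _ hgen x hx hp
  exact ⟨z, hz1, hz2, 0, 1, one_pos, hz3.symm⟩

end Pool.Agent.PNB
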