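import Mathlib
import Pool.Agent.PNH.ParL

set_option autoImplicit false

/-!
# Points of period two of quadratic maps of the projective line
-/

namespace Pool.Agent.PNB

open Pool.Agent.PNH

/-- The value of a binary quadratic form. -/
theorem quad_eval {A : Type} [CommRing A] (P : MvPolynomial (Fin 2) A) (hP : P.IsHomogeneous 2)
    (x : Fin 2 → A) : MvPolynomial.eval x P = P.coeff (Finsupp.single 0 2) * x 0 ^ 2 +
      P.coeff (Finsupp.single 0 1 + Finsupp.single 1 1) * (x 0 * x 1) +
      P.coeff (Finsupp.single 1 2) * x 1 ^ 2 := by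
  classical
  have hsub : P.support ⊆ ({Finsupp.single 0 2, Finsupp.single 0 1 + Finsupp.single 1 1,
      Finsupp.single 1 2} : Finset (Fin 2 →₀ ℕ)) := by
    intro m hm
    have hdeg : m.degree = 2 := by
      by_contra h
      exact MvPolynomial.mem_support_iff.1 hm (hP.coeff_eq_zero h)
    rw [Finsupp.degree_eq_sum, Fin.sum_univ_two] at hdeg
    simp only [Finset.mem_insert, Finset.mem_singleton]
    have h0 : m 0 ≤ 2 := by omega
    rcases (by omega : m 0 = 2 ∧ m 1 = 0 ∨ m 0 = 1 ∧ m 1 = 1 ∨ m 0 = 0 ∧ m 1 = 2) with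
      h | h | h
    · left
      ext i
      fin_cases i
      · simpa using h.1
      · simpa using h.2
    · right; left
      ext i
      fin_cases i
      · simpa using h.1
      · simpa using h.2
    · right; right
      ext i
      fin_cases i
      · simpa using h.1
      · simpa using h.2
  have h12 : (Finsupp.single 0 2 : Fin 2 →₀ ℕ) ≠ Finsupp.single 0 1 + Finsupp.single 1 1 := by
    intro h
    have := DFunLike.congr_fun h 0
    simp at this
  have h13 : (Finsupp.single 0 2 : Fin 2 →₀ ℕ) ≠ Finsupp.single 1 2 := by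
    intro h
    have := DFunLike.congr_fun h 0
    simp at this
  have h23 : (Finsupp.single 0 1 + Finsupp.single 1 1 : Fin 2 →₀ ℕ) ≠ Finsupp.single 1 2 := by
    intro h
    have := DFunLike.congr_fun h 0
    simp at this
  rw [MvPolynomial.eval_eq', Finset.sum_subset hsub]
  · rw [Finset.sum_insert, Finset.sum_insert, Finset.sum_singleton]
    · simp only [Fin.prod_univ_two]
      simp
      ring
    · simpa using h23
    · simp only [Finset.mem_insert, Finset.mem_singleton, not_or]
      exact ⟨h12, h13⟩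
  · intro m _ hm
    rw [MvPolynomial.notMem_support_iff.1 hm, zero_mul]

/-- A quadratic map of the projective line has a point of period (dividing) two of degree at most
two. -/
theorem quad_two {k : Type} [Field k] (F : Tup 1 k) (hF : ∀ i, (F i).IsHomogeneous 2) :
    (Pre k 2 F).Nonempty := by
  classical
  set Ω := AlgebraicClosure k with hΩ
  set ι := algebraMap k Ω with hι
  have hmp : ∀ i, (mp ι F i).IsHomogeneous 2 := hom_mp 2 _ F hF
  obtain ⟨a, ha⟩ : ∃ a, a = (F 0).coeff (Finsupp.single 0 2) := ⟨_, rfl⟩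
  obtain ⟨b, hb⟩ : ∃ b, b = (F 0).coeff (Finsupp.single 0 1 + Finsupp.single 1 1) := ⟨_, rfl⟩
  obtain ⟨c, hc⟩ : ∃ c, c = (F 0).coeff (Finsupp.single 1 2) := ⟨_, rfl⟩
  obtain ⟨a', ha'⟩ : ∃ a, a = (F 1).coeff (Finsupp.single 0 2) := ⟨_, rfl⟩
  obtain ⟨b', hb'⟩ : ∃ b, b = (F 1).coeff (Finsupp.single 0 1 + Finsupp.single 1 1) := ⟨_, rfl⟩
  obtain ⟨c', hc'⟩ : ∃ c, c = (F 1).coeff (Finsupp.single 1 2) := ⟨_, rfl⟩
  have e0 : ∀ x : Fin 2 → Ω, app (mp ι F) x 0 =
      ι a * x 0 ^ 2 + ι b * (x 0 * x 1) + ι c * x 1 ^ 2 := by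
    intro x
    unfold app
    rw [quad_eval _ (hmp 0) x, ha, hb, hc]
    unfold mp
    rw [MvPolynomial.coeff_map, MvPolynomial.coeff_map, MvPolynomial.coeff_map]
  have e1 : ∀ x : Fin 2 → Ω, app (mp ι F) x 1 =
      ι a' * x 0 ^ 2 + ι b' * (x 0 * x 1) + ι c' * x 1 ^ 2 := by
    intro x
    unfold app
    rw [quad_eval _ (hmp 1) x, ha', hb', hc']
    unfold mp
    rw [MvPolynomial.coeff_map, MvPolynomial.coeff_map, MvPolynomial.coeff_map]
  have key : ∀ x : Fin 2 → Ω,
      ι (a ^ 2 + a * b' + a' * c') * x 0 ^ 2 +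
        ι (a * b + a * c' + b * b' - c * a' + b' * c') * (x 0 * x 1) +
        ι (a * c + b * c' + c' ^ 2) * x 1 ^ 2 = 0 →
      Par ((app (mp ι F))^[0] x) ((app (mp ι F))^[2] x) := by
    intro x hx
    have h1 : x 0 * app (mp ι F) (app (mp ι F) x) 1 - x 1 * app (mp ι F) (app (mp ι F) x) 0 = 0 := by
      rw [e0 (app (mp ι F) x), e1 (app (mp ι F) x), e0 x, e1 x]
      simp only [map_add, map_mul, map_pow, map_sub] at hx
      linear_combination (x 0 * (ι a' * x 0 ^ 2 + ι b' * (x 0 * x 1) + ι c' * x 1 ^ 2) -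
        x 1 * (ι a * x 0 ^ 2 + ι b * (x 0 * x 1) + ι c * x 1 ^ 2)) * hx
    intro i j
    change x i * app (mp ι F) (app (mp ι F) x) j = x j * app (mp ι F) (app (mp ι F) x) i
    fin_cases i <;> fin_cases j
    · rfl
    · exact sub_eq_zero.1 h1
    · exact (sub_eq_zero.1 h1).symm
    · rfl
  by_cases hγ : a * c + b * c' + c' ^ 2 = 0
  · refine ⟨![0, 1], ⟨1, rfl, fun j hj => ?_⟩, ⟨1, ?_, fun i => ?_⟩, 0, 2, two_pos, key _ ?_⟩
    · fin_cases j
      · rfl
      · exact absurd hj (lt_irrefl _)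
    · rw [minpoly.one, ← Polynomial.C_1, Polynomial.natDegree_X_sub_C]
      omega
    · fin_cases i
      · exact zero_mem _
      · exact one_mem _
    · rw [hγ]
      simp
  · set p : Polynomial k := Polynomial.C (a * c + b * c' + c' ^ 2) * Polynomial.X ^ 2 +
      Polynomial.C (a * b + a * c' + b * b' - c * a' + b' * c') * Polynomial.X +
      Polynomial.C (a ^ 2 + a * b' + a' * c') with hp
    have hdeg : p.natDegree = 2 := Polynomial.natDegree_quadratic hγ
    have hp0 : p ≠ 0 := by
      rintro h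
      rw [h, Polynomial.natDegree_zero] at hdeg
      omega
    obtain ⟨u, hu⟩ := IsAlgClosed.exists_aeval_eq_zero Ω p (by
      rw [Polynomial.degree_eq_natDegree hp0, hdeg]
      norm_num)
    have hu' : ι (a * c + b * c' + c' ^ 2) * u ^ 2 +
        ι (a * b + a * c' + b * b' - c * a' + b' * c') * u + ι (a ^ 2 + a * b' + a' * c') = 0 := by
      rw [hp] at hu
      simpa only [map_add, map_mul, map_pow, Polynomial.aeval_C, Polynomial.aeval_X] using hu
    refine ⟨![1, u], ⟨0, rfl, fun j hj => absurd hj (Fin.not_lt_zero j)⟩, ⟨u, ?_, fun i => ?_⟩,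
      0, 2, two_pos, key _ ?_⟩
    · rw [← hdeg]
      exact Polynomial.natDegree_le_of_dvd (minpoly.dvd k u hu) hp0
    · fin_cases i
      · exact one_mem _
      · exact IntermediateField.mem_adjoin_simple_self k u
    · simp only [Matrix.cons_val_zero, Matrix.cons_val_one]
      linear_combination hu'

end Pool.Agent.PNB
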