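import Mathlib
import Pool.Agent.PNB.FxE
import Pool.Agent.PNB.FxG
import Pool.Agent.PNH.AllO
import Pool.Agent.PNH.AlR
import Pool.Agent.PNH.Hun
import Pool.Agent.LIM.NullS

set_option autoImplicit false

/-!
# The least degree of a preperiodic point of almost every morphism
-/

namespace Pool.Agent.PNB

open NumberField
open Pool.Agent.PNH
open Pool.Agent.LIM (GF Null)

/-- The set of preperiodic points of degree at most `D` grows with `D`. -/
theorem pre_mono (k : Type) [Field k] {N D D' : ℕ} (h : D ≤ D') (F : Tup N k) :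
    Pre k D F ⊆ Pre k D' F := by
  rintro x ⟨h1, ⟨θ, h2, h3⟩, h4⟩
  exact ⟨h1, ⟨θ, h2.trans h, h3⟩, h4⟩

/-- For almost all tuples of forms with coefficients in a lattice the least degree of a preperiodic
point is `1 + d + … + d ^ N`, and it is `2` if `N = 1` and `d = 2`. -/
theorem null_exact {K : Type} [Field K] [NumberField K] {N d r m : ℕ} (ω : Fin m → 𝓞 K)
    (hω : ∃ j, ω j ≠ 0) (hN : 1 ≤ N) (hd : 2 ≤ d)
    (e : Fin r ≃ (Fin (N + 1) × {α : Fin (N + 1) →₀ ℕ // α.degree = d}) × Fin m) :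
    Null {s : Fin r → ℤ | ¬ (IsMor d K (mem s (univO ω e)) ∧
      ∀ D, (Pre K D (mem s (univO ω e))).Nonempty ↔
        (if N = 1 ∧ d = 2 then 2 else ∑ i ∈ Finset.range (N + 1), d ^ i) ≤ D)} := by
  classical
  have hmor := univO_mor ω hω e
  set B := ∑ i ∈ Finset.range (N + 1), d ^ i with hB
  have hpos : 0 < B := Finset.sum_pos (fun l _ => pow_pos (by omega) _) ⟨0, by simp⟩
  set L := if N = 1 ∧ d = 2 then 2 else B with hL
  have hL0 : 0 < L := by
    rw [hL]
    split_ifs <;> omega
  have hLB : L ≤ B := by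
    rw [hL]
    split_ifs with h
    · obtain ⟨rfl, rfl⟩ := h
      rw [hB]
      decide
    · exact le_rfl
  have h12 : N = 1 → d = 2 → L - 1 < 2 := by
    intro h1 h2
    rw [hL, if_pos ⟨h1, h2⟩]
    omega
  -- no point of degree less than `L`
  obtain ⟨-, n1⟩ := hundred hd (L - 1) (univO ω e) hmor
  have g1 : Pre (GF r K) (L - 1) (gen (univO ω e)) = ∅ :=
    univO_nopreR ω hω hN hd (by omega) h12 e
  -- a point of degree `B`
  obtain ⟨f2, n2⟩ := hundred hd B (univO ω e) hmor
  have g2 := univO_fix ω hω hd e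
  refine (n1.union n2).mono fun s hs => ?_
  by_contra hcon
  rw [Set.mem_union, not_or, Set.mem_ofPred_eq, Set.mem_ofPred_eq, not_not, not_not] at hcon
  obtain ⟨⟨hm, hf1, hc1⟩, ⟨-, hf2, hc2⟩⟩ := hcon
  refine hs ⟨hm, fun D => ⟨fun hne => ?_, fun hLD => ?_⟩⟩
  · by_contra hlt
    rw [g1, Set.ncard_empty, Set.ncard_eq_zero hf1] at hc1
    obtain ⟨x, hx⟩ := hne
    have h1 := pre_mono K (by omega : D ≤ L - 1) _ hx
    rw [hc1] at h1
    exact h1
  · by_cases h : N = 1 ∧ d = 2
    · obtain ⟨rfl, rfl⟩ := h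
      have h2 : (2 : ℕ) ≤ D := by simpa [hL] using hLD
      exact (quad_two _ hm.1).mono (pre_mono K h2 _)
    · have hLe : L = B := by rw [hL, if_neg h]
      have h3 : (Pre K B (mem s (univO ω e))).Nonempty := by
        rw [Set.nonempty_iff_ne_empty]
        intro h0
        rw [h0, Set.ncard_empty] at hc2
        have := (Set.ncard_pos f2).2 g2
        omega
      exact h3.mono (pre_mono K (by omega) _)

end Pool.Agent.PNB
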